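import Mathlib

/-!
# Sets on few concentric circles determine at least as many distinct triangles as regular polygons

A triangle is a triple of distinct points; two triangles are congruent if and only if they have the
same multiset of pairwise distances.  A set of `n` points which, apart from the point `c`, lies on
`D` circles with centre `c`, where `50 D ^ 3 ≤ n` or `D ≤ 1`, determines at least `[n ^ 2 / 12]`
(nearest integer) pairwise non-congruent triangles, which is the number for the regular `n`-gon.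

Proof.  For a circle of radius `ρ` about `c` with `m(ρ)` points and a point `q` of the set at
distance `d ≠ 0, ρ` from `c` consider the triangles `q a b` with `a`, `b` on the circle (type
`(ρ, d)`).
(1) At most four ordered pairs `a b` give congruent triangles, if at most `4 m(ρ)` pairs are
excluded (`fib4`); so there are about `m(ρ) ^ 2 / 4` classes of type `(ρ, d)`.
(2) For another type `(ρ', d')` at most `16 m(ρ)` pairs `a b` give a triangle which is also
congruent to a triangle of type `(ρ', d')` (`overlap`): this means that one of three quadratic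
polynomials in `b` (for fixed `a`) vanishes, and a quadratic polynomial has at most four zeros on a
circle if it does not vanish at some point of it (`quad4`).
(3) If `D ≥ 2`, the `D (D - 1)` types give about `(D - 1) / (4 D) * n ^ 2 ≥ n ^ 2 / 8` classes.
(4) If `D = 1`, all points but at most one (the centre) are on a circle, and the bound is exactly
`[n ^ 2 / 12]` (`conc`): for `a ≤ m / 3` take a shortest arc between two of the points with `a - 1`
points in between, and the triangles over its chord whose two other arcs have at least `a - 1`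
interior points.
-/

set_option autoImplicit false

namespace Pool.Agent.Results.MP_dc37f8_co.ConcentricCircles

open Finset

/-- The multiset of the pairwise distances of three points. -/
noncomputable def sides (a b c : EuclideanSpace ℝ (Fin 2)) : Multiset ℝ :=
  {dist a b, dist b c, dist a c}

/-- The number of congruence classes of triangles (triples of distinct points) of `P`. -/
noncomputable def T (P : Finset (EuclideanSpace ℝ (Fin 2))) : ℕ :=
  {s : Multiset ℝ | ∃ a ∈ P, ∃ b ∈ P, ∃ c ∈ P, a ≠ b ∧ b ≠ c ∧ a ≠ c ∧ s = sides a b c}.ncard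

/-- length of the chord of an arc -/
noncomputable def L (r x : ℝ) : ℝ := 2 * r * Real.sin (x / 2)

lemma L_le {r A B C : ℝ} (hr : 0 < r) (hA : 0 < A) (hB : A ≤ B) (hC : A ≤ C)
    (h : A + B + C = 2 * Real.pi) : L r A ≤ L r B := by
  unfold L
  have h1 : Real.sin (A / 2) ≤ Real.sin (B / 2) := by
    rcases le_or_gt (B / 2) (Real.pi / 2) with hb | hb
    · exact Real.sin_le_sin_of_le_of_le_pi_div_two (by linarith [Real.pi_pos]) hb (by linarith)
    · rw [← Real.sin_pi_sub (B / 2)]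
      exact Real.sin_le_sin_of_le_of_le_pi_div_two (by linarith [Real.pi_pos]) (by linarith)
        (by linarith)
  exact mul_le_mul_of_nonneg_left h1 (by linarith)

lemma L_third {r A B C : ℝ} (h : A + B + C = 2 * Real.pi) : L r (A + B) = L r C := by
  unfold L
  rw [show C / 2 = Real.pi - (A + B) / 2 by linarith, Real.sin_pi_sub]

lemma inj {r A B C A' B' C' : ℝ} (hr : 0 < r) (hA : 0 < A) (hB : A ≤ B) (hC : A ≤ C)
    (h : A + B + C = 2 * Real.pi) (hA' : 0 < A') (hB' : A' ≤ B') (hC' : A' ≤ C')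
    (h' : A' + B' + C' = 2 * Real.pi)
    (he : ({L r A, L r B, L r C} : Multiset ℝ) = {L r A', L r B', L r C'}) :
    A = A' ∧ (B = B' ∨ B = C') := by
  have key : ∀ {A B C A' B' C' : ℝ}, 0 < A → A ≤ B → A ≤ C → A + B + C = 2 * Real.pi → 0 < A' →
      A' ≤ B' → A' ≤ C' → A' + B' + C' = 2 * Real.pi →
      ({L r A, L r B, L r C} : Multiset ℝ) = {L r A', L r B', L r C'} → L r A' ≤ L r A := by
    intro A B C A' B' C' hA hB hC h hA' hB' hC' h' he
    have : L r A ∈ ({L r A', L r B', L r C'} : Multiset ℝ) := by rw [← he]; simp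
    simp only [Multiset.insert_eq_cons, Multiset.mem_cons, Multiset.mem_singleton] at this
    rcases this with e | e | e
    · exact e.ge
    · rw [e]; exact L_le hr hA' hB' hC' h'
    · rw [e]; exact L_le hr hA' hC' hB' (by linarith)
  have hLA : L r A = L r A' := le_antisymm (key hA' hB' hC' h' hA hB hC h he.symm)
    (key hA hB hC h hA' hB' hC' h' he)
  have hAA : A = A' := by
    unfold L at hLA
    have h1 : Real.sin (A / 2) = Real.sin (A' / 2) :=
      mul_left_cancel₀ (by positivity) hLA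
    have h2 := Real.injOn_sin (⟨by linarith [Real.pi_pos], by linarith [Real.pi_pos]⟩ :
      A / 2 ∈ Set.Icc (-(Real.pi / 2)) (Real.pi / 2))
      (⟨by linarith [Real.pi_pos], by linarith [Real.pi_pos]⟩ :
      A' / 2 ∈ Set.Icc (-(Real.pi / 2)) (Real.pi / 2)) h1
    linarith
  refine ⟨hAA, ?_⟩
  subst hAA
  have hp : L r B * L r C = L r B' * L r C' := by
    have h3 := congrArg Multiset.prod he
    simp only [Multiset.insert_eq_cons, Multiset.prod_cons, Multiset.prod_singleton] at h3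
    have hpos : 0 < L r A := by
      unfold L
      exact mul_pos (by linarith) (Real.sin_pos_of_pos_of_lt_pi (by linarith)
        (by linarith [Real.pi_pos]))
    exact mul_left_cancel₀ hpos.ne' h3
  have hs : Real.sin (B / 2) * Real.sin (C / 2) = Real.sin (B' / 2) * Real.sin (C' / 2) := by
    unfold L at hp
    have : (2 * r) ^ 2 * (Real.sin (B / 2) * Real.sin (C / 2)) =
        (2 * r) ^ 2 * (Real.sin (B' / 2) * Real.sin (C' / 2)) := by linear_combination hp
    exact mul_left_cancel₀ (by positivity) this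
  have hprod : ∀ x y : ℝ, Real.sin x * Real.sin y = (Real.cos (x - y) - Real.cos (x + y)) / 2 := by
    intro x y
    rw [Real.cos_sub, Real.cos_add]
    ring
  rw [hprod, hprod, show B / 2 + C / 2 = B' / 2 + C' / 2 by linarith] at hs
  have hc : Real.cos (B / 2 - C / 2) = Real.cos (B' / 2 - C' / 2) := by linarith
  rw [← Real.cos_abs (B / 2 - C / 2), ← Real.cos_abs (B' / 2 - C' / 2)] at hc
  have ha := Real.injOn_cos (⟨abs_nonneg _, by rw [abs_le]; constructor <;>
      linarith [Real.pi_pos]⟩ : |B / 2 - C / 2| ∈ Set.Icc 0 Real.pi)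
    (⟨abs_nonneg _, by rw [abs_le]; constructor <;>
      linarith [Real.pi_pos]⟩ : |B' / 2 - C' / 2| ∈ Set.Icc 0 Real.pi) hc
  rcases abs_eq_abs.1 ha with h4 | h4
  · left; linarith
  · right; linarith

lemma sum_eq (n : ℕ) : ∑ a ∈ Icc 1 (n / 3), (n - 3 * a + 2) / 2 = (n ^ 2 + 6) / 12 := by
  have step : ∀ n : ℕ, (∑ a ∈ Icc 1 ((n + 3) / 3), (n + 3 - 3 * a + 2) / 2) =
      (n + 2) / 2 + ∑ a ∈ Icc 1 (n / 3), (n - 3 * a + 2) / 2 := by
    intro n
    rw [show (n + 3) / 3 = n / 3 + 1 by omega]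
    have : Icc 1 (n / 3 + 1) = (range (n / 3 + 1)).image (· + 1) := by
      ext x
      simp only [mem_Icc, mem_image, mem_range]
      constructor
      · rintro ⟨h1, h2⟩
        exact ⟨x - 1, by omega, by omega⟩
      · rintro ⟨y, hy, rfl⟩
        omega
    rw [this, sum_image (by intro a _ b _ h; simpa using h), sum_range_succ']
    have h2 : Icc 1 (n / 3) = (range (n / 3)).image (· + 1) := by
      ext x
      simp only [mem_Icc, mem_image, mem_range]
      constructor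
      · rintro ⟨h1, h2⟩
        exact ⟨x - 1, by omega, by omega⟩
      · rintro ⟨y, hy, rfl⟩
        omega
    rw [h2, sum_image (by intro a _ b _ h; simpa using h), add_comm]
    congr 1
    refine sum_congr rfl fun x hx => ?_
    congr 2
    rw [mem_range] at hx
    omega
  have hrec : ∀ n : ℕ, ((n + 3) ^ 2 + 6) / 12 = (n + 2) / 2 + (n ^ 2 + 6) / 12 := by
    intro n
    obtain ⟨q, s, hs, rfl⟩ : ∃ q s, s < 12 ∧ n = 12 * q + s :=
      ⟨n / 12, n % 12, Nat.mod_lt _ (by norm_num), by omega⟩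
    interval_cases s <;> ring_nf <;> omega
  induction n using Nat.strong_induction_on with
  | _ n ih =>
    rcases Nat.lt_or_ge n 3 with h | h
    · interval_cases n <;> simp
    · obtain ⟨m, rfl⟩ := Nat.exists_eq_add_of_le' h
      rw [step, hrec, ih m (by omega)]

lemma core (n : ℕ) (hn : 1 ≤ n) (Θ : ℕ → ℝ) (hm : StrictMono Θ)
    (hper : ∀ k, Θ (k + n) = Θ k + 2 * Real.pi) (r : ℝ) (hr : 0 < r) (S : Finset (Multiset ℝ))
    (hS : ∀ i j k, i < j → j < k → k < i + n →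
      ({L r (Θ j - Θ i), L r (Θ k - Θ j), L r (Θ k - Θ i)} : Multiset ℝ) ∈ S) :
    (n ^ 2 + 6) / 12 ≤ S.card := by
  classical
  have hex : ∀ a : ℕ, ∃ i, ∀ j, Θ (i + a) - Θ i ≤ Θ (j + a) - Θ j := by
    intro a
    obtain ⟨i, _, hi⟩ := (range n).exists_min_image (fun i => Θ (i + a) - Θ i)
      ⟨0, mem_range.2 (by omega)⟩
    refine ⟨i, fun j => ?_⟩
    have hq : ∀ q j, Θ (j + q * n) = Θ j + q * (2 * Real.pi) := by
      intro q
      induction q with
      | zero => intro j; simp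
      | succ q ih =>
        intro j
        rw [show j + (q + 1) * n = (j + q * n) + n by ring, hper, ih]
        push_cast
        ring
    have h1 := hi (j % n) (mem_range.2 (Nat.mod_lt _ (by omega)))
    have h2 : Θ (j + a) - Θ j = Θ (j % n + a) - Θ (j % n) := by
      have e1 : j = j % n + (j / n) * n := by
        rw [mul_comm]; exact (Nat.mod_add_div j n).symm
      have e2 : Θ j = Θ (j % n) + (j / n : ℕ) * (2 * Real.pi) := by
        conv_lhs => rw [e1]
        exact hq _ _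
      have e3 : Θ (j + a) = Θ (j % n + a) + (j / n : ℕ) * (2 * Real.pi) := by
        conv_lhs => rw [e1, show j % n + j / n * n + a = (j % n + a) + j / n * n by ring]
        exact hq _ _
      rw [e2, e3]
      ring
    rw [h2]
    exact h1
  choose i hi using hex
  set m : ℕ → ℝ := fun a => Θ (i a + a) - Θ (i a) with hmdef
  have hmm : StrictMono m := by
    intro a b hab
    have h1 := hi a (i b)
    have h2 := hm (show i b + a < i b + b by omega)
    simp only [hmdef]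
    linarith
  have hmpos : ∀ a, 1 ≤ a → 0 < m a := fun a ha => sub_pos.2 (hm (by omega))
  set Bf : ℕ → ℕ → ℝ := fun a b => Θ (i a + a + b) - Θ (i a + a) with hB
  set F : ℕ → ℕ → Multiset ℝ := fun a b =>
    {L r (m a), L r (Bf a b), L r (m a + Bf a b)} with hF
  have hfact : ∀ a b, 1 ≤ a → a ≤ b → 2 * a + b ≤ n →
      m a ≤ Bf a b ∧ m a ≤ 2 * Real.pi - m a - Bf a b ∧ F a b ∈ S := by
    intro a b ha hab hb
    refine ⟨?_, ?_, ?_⟩
    · have h1 := hi a (i a + a)
      have h2 := hm.monotone (show i a + a + a ≤ i a + a + b by omega)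
      simp only [hmdef, hB]
      linarith
    · have h1 := hi a (i a + a + b)
      have h2 := hm.monotone (show i a + a + b + a ≤ i a + n by omega)
      rw [hper] at h2
      simp only [hmdef, hB]
      linarith
    · have := hS (i a) (i a + a) (i a + a + b) (by omega) (by omega) (by omega)
      simp only [hF, hmdef, hB]
      convert this using 5
      ring
  have hinj : ∀ a b a' b', 1 ≤ a → a ≤ b → 2 * a + b ≤ n → 1 ≤ a' → a' ≤ b' → 2 * a' + b' ≤ n →
      F a b = F a' b' → m a = m a' ∧ (Bf a b = Bf a' b' ∨ Bf a b = 2 * Real.pi - m a' - Bf a' b') := by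
    intro a b a' b' ha hab hb ha' hab' hb' he
    obtain ⟨h1, h2, _⟩ := hfact a b ha hab hb
    obtain ⟨h1', h2', _⟩ := hfact a' b' ha' hab' hb'
    refine inj hr (hmpos a ha) h1 h2 (by ring) (hmpos a' ha') h1' h2' (by ring) ?_
    rw [← L_third (r := r) (A := m a) (B := Bf a b) (C := 2 * Real.pi - m a - Bf a b) (by ring),
      ← L_third (r := r) (A := m a') (B := Bf a' b') (C := 2 * Real.pi - m a' - Bf a' b') (by ring)]
    exact he
  have hBinj : ∀ a b b', Bf a b = Bf a b' → b = b' := by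
    intro a b b' h
    simp only [hB] at h
    have := hm.injective (show Θ (i a + a + b) = Θ (i a + a + b') by linarith)
    omega
  set I : ℕ → Finset (Multiset ℝ) := fun a => (Icc a (n - 2 * a)).image (F a) with hI
  have hcard : ∀ a ∈ Icc 1 (n / 3), (n - 3 * a + 2) / 2 ≤ (I a).card := by
    intro a ha
    rw [mem_Icc] at ha
    have h2 : (Icc a (n - 2 * a)).card ≤ 2 * (I a).card := by
      refine card_le_mul_card_image _ _ fun t ht => ?_
      by_contra hcon
      push Not at hcon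
      obtain ⟨x, y, z, hx, hy, hz, hxy, hxz, hyz⟩ := two_lt_card_iff.1 hcon
      simp only [mem_filter, mem_Icc] at hx hy hz
      obtain ⟨_, h3⟩ := hinj a y a x (by omega) (by omega) (by omega) (by omega) (by omega)
        (by omega) (by rw [hx.2, hy.2])
      obtain ⟨_, h4⟩ := hinj a z a x (by omega) (by omega) (by omega) (by omega) (by omega)
        (by omega) (by rw [hx.2, hz.2])
      rcases h3 with h3 | h3
      · exact hxy (hBinj a y x h3).symm
      · rcases h4 with h4 | h4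
        · exact hxz (hBinj a z x h4).symm
        · exact hyz (hBinj a y z (by rw [h3, h4]))
    rw [Nat.card_Icc] at h2
    omega
  have hdisj : ∀ a ∈ Icc 1 (n / 3), ∀ a' ∈ Icc 1 (n / 3), a ≠ a' → Disjoint (I a) (I a') := by
    intro a ha a' ha' hne
    rw [mem_Icc] at ha ha'
    rw [disjoint_left]
    intro t ht ht'
    simp only [hI, mem_image, mem_Icc] at ht ht'
    obtain ⟨b, hb, hbt⟩ := ht
    obtain ⟨b', hb', hbt'⟩ := ht'
    obtain ⟨h, _⟩ := hinj a b a' b' (by omega) (by omega) (by omega) (by omega) (by omega)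
      (by omega) (by rw [hbt, hbt'])
    exact hne (hmm.injective h)
  rw [← sum_eq n]
  calc ∑ a ∈ Icc 1 (n / 3), (n - 3 * a + 2) / 2 ≤ ∑ a ∈ Icc 1 (n / 3), (I a).card :=
        sum_le_sum hcard
    _ = ((Icc 1 (n / 3)).biUnion I).card := (card_biUnion hdisj).symm
    _ ≤ S.card := by
        refine card_le_card fun t ht => ?_
        rw [mem_biUnion] at ht
        obtain ⟨a, ha, ht⟩ := ht
        simp only [hI, mem_image, mem_Icc] at ht ha
        obtain ⟨b, hb, rfl⟩ := ht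
        exact (hfact a b (by omega) (by omega) (by omega)).2.2

/-- square of the distance in coordinates -/
lemma dist_sq (x y : EuclideanSpace ℝ (Fin 2)) :
    dist x y ^ 2 = (x 0 - y 0) ^ 2 + (x 1 - y 1) ^ 2 := by
  rw [EuclideanSpace.dist_eq, Real.sq_sqrt (sum_nonneg fun _ _ => sq_nonneg _), Fin.sum_univ_two,
    Real.dist_eq, Real.dist_eq, sq_abs, sq_abs]

lemma dist_arc {x y c : EuclideanSpace ℝ (Fin 2)} {r α β : ℝ} (hr : 0 < r)
    (hx0 : x 0 = c 0 + r * Real.cos α) (hx1 : x 1 = c 1 + r * Real.sin α)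
    (hy0 : y 0 = c 0 + r * Real.cos β) (hy1 : y 1 = c 1 + r * Real.sin β)
    (h0 : α < β) (h1 : β < α + 2 * Real.pi) : dist x y = L r (β - α) ∧ 0 < L r (β - α) := by
  have hs : 0 < Real.sin ((β - α) / 2) :=
    Real.sin_pos_of_pos_of_lt_pi (by linarith) (by linarith)
  have hL : 0 < L r (β - α) := mul_pos (by linarith) hs
  refine ⟨?_, hL⟩
  have h2 : dist x y ^ 2 = L r (β - α) ^ 2 := by
    rw [dist_sq, hx0, hx1, hy0, hy1]
    unfold L
    have e1 : Real.cos (β - α) = 1 - 2 * Real.sin ((β - α) / 2) ^ 2 := by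
      have := Real.cos_two_mul ((β - α) / 2)
      rw [show 2 * ((β - α) / 2) = β - α by ring, Real.cos_sq'] at this
      rw [this]
      ring
    rw [Real.cos_sub] at e1
    have e2 := Real.sin_sq_add_cos_sq α
    have e3 := Real.sin_sq_add_cos_sq β
    linear_combination r ^ 2 * e2 + r ^ 2 * e3 - 2 * r ^ 2 * e1
  exact (pow_left_inj₀ dist_nonneg hL.le two_ne_zero).1 h2

lemma angle {x c : EuclideanSpace ℝ (Fin 2)} {r : ℝ} (hx : dist x c = r) :
    ∃ α : ℝ, -Real.pi < α ∧ α ≤ Real.pi ∧ x 0 = c 0 + r * Real.cos α ∧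
      x 1 = c 1 + r * Real.sin α := by
  set z : ℂ := ⟨x 0 - c 0, x 1 - c 1⟩ with hz
  have hn : ‖z‖ = r := by
    have h1 : ‖z‖ ^ 2 = r ^ 2 := by
      rw [Complex.sq_norm, Complex.normSq_apply, ← hx, dist_sq]
      ring
    exact (pow_left_inj₀ (norm_nonneg _) (hx ▸ dist_nonneg) two_ne_zero).1 h1
  refine ⟨z.arg, (Complex.arg_mem_Ioc z).1, (Complex.arg_mem_Ioc z).2, ?_, ?_⟩
  · rw [← hn, Complex.norm_mul_cos_arg]; simp [hz]
  · rw [← hn, Complex.norm_mul_sin_arg]; simp [hz]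

lemma circ (P : Finset (EuclideanSpace ℝ (Fin 2))) (c : EuclideanSpace ℝ (Fin 2)) (r : ℝ)
    (hr : 0 < r) (hP : ∀ x ∈ P, dist x c = r) (S : Finset (Multiset ℝ))
    (hS : ∀ x ∈ P, ∀ y ∈ P, ∀ z ∈ P, x ≠ y → y ≠ z → x ≠ z → sides x y z ∈ S) :
    (P.card ^ 2 + 6) / 12 ≤ S.card := by
  classical
  rcases Nat.eq_zero_or_pos P.card with h0 | hn
  · rw [h0]; simp
  have hex : ∀ x : EuclideanSpace ℝ (Fin 2), ∃ α : ℝ, x ∈ P → -Real.pi < α ∧ α ≤ Real.pi ∧
      x 0 = c 0 + r * Real.cos α ∧ x 1 = c 1 + r * Real.sin α := by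
    intro x
    by_cases hx : x ∈ P
    · obtain ⟨α, hα⟩ := angle (hP x hx)
      exact ⟨α, fun _ => hα⟩
    · exact ⟨0, fun h => absurd h hx⟩
  choose θ hθ using hex
  have hinj : Set.InjOn θ P := by
    intro x hx y hy hxy
    obtain ⟨_, _, h1, h2⟩ := hθ x hx
    obtain ⟨_, _, h3, h4⟩ := hθ y hy
    ext i
    fin_cases i
    · simp only [Fin.zero_eta, h1, h3, hxy]
    · simp only [Fin.mk_one, h2, h4, hxy]
  set n := P.card with hndef
  have hA : (P.image θ).card = n := card_image_of_injOn hinj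
  set e := (P.image θ).orderEmbOfFin hA with he
  have hp : ∀ i : Fin n, ∃ x ∈ P, θ x = e i := by
    intro i
    have := (P.image θ).orderEmbOfFin_mem hA i
    rw [mem_image] at this
    exact this
  choose p hpP hpe using hp
  have hlt : ∀ k : ℕ, k % n < n := fun k => Nat.mod_lt _ hn
  set Θ : ℕ → ℝ := fun k => e ⟨k % n, hlt k⟩ + (k / n : ℕ) * (2 * Real.pi) with hΘ
  set q : ℕ → EuclideanSpace ℝ (Fin 2) := fun k => p ⟨k % n, hlt k⟩ with hq
  have hqP : ∀ k, q k ∈ P := fun k => hpP _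
  have hq0 : ∀ k, (q k) 0 = c 0 + r * Real.cos (Θ k) := by
    intro k
    simp only [hΘ]
    rw [Real.cos_add_nat_mul_two_pi, ← hpe]
    exact (hθ _ (hpP _)).2.2.1
  have hq1 : ∀ k, (q k) 1 = c 1 + r * Real.sin (Θ k) := by
    intro k
    simp only [hΘ]
    rw [Real.sin_add_nat_mul_two_pi, ← hpe]
    exact (hθ _ (hpP _)).2.2.2
  have hrange : ∀ i : Fin n, -Real.pi < e i ∧ e i ≤ Real.pi := by
    intro i
    rw [← hpe]
    exact ⟨(hθ _ (hpP _)).1, (hθ _ (hpP _)).2.1⟩
  have hper : ∀ k, Θ (k + n) = Θ k + 2 * Real.pi := by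
    intro k
    simp only [hΘ]
    have h1 : (k + n) / n = k / n + 1 := Nat.add_div_right k hn
    have h2 : (k + n) % n = k % n := Nat.add_mod_right k n
    simp only [h1, h2]
    push_cast
    ring
  have hm : StrictMono Θ := by
    refine strictMono_nat_of_lt_succ fun k => ?_
    simp only [hΘ]
    have hk := Nat.div_add_mod k n
    have hkl := hlt k
    rcases Nat.lt_or_ge (k % n + 1) n with h | h
    · have h1 : (k + 1) % n = k % n + 1 := by
        conv_lhs => rw [← hk, add_assoc, mul_comm n]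
        exact Nat.mul_add_mod_of_lt h
      have h2 : (k + 1) / n = k / n := by
        conv_lhs => rw [← hk, add_assoc, Nat.mul_add_div hn, Nat.div_eq_of_lt h]
        simp
      have h3 : e ⟨k % n, hlt k⟩ < e ⟨k % n + 1, h⟩ := by
        apply e.strictMono
        simp [Fin.lt_def]
      simp only [h1, h2]
      linarith
    · have h1 : k % n + 1 = n := by omega
      have h4 : k + 1 = n * (k / n + 1) := by
        rw [mul_add, mul_one]; omega
      have h2 : (k + 1) / n = k / n + 1 := by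
        rw [h4, Nat.mul_div_cancel_left _ hn]
      have h3 : (k + 1) % n = 0 := by
        rw [h4]; exact Nat.mul_mod_right _ _
      simp only [h2, h3]
      have h5 := (hrange ⟨k % n, hlt k⟩).2
      have h6 := (hrange ⟨0, hn⟩).1
      push_cast
      linarith
  refine core n hn Θ hm hper r hr S ?_
  intro i j k hij hjk hki
  have g1 := hm hij
  have g2 := hm hjk
  have g3 := hm hki
  rw [hper] at g3
  obtain ⟨d1, l1⟩ := dist_arc hr (hq0 i) (hq1 i) (hq0 j) (hq1 j) g1 (by linarith)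
  obtain ⟨d2, l2⟩ := dist_arc hr (hq0 j) (hq1 j) (hq0 k) (hq1 k) g2 (by linarith)
  obtain ⟨d3, l3⟩ := dist_arc hr (hq0 i) (hq1 i) (hq0 k) (hq1 k) (by linarith) (by linarith)
  rw [← d1, ← d2, ← d3]
  exact hS _ (hqP i) _ (hqP j) _ (hqP k) (dist_pos.1 (by linarith)) (dist_pos.1 (by linarith))
    (dist_pos.1 (by linarith))

/-- inner product of `x - c` and `y - c` -/
def ip (c x y : EuclideanSpace ℝ (Fin 2)) : ℝ :=
  (x 0 - c 0) * (y 0 - c 0) + (x 1 - c 1) * (y 1 - c 1)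

/-- determinant of `x - c` and `y - c` -/
def cr (c x y : EuclideanSpace ℝ (Fin 2)) : ℝ :=
  (x 0 - c 0) * (y 1 - c 1) - (x 1 - c 1) * (y 0 - c 0)

lemma dist_ip (c x y : EuclideanSpace ℝ (Fin 2)) :
    dist x y ^ 2 = ip c x x + ip c y y - 2 * ip c x y := by
  rw [dist_sq]; unfold ip; ring

lemma ip_self {c x : EuclideanSpace ℝ (Fin 2)} {r : ℝ} (h : dist x c = r) :
    ip c x x = r ^ 2 := by
  rw [← h, dist_sq]; unfold ip; ring

lemma gram (c a b q : EuclideanSpace ℝ (Fin 2)) :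
    ip c a a * ip c b b * ip c q q + 2 * ip c a q * ip c b q * ip c a b - ip c a a * ip c b q ^ 2
      - ip c b b * ip c a q ^ 2 - ip c q q * ip c a b ^ 2 = 0 := by
  unfold ip; ring

lemma lagr (c a b q : EuclideanSpace ℝ (Fin 2)) :
    cr c a q * cr c b q + ip c a q * ip c b q = ip c q q * ip c a b := by
  unfold ip cr; ring

lemma recov {c a b q : EuclideanSpace ℝ (Fin 2)} (hq : ip c q q ≠ 0)
    (h1 : ip c a q = ip c b q) (h2 : cr c a q = cr c b q) : a = b := by
  have e0 : ip c q q * (a 0 - b 0) = 0 := by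
    unfold ip cr at *
    linear_combination (q 0 - c 0) * h1 + (q 1 - c 1) * h2
  have e1 : ip c q q * (a 1 - b 1) = 0 := by
    unfold ip cr at *
    linear_combination (q 1 - c 1) * h1 - (q 0 - c 0) * h2
  have f0 := (mul_eq_zero.1 e0).resolve_left hq
  have f1 := (mul_eq_zero.1 e1).resolve_left hq
  ext i
  fin_cases i
  · simp only [Fin.zero_eta]; linarith
  · simp only [Fin.mk_one]; linarith

lemma sgn {p p' t t' : ℝ} (hp : p ^ 2 = p' ^ 2) (ht : t ^ 2 = t' ^ 2) (h : p * t = p' * t') :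
    (p = p' ∧ t = t') ∨ (p = -p' ∧ t = -t') := by
  rcases sq_eq_sq_iff_eq_or_eq_neg.1 hp with h1 | h1 <;>
    rcases sq_eq_sq_iff_eq_or_eq_neg.1 ht with h2 | h2
  · exact Or.inl ⟨h1, h2⟩
  · subst h1 h2
    have : p * t' = 0 := by linarith
    rcases mul_eq_zero.1 this with h3 | h3
    · right; exact ⟨by rw [h3]; simp, rfl⟩
    · left; exact ⟨rfl, by rw [h3]; simp⟩
  · subst h1 h2
    have : p' * t = 0 := by linarith
    rcases mul_eq_zero.1 this with h3 | h3
    · left; exact ⟨by rw [h3]; simp, rfl⟩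
    · right; exact ⟨rfl, by rw [h3]; simp⟩
  · exact Or.inr ⟨h1, h2⟩

/-- vanishes on the triangles inscribed in a circle of radius `r` -/
noncomputable def G (r : ℝ) (s : Multiset ℝ) : ℝ :=
  s.prod ^ 2 - r ^ 2 * ((s.map (· ^ 2)).sum ^ 2 - 2 * (s.map (· ^ 4)).sum)

lemma G_sides {c q a b : EuclideanSpace ℝ (Fin 2)} {r : ℝ} (ha : dist a c = r)
    (hb : dist b c = r) : G r (sides q a b) =
      dist a b ^ 2 * (dist q c ^ 2 - r ^ 2) * (dist b (c + q - a) ^ 2 - r ^ 2) := by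
  have hA := ip_self ha
  have hB := ip_self hb
  have hQ : dist q c ^ 2 = ip c q q := by rw [ip_self rfl]
  have h1 : dist b (c + q - a) ^ 2 = ip c q q + 2 * r ^ 2 - 2 * ip c a q - 2 * ip c b q
      + 2 * ip c a b := by
    rw [dist_sq, show (2 : ℝ) * r ^ 2 = ip c a a + ip c b b by rw [hA, hB]; ring]
    simp only [PiLp.add_apply, PiLp.sub_apply]
    unfold ip
    ring
  have hg := gram c a b q
  rw [hA, hB] at hg
  have x2 := dist_ip c q a
  have y2 := dist_ip c q b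
  have z2 := dist_ip c a b
  have hc1 : ip c q a = ip c a q := by unfold ip; ring
  have hc2 : ip c q b = ip c b q := by unfold ip; ring
  rw [hA, hc1] at x2
  rw [hB, hc2] at y2
  rw [hA, hB] at z2
  have hG : G r (sides q a b) = dist q a ^ 2 * dist q b ^ 2 * dist a b ^ 2
      - r ^ 2 * ((dist q a ^ 2 + dist q b ^ 2 + dist a b ^ 2) ^ 2 -
        2 * ((dist q a ^ 2) ^ 2 + (dist q b ^ 2) ^ 2 + (dist a b ^ 2) ^ 2)) := by
    unfold G sides
    simp only [Multiset.insert_eq_cons, Multiset.map_cons, Multiset.map_singleton,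
      Multiset.prod_cons, Multiset.prod_singleton, Multiset.sum_cons, Multiset.sum_singleton]
    ring
  rw [hG, hQ, h1, x2, y2, z2]
  linear_combination (-4) * hg

lemma finr : Module.finrank ℝ (EuclideanSpace ℝ (Fin 2)) = 2 := by simp

lemma two_pts {c c' : EuclideanSpace ℝ (Fin 2)} {r r' : ℝ} (h : c ≠ c')
    (S : Finset (EuclideanSpace ℝ (Fin 2))) (h1 : ∀ x ∈ S, dist x c = r)
    (h2 : ∀ x ∈ S, dist x c' = r') : S.card ≤ 2 := by
  by_contra hcon
  push Not at hcon
  obtain ⟨x, y, z, hx, hy, hz, hxy, hxz, hyz⟩ := two_lt_card_iff.1 hcon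
  rcases EuclideanGeometry.eq_of_dist_eq_of_dist_eq_of_finrank_eq_two finr h hxy (h1 x hx)
    (h1 y hy) (h1 z hz) (h2 x hx) (h2 y hy) (h2 z hz) with h | h
  · exact hxz h.symm
  · exact hyz h.symm

lemma perm3 {x y z x' y' z' : ℝ} (h : ({x', y', z'} : Multiset ℝ) = {x, y, z}) :
    (x' = x ∧ y' = y ∧ z' = z) ∨ (x' = x ∧ y' = z ∧ z' = y) ∨ (x' = y ∧ y' = x ∧ z' = z) ∨
    (x' = y ∧ y' = z ∧ z' = x) ∨ (x' = z ∧ y' = x ∧ z' = y) ∨ (x' = z ∧ y' = y ∧ z' = x) := by
  have hs : x' + y' + z' = x + y + z := by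
    have := congrArg Multiset.sum h
    simp only [Multiset.insert_eq_cons, Multiset.sum_cons, Multiset.sum_singleton] at this
    linarith
  have hq : x' ^ 2 + y' ^ 2 + z' ^ 2 = x ^ 2 + y ^ 2 + z ^ 2 := by
    have := congrArg (fun s => (Multiset.map (fun t : ℝ => t ^ 2) s).sum) h
    simp only [Multiset.insert_eq_cons, Multiset.map_cons, Multiset.map_singleton,
      Multiset.sum_cons, Multiset.sum_singleton] at this
    linarith
  have hm : x' = x ∨ x' = y ∨ x' = z := by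
    have : x' ∈ ({x', y', z'} : Multiset ℝ) := by simp
    rw [h] at this
    simpa using this
  have pr : ∀ {a b c d : ℝ}, a + b = c + d → a ^ 2 + b ^ 2 = c ^ 2 + d ^ 2 →
      (a = c ∧ b = d) ∨ (a = d ∧ b = c) := by
    intro a b c d h1 h2
    have : (a - c) * (a - d) = 0 := by
      have hb : b = c + d - a := by linarith
      subst hb
      nlinarith
    rcases mul_eq_zero.1 this with h | h
    · left; constructor <;> linarith
    · right; constructor <;> linarith
  rcases hm with rfl | rfl | rfl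
  · rcases pr (show y' + z' = y + z by linarith) (by linarith) with ⟨h1, h2⟩ | ⟨h1, h2⟩
    · exact Or.inl ⟨rfl, h1, h2⟩
    · exact Or.inr (Or.inl ⟨rfl, h1, h2⟩)
  · rcases pr (show y' + z' = x + z by linarith) (by linarith) with ⟨h1, h2⟩ | ⟨h1, h2⟩
    · exact Or.inr (Or.inr (Or.inl ⟨rfl, h1, h2⟩))
    · exact Or.inr (Or.inr (Or.inr (Or.inl ⟨rfl, h1, h2⟩)))
  · rcases pr (show y' + z' = x + y by linarith) (by linarith) with ⟨h1, h2⟩ | ⟨h1, h2⟩
    · exact Or.inr (Or.inr (Or.inr (Or.inr (Or.inl ⟨rfl, h1, h2⟩))))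
    · exact Or.inr (Or.inr (Or.inr (Or.inr (Or.inr ⟨rfl, h1, h2⟩))))

/-- Gram determinant in terms of the squares of the distances -/
lemma gram' {c q a b : EuclideanSpace ℝ (Fin 2)} {r : ℝ} (ha : dist a c = r)
    (hb : dist b c = r) {D X Y Z : ℝ} (hD : D = dist q c ^ 2) (hX : X = dist q a ^ 2)
    (hY : Y = dist q b ^ 2) (hZ : Z = dist a b ^ 2) :
    r ^ 2 * r ^ 2 * D + 2 * ((D + r ^ 2 - X) / 2) * ((D + r ^ 2 - Y) / 2) * (r ^ 2 - Z / 2)
      - r ^ 2 * ((D + r ^ 2 - Y) / 2) ^ 2 - r ^ 2 * ((D + r ^ 2 - X) / 2) ^ 2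
      - D * (r ^ 2 - Z / 2) ^ 2 = 0 := by
  have hg := gram c a b q
  have hA := ip_self ha
  have hB := ip_self hb
  have hQ : ip c q q = D := by rw [hD, ip_self rfl]
  have x2 := dist_ip c q a
  have y2 := dist_ip c q b
  have z2 := dist_ip c a b
  have hc1 : ip c q a = ip c a q := by unfold ip; ring
  have hc2 : ip c q b = ip c b q := by unfold ip; ring
  rw [hA, hc1, hQ, ← hX] at x2
  rw [hB, hc2, hQ, ← hY] at y2
  rw [hA, hB, ← hZ] at z2
  rw [hA, hB, hQ] at hg
  have e1 : (D + r ^ 2 - X) / 2 = ip c a q := by linarith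
  have e2 : (D + r ^ 2 - Y) / 2 = ip c b q := by linarith
  have e3 : r ^ 2 - Z / 2 = ip c a b := by linarith
  rw [e1, e2, e3]
  linarith

lemma no3 {R D X Y Z : ℝ} (hk : R ≠ D) (hXY : X ≠ Y) (hXZ : X ≠ Z) (hYZ : Y ≠ Z)
    (E1 : R * R * D + 2 * ((D + R - X) / 2) * ((D + R - Y) / 2) * (R - Z / 2)
      - R * ((D + R - Y) / 2) ^ 2 - R * ((D + R - X) / 2) ^ 2 - D * (R - Z / 2) ^ 2 = 0)
    (E2 : R * R * D + 2 * ((D + R - X) / 2) * ((D + R - Z) / 2) * (R - Y / 2)
      - R * ((D + R - Z) / 2) ^ 2 - R * ((D + R - X) / 2) ^ 2 - D * (R - Y / 2) ^ 2 = 0)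
    (E3 : R * R * D + 2 * ((D + R - Y) / 2) * ((D + R - Z) / 2) * (R - X / 2)
      - R * ((D + R - Z) / 2) ^ 2 - R * ((D + R - Y) / 2) ^ 2 - D * (R - X / 2) ^ 2 = 0) :
    False := by
  have f1 : (Y - Z) * ((R - D) * (Y + Z - X + D - R)) = 0 := by
    linear_combination (-4) * E1 + 4 * E2
  have f2 : (X - Z) * ((R - D) * (X + Z - Y + D - R)) = 0 := by
    linear_combination (-4) * E1 + 4 * E3
  have g1 := (mul_eq_zero.1 ((mul_eq_zero.1 f1).resolve_left (sub_ne_zero.2 hYZ))).resolve_left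
    (sub_ne_zero.2 hk)
  have g2 := (mul_eq_zero.1 ((mul_eq_zero.1 f2).resolve_left (sub_ne_zero.2 hXZ))).resolve_left
    (sub_ne_zero.2 hk)
  exact hXY (by linarith)

/-- at most two ordered pairs of points of the circle have given distances to `q` and to each
other -/
lemma fib2 {c q : EuclideanSpace ℝ (Fin 2)} {r : ℝ} (hq : q ≠ c) {x y z : ℝ}
    (S : Finset (EuclideanSpace ℝ (Fin 2) × EuclideanSpace ℝ (Fin 2)))
    (h1 : ∀ p ∈ S, dist p.1 c = r ∧ dist p.2 c = r)
    (h2 : ∀ p ∈ S, dist q p.1 = x ∧ dist q p.2 = y ∧ dist p.1 p.2 = z) : S.card ≤ 2 := by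
  have hD : ip c q q ≠ 0 := by
    rw [ip_self rfl]
    exact pow_ne_zero 2 (dist_ne_zero.2 hq)
  have hcr : ∀ a b, cr c a q * cr c b q = ip c q q * ip c a b - ip c a q * ip c b q := by
    intro a b
    have := lagr c a b q
    linarith
  have key : ∀ p ∈ S, ∀ p' ∈ S, ip c p.1 q = ip c p'.1 q ∧ ip c p.2 q = ip c p'.2 q ∧
      ((cr c p.1 q = cr c p'.1 q ∧ cr c p.2 q = cr c p'.2 q) ∨
        (cr c p.1 q = - cr c p'.1 q ∧ cr c p.2 q = - cr c p'.2 q)) := by
    intro p hp p' hp'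
    have a1 := ip_self (h1 p hp).1
    have a2 := ip_self (h1 p hp).2
    have a3 := ip_self (h1 p' hp').1
    have a4 := ip_self (h1 p' hp').2
    have hsym : ∀ u v, ip c u v = ip c v u := by intro u v; unfold ip; ring
    have b1 := dist_ip c q p.1
    have b2 := dist_ip c q p.2
    have b3 := dist_ip c q p'.1
    have b4 := dist_ip c q p'.2
    have b5 := dist_ip c p.1 p.2
    have b6 := dist_ip c p'.1 p'.2
    rw [(h2 p hp).1, hsym q p.1] at b1
    rw [(h2 p hp).2.1, hsym q p.2] at b2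
    rw [(h2 p' hp').1, hsym q p'.1] at b3
    rw [(h2 p' hp').2.1, hsym q p'.2] at b4
    rw [(h2 p hp).2.2] at b5
    rw [(h2 p' hp').2.2] at b6
    have c1 : ip c p.1 q = ip c p'.1 q := by linarith
    have c2 : ip c p.2 q = ip c p'.2 q := by linarith
    have c3 : ip c p.1 p.2 = ip c p'.1 p'.2 := by linarith
    refine ⟨c1, c2, sgn ?_ ?_ ?_⟩
    · rw [sq, sq, hcr, hcr, c1, a1, a3]
    · rw [sq, sq, hcr, hcr, c2, a2, a4]
    · rw [hcr, hcr, c1, c2, c3]
  by_contra hcon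
  push Not at hcon
  obtain ⟨u, v, w, hu, hv, hw, huv, huw, hvw⟩ := two_lt_card_iff.1 hcon
  have hrec : ∀ p ∈ S, ∀ p' ∈ S, (cr c p.1 q = cr c p'.1 q ∧ cr c p.2 q = cr c p'.2 q) →
      p = p' := by
    intro p hp p' hp' h
    obtain ⟨c1, c2, _⟩ := key p hp p' hp'
    exact Prod.ext (recov hD c1 h.1) (recov hD c2 h.2)
  obtain ⟨_, _, h3⟩ := key v hv u hu
  obtain ⟨_, _, h4⟩ := key w hw u hu
  rcases h3 with h3 | h3
  · exact huv (hrec v hv u hu h3).symm
  · rcases h4 with h4 | h4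
    · exact huw (hrec w hw u hu h4).symm
    · exact hvw (hrec v hv w hw ⟨by rw [h3.1, h4.1], by rw [h3.2, h4.2]⟩)

/-- at most eight ordered pairs of points of the circle form with `q` a triangle of a given
congruence class -/
lemma fib8 {c q : EuclideanSpace ℝ (Fin 2)} {r : ℝ} (hq : q ≠ c) (hqr : dist q c ≠ r) (hr : 0 < r)
    (s : Multiset ℝ) (S : Finset (EuclideanSpace ℝ (Fin 2) × EuclideanSpace ℝ (Fin 2)))
    (h1 : ∀ p ∈ S, dist p.1 c = r ∧ dist p.2 c = r)
    (h2 : ∀ p ∈ S, sides q p.1 p.2 = s) : S.card ≤ 8 := by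
  classical
  set g : EuclideanSpace ℝ (Fin 2) × EuclideanSpace ℝ (Fin 2) → ℝ × ℝ × ℝ :=
    fun p => (dist q p.1, dist q p.2, dist p.1 p.2) with hg
  have hcard : S.card ≤ 2 * (S.image g).card := by
    refine card_le_mul_card_image _ _ fun t ht => ?_
    refine fib2 (r := r) hq (x := t.1) (y := t.2.1) (z := t.2.2) _ ?_ ?_
    · intro p hp
      exact h1 p (mem_filter.1 hp).1
    · intro p hp
      have := (mem_filter.1 hp).2
      rw [← this]
      exact ⟨rfl, rfl, rfl⟩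
  have h4 : (S.image g).card ≤ 4 := by
    rcases (S.image g).eq_empty_or_nonempty with h0 | ⟨⟨x, y, z⟩, hne⟩
    · rw [h0]; simp
    have hs : ∀ t ∈ S.image g, ({t.1, t.2.1, t.2.2} : Multiset ℝ) = s := by
      intro t ht
      obtain ⟨p, hp, rfl⟩ := mem_image.1 ht
      rw [← h2 p hp]
      simp only [hg, sides, Multiset.insert_eq_cons]
      rw [← Multiset.singleton_add, ← Multiset.singleton_add, ← Multiset.singleton_add,
        ← Multiset.singleton_add]
      abel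
    have hperm : ∀ t ∈ S.image g, (t = (x, y, z)) ∨ (t = (x, z, y)) ∨ (t = (y, x, z)) ∨
        (t = (y, z, x)) ∨ (t = (z, x, y)) ∨ (t = (z, y, x)) := by
      intro t ht
      have := perm3 ((hs t ht).trans (hs _ hne).symm)
      simpa only [Prod.ext_iff] using this
    have hgr : ∀ t ∈ S.image g, r ^ 2 * r ^ 2 * dist q c ^ 2 + 2 *
        ((dist q c ^ 2 + r ^ 2 - t.1 ^ 2) / 2) * ((dist q c ^ 2 + r ^ 2 - t.2.1 ^ 2) / 2) *
          (r ^ 2 - t.2.2 ^ 2 / 2)
        - r ^ 2 * ((dist q c ^ 2 + r ^ 2 - t.2.1 ^ 2) / 2) ^ 2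
        - r ^ 2 * ((dist q c ^ 2 + r ^ 2 - t.1 ^ 2) / 2) ^ 2
        - dist q c ^ 2 * (r ^ 2 - t.2.2 ^ 2 / 2) ^ 2 = 0 ∧ 0 ≤ t.1 ∧ 0 ≤ t.2.1 ∧ 0 ≤ t.2.2 := by
      intro t ht
      obtain ⟨p, hp, rfl⟩ := mem_image.1 ht
      exact ⟨gram' (h1 p hp).1 (h1 p hp).2 rfl rfl rfl rfl, dist_nonneg, dist_nonneg, dist_nonneg⟩
    have hxyz := hgr _ hne
    simp only at hxyz
    obtain ⟨E1, hx, hy, hz⟩ := hxyz
    have sub3 : ∀ a b d : ℝ × ℝ × ℝ, (∀ t ∈ S.image g, t = a ∨ t = b ∨ t = d) →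
        (S.image g).card ≤ 4 := by
      intro a b d h
      have : S.image g ⊆ {a, b, d} := by
        intro t ht
        simpa using h t ht
      exact (card_le_card this).trans (card_le_three.trans (by norm_num))
    have sub4 : ∀ a b d e : ℝ × ℝ × ℝ, (∀ t ∈ S.image g, t = a ∨ t = b ∨ t = d ∨ t = e) →
        (S.image g).card ≤ 4 := by
      intro a b d e h
      have : S.image g ⊆ {a, b, d, e} := by
        intro t ht
        simpa using h t ht
      exact (card_le_card this).trans card_le_four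
    by_cases hxy : x = y
    · subst hxy
      refine sub3 (x, x, z) (x, z, x) (z, x, x) fun t ht => ?_
      rcases hperm t ht with h | h | h | h | h | h <;> simp [h]
    by_cases hxz : x = z
    · subst hxz
      refine sub3 (x, y, x) (y, x, x) (x, x, y) fun t ht => ?_
      rcases hperm t ht with h | h | h | h | h | h <;> simp [h]
    by_cases hyz : y = z
    · subst hyz
      refine sub3 (x, y, y) (y, x, y) (y, y, x) fun t ht => ?_
      rcases hperm t ht with h | h | h | h | h | h <;> simp [h]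
    by_cases hA : (x, z, y) ∈ S.image g ∨ (z, x, y) ∈ S.image g
    · by_cases hB : (y, z, x) ∈ S.image g ∨ (z, y, x) ∈ S.image g
      · exfalso
        refine no3 (R := r ^ 2) (D := dist q c ^ 2) (X := x ^ 2) (Y := y ^ 2) (Z := z ^ 2)
          (fun h => hqr ((pow_left_inj₀ dist_nonneg hr.le two_ne_zero).1 h.symm))
          (fun h => hxy ((pow_left_inj₀ hx hy two_ne_zero).1 h))
          (fun h => hxz ((pow_left_inj₀ hx hz two_ne_zero).1 h))
          (fun h => hyz ((pow_left_inj₀ hy hz two_ne_zero).1 h)) (by linarith) ?_ ?_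
        · rcases hA with h | h
          · have := (hgr _ h).1
            simp only at this
            linarith
          · have := (hgr _ h).1
            simp only at this
            linarith
        · rcases hB with h | h
          · have := (hgr _ h).1
            simp only at this
            linarith
          · have := (hgr _ h).1
            simp only at this
            linarith
      · push Not at hB
        refine sub4 (x, y, z) (y, x, z) (x, z, y) (z, x, y) fun t ht => ?_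
        rcases hperm t ht with h | h | h | h | h | h
        · simp [h]
        · simp [h]
        · simp [h]
        · exact absurd (h ▸ ht) hB.1
        · simp [h]
        · exact absurd (h ▸ ht) hB.2
    · push Not at hA
      refine sub4 (x, y, z) (y, x, z) (y, z, x) (z, y, x) fun t ht => ?_
      rcases hperm t ht with h | h | h | h | h | h
      · simp [h]
      · exact absurd (h ▸ ht) hA.1
      · simp [h]
      · simp [h]
      · exact absurd (h ▸ ht) hA.2
      · simp [h]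
  omega


lemma exc {c q a b : EuclideanSpace ℝ (Fin 2)} {r : ℝ} (ha : dist a c = r)
    (hb : dist b c = r) {D X Y Z : ℝ} (hD : D = dist q c ^ 2) (hX : X = dist q a ^ 2)
    (hY : Y = dist q b ^ 2) (hZ : Z = dist a b ^ 2) (hk : r ^ 2 ≠ D) (hYZ : Y ≠ Z)
    (hr : 0 < r)
    (E2 : r ^ 2 * r ^ 2 * D + 2 * ((D + r ^ 2 - X) / 2) * ((D + r ^ 2 - Z) / 2) * (r ^ 2 - Y / 2)
      - r ^ 2 * ((D + r ^ 2 - Z) / 2) ^ 2 - r ^ 2 * ((D + r ^ 2 - X) / 2) ^ 2
      - D * (r ^ 2 - Y / 2) ^ 2 = 0) :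
    dist b (q + a - c) = r := by
  have E1 := gram' ha hb hD hX hY hZ
  have f1 : (Y - Z) * ((r ^ 2 - D) * (Y + Z - X + D - r ^ 2)) = 0 := by
    linear_combination (-4) * E1 + 4 * E2
  have g1 := (mul_eq_zero.1 ((mul_eq_zero.1 f1).resolve_left (sub_ne_zero.2 hYZ))).resolve_left
    (sub_ne_zero.2 hk)
  have hA := ip_self ha
  have hB := ip_self hb
  have hQ : ip c q q = D := by rw [hD, ip_self rfl]
  have x2 := dist_ip c q a
  have y2 := dist_ip c q b
  have z2 := dist_ip c a b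
  have h1 : dist b (q + a - c) ^ 2 = ip c b b + ip c q q + ip c a a + 2 * ip c q a
      - 2 * ip c q b - 2 * ip c a b := by
    rw [dist_sq]
    simp only [PiLp.add_apply, PiLp.sub_apply]
    unfold ip
    ring
  have h2 : dist b (q + a - c) ^ 2 = r ^ 2 := by
    rw [h1]
    linarith
  exact (pow_left_inj₀ dist_nonneg hr.le two_ne_zero).1 h2

/-- at most four ordered pairs of points of the circle form with `q` a triangle of a given
congruence class, pairs with a certain algebraic relation being excluded -/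
lemma fib4 {c q : EuclideanSpace ℝ (Fin 2)} {r : ℝ} (hq : q ≠ c) (hqr : dist q c ≠ r) (hr : 0 < r)
    (s : Multiset ℝ) (S : Finset (EuclideanSpace ℝ (Fin 2) × EuclideanSpace ℝ (Fin 2)))
    (h1 : ∀ p ∈ S, dist p.1 c = r ∧ dist p.2 c = r)
    (h2 : ∀ p ∈ S, sides q p.1 p.2 = s)
    (h3 : ∀ p ∈ S, dist p.2 (q + p.1 - c) ≠ r ∧ dist p.1 (q + p.2 - c) ≠ r) : S.card ≤ 4 := by
  classical
  set g : EuclideanSpace ℝ (Fin 2) × EuclideanSpace ℝ (Fin 2) → ℝ × ℝ × ℝ :=
    fun p => (dist q p.1, dist q p.2, dist p.1 p.2) with hg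
  have hcard : S.card ≤ 2 * (S.image g).card := by
    refine card_le_mul_card_image _ _ fun t ht => ?_
    refine fib2 (r := r) hq (x := t.1) (y := t.2.1) (z := t.2.2) _ ?_ ?_
    · intro p hp
      exact h1 p (mem_filter.1 hp).1
    · intro p hp
      have := (mem_filter.1 hp).2
      rw [← this]
      exact ⟨rfl, rfl, rfl⟩
  have h4 : (S.image g).card ≤ 2 := by
    rcases (S.image g).eq_empty_or_nonempty with h0 | ⟨⟨x, y, z⟩, hne⟩
    · rw [h0]; simp
    have hs : ∀ t ∈ S.image g, ({t.1, t.2.1, t.2.2} : Multiset ℝ) = s := by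
      intro t ht
      obtain ⟨p, hp, rfl⟩ := mem_image.1 ht
      rw [← h2 p hp]
      simp only [hg, sides, Multiset.insert_eq_cons]
      rw [← Multiset.singleton_add, ← Multiset.singleton_add, ← Multiset.singleton_add,
        ← Multiset.singleton_add]
      abel
    have hperm : ∀ t ∈ S.image g, (t = (x, y, z)) ∨ (t = (x, z, y)) ∨ (t = (y, x, z)) ∨
        (t = (y, z, x)) ∨ (t = (z, x, y)) ∨ (t = (z, y, x)) := by
      intro t ht
      have := perm3 ((hs t ht).trans (hs _ hne).symm)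
      simpa only [Prod.ext_iff] using this
    have hgr : ∀ t ∈ S.image g, r ^ 2 * r ^ 2 * dist q c ^ 2 + 2 *
        ((dist q c ^ 2 + r ^ 2 - t.1 ^ 2) / 2) * ((dist q c ^ 2 + r ^ 2 - t.2.1 ^ 2) / 2) *
          (r ^ 2 - t.2.2 ^ 2 / 2)
        - r ^ 2 * ((dist q c ^ 2 + r ^ 2 - t.2.1 ^ 2) / 2) ^ 2
        - r ^ 2 * ((dist q c ^ 2 + r ^ 2 - t.1 ^ 2) / 2) ^ 2
        - dist q c ^ 2 * (r ^ 2 - t.2.2 ^ 2 / 2) ^ 2 = 0 := by
      intro t ht
      obtain ⟨p, hp, rfl⟩ := mem_image.1 ht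
      exact gram' (h1 p hp).1 (h1 p hp).2 rfl rfl rfl rfl
    obtain ⟨p, hp, hpt⟩ := mem_image.1 hne
    have hx : x = dist q p.1 := (congrArg Prod.fst hpt).symm
    have hy : y = dist q p.2 := (congrArg (fun t => t.2.1) hpt).symm
    have hz : z = dist p.1 p.2 := (congrArg (fun t => t.2.2) hpt).symm
    have hrD : r ^ 2 ≠ dist q c ^ 2 := fun h =>
      hqr ((pow_left_inj₀ dist_nonneg hr.le two_ne_zero).1 h.symm)
    have hyz : ((x, z, y) ∈ S.image g ∨ (z, x, y) ∈ S.image g) → y = z := by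
      intro h
      by_contra hne'
      refine (h3 p hp).1 (exc (h1 p hp).1 (h1 p hp).2 (q := q) (D := dist q c ^ 2) (X := x ^ 2)
        (Y := y ^ 2) (Z := z ^ 2) rfl (by rw [hx]) (by rw [hy]) (by rw [hz]) hrD ?_ hr ?_)
      · intro e
        exact hne' ((pow_left_inj₀ (hy ▸ dist_nonneg) (hz ▸ dist_nonneg) two_ne_zero).1 e)
      · rcases h with h | h
        · have := hgr _ h
          simp only at this
          linarith
        · have := hgr _ h
          simp only at this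
          linarith
    have hxz : ((y, z, x) ∈ S.image g ∨ (z, y, x) ∈ S.image g) → x = z := by
      intro h
      by_contra hne'
      refine (h3 p hp).2 (exc (h1 p hp).2 (h1 p hp).1 (q := q) (D := dist q c ^ 2) (X := y ^ 2)
        (Y := x ^ 2) (Z := z ^ 2) rfl (by rw [hy]) (by rw [hx]) (by rw [hz, dist_comm]) hrD ?_ hr ?_)
      · intro e
        exact hne' ((pow_left_inj₀ (hx ▸ dist_nonneg) (hz ▸ dist_nonneg) two_ne_zero).1 e)
      · rcases h with h | h
        · have := hgr _ h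
          simp only at this
          linarith
        · have := hgr _ h
          simp only at this
          linarith
    have hsub : S.image g ⊆ {(x, y, z), (y, x, z)} := by
      intro t ht
      rw [mem_insert, mem_singleton]
      rcases hperm t ht with h | h | h | h | h | h
      · exact Or.inl h
      · have e := hyz (Or.inl (h ▸ ht))
        left; rw [h, e]
      · exact Or.inr h
      · have e := hxz (Or.inl (h ▸ ht))
        right; rw [h, e]
      · have e := hyz (Or.inr (h ▸ ht))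
        right; rw [h, e]
      · have e := hxz (Or.inr (h ▸ ht))
        left; rw [h, e]
    exact (card_le_card hsub).trans card_le_two
  omega

/-- the congruence classes of triangles of `P` as a finite set -/
noncomputable def tri (P : Finset (EuclideanSpace ℝ (Fin 2))) : Finset (Multiset ℝ) := by
  classical
  exact ((P ×ˢ P ×ˢ P).filter
    (fun t => t.1 ≠ t.2.1 ∧ t.2.1 ≠ t.2.2 ∧ t.1 ≠ t.2.2)).image (fun t => sides t.1 t.2.1 t.2.2)

lemma mem_tri {P : Finset (EuclideanSpace ℝ (Fin 2))} {s : Multiset ℝ} : s ∈ tri P ↔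
    ∃ a ∈ P, ∃ b ∈ P, ∃ c ∈ P, a ≠ b ∧ b ≠ c ∧ a ≠ c ∧ s = sides a b c := by
  classical
  simp only [tri, mem_image, mem_filter, mem_product, Prod.exists]
  constructor
  · rintro ⟨a, b, c, ⟨⟨ha, hb, hc⟩, h1, h2, h3⟩, rfl⟩
    exact ⟨a, ha, b, hb, c, hc, h1, h2, h3, rfl⟩
  · rintro ⟨a, ha, b, hb, c, hc, h1, h2, h3, rfl⟩
    exact ⟨a, b, c, ⟨⟨ha, hb, hc⟩, h1, h2, h3⟩, rfl⟩

lemma T_eq (P : Finset (EuclideanSpace ℝ (Fin 2))) : T P = (tri P).card := by
  unfold T
  rw [← Set.ncard_coe_finset]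
  congr 1
  ext s
  rw [mem_coe, mem_tri]
  rfl

lemma T_pos {P : Finset (EuclideanSpace ℝ (Fin 2))} (h : 3 ≤ P.card) : 1 ≤ T P := by
  obtain ⟨a, b, c, ha, hb, hc, hab, hac, hbc⟩ := two_lt_card_iff.1 (show 2 < P.card by omega)
  rw [T_eq]
  exact card_pos.2 ⟨_, mem_tri.2 ⟨a, ha, b, hb, c, hc, hab, hbc, hac, rfl⟩⟩

lemma add_T {P Q : Finset (EuclideanSpace ℝ (Fin 2))} {q : EuclideanSpace ℝ (Fin 2)} (hQ : Q ⊆ P)
    (hqP : q ∈ P) (hqQ : q ∉ Q) (S : Finset (Multiset ℝ)) (hd : Disjoint (tri Q) S)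
    (hS : ∀ s ∈ S, ∃ a ∈ Q, ∃ b ∈ Q, a ≠ b ∧ s = sides q a b) :
    (tri Q).card + S.card ≤ T P := by
  classical
  rw [T_eq, ← card_union_of_disjoint hd]
  refine card_le_card (union_subset ?_ ?_)
  · intro s hs
    obtain ⟨a, ha, b, hb, c, hc, h⟩ := mem_tri.1 hs
    exact mem_tri.2 ⟨a, hQ ha, b, hQ hb, c, hQ hc, h⟩
  · intro s hs
    obtain ⟨a, ha, b, hb, hab, h⟩ := hS s hs
    exact mem_tri.2 ⟨q, hqP, a, hQ ha, b, hQ hb, fun e => hqQ (e ▸ ha), hab,
      fun e => hqQ (e ▸ hb), h⟩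

lemma good {c q : EuclideanSpace ℝ (Fin 2)} {r : ℝ} (hr : 0 < r) (hqr : dist q c ≠ r)
    (Q : Finset (EuclideanSpace ℝ (Fin 2))) (hQ : ∀ x ∈ Q, dist x c = r)
    {a b : EuclideanSpace ℝ (Fin 2)} (ha : a ∈ Q) (hb : b ∈ Q) (hab : a ≠ b)
    (h : dist b (c + q - a) ≠ r) : sides q a b ∉ tri Q := by
  intro hs
  obtain ⟨x, hx, y, hy, z, hz, _, _, _, he⟩ := mem_tri.1 hs
  have h1 := G_sides (q := q) (hQ a ha) (hQ b hb)
  have h2 := G_sides (q := x) (hQ y hy) (hQ z hz)
  rw [hQ x hx, sub_self, mul_zero, zero_mul, ← he, h1] at h2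
  have ne : ∀ t : ℝ, 0 ≤ t → t ≠ r → t ^ 2 - r ^ 2 ≠ 0 := fun t ht h e =>
    h ((pow_left_inj₀ ht hr.le two_ne_zero).1 (by linarith))
  exact mul_ne_zero (mul_ne_zero (pow_ne_zero 2 (dist_ne_zero.2 hab))
    (ne _ dist_nonneg hqr)) (ne _ dist_nonneg h) h2

lemma bad {c q a : EuclideanSpace ℝ (Fin 2)} {r : ℝ} (hqa : q ≠ a)
    (Q : Finset (EuclideanSpace ℝ (Fin 2))) (hQ : ∀ x ∈ Q, dist x c = r) :
    (Q.filter (fun b => dist b (c + q - a) = r)).card ≤ 2 := by
  refine two_pts (c := c) (c' := c + q - a) (r := r) (r' := r) ?_ _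
    (fun x hx => hQ x (mem_filter.1 hx).1) (fun x hx => (mem_filter.1 hx).2)
  intro h
  apply hqa
  have : c + (q - a) = c + 0 := by rw [add_zero, ← add_sub_assoc]; exact h.symm
  exact sub_eq_zero.1 (add_left_cancel this)

lemma outer {c q : EuclideanSpace ℝ (Fin 2)} {r : ℝ} (hr : 0 < r) (hq : q ≠ c)
    (hqr : dist q c ≠ r) (Q : Finset (EuclideanSpace ℝ (Fin 2))) (hQ : ∀ x ∈ Q, dist x c = r) :
    ∃ S : Finset (Multiset ℝ), Disjoint (tri Q) S ∧ Q.card ^ 2 ≤ 8 * S.card + 3 * Q.card ∧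
      ∀ s ∈ S, ∃ a ∈ Q, ∃ b ∈ Q, a ≠ b ∧ s = sides q a b := by
  classical
  set Gd := Q.offDiag.filter (fun p => ¬ dist p.2 (c + q - p.1) = r) with hGd
  set Bd := Q.offDiag.filter (fun p => dist p.2 (c + q - p.1) = r) with hBd
  have hB : Bd.card ≤ 2 * Q.card := by
    have hsub : Bd ⊆ Q.biUnion (fun a => (Q.filter (fun b => dist b (c + q - a) = r)).image
        (fun b => (a, b))) := by
      intro p hp
      rw [hBd, mem_filter, mem_offDiag] at hp
      rw [mem_biUnion]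
      refine ⟨p.1, hp.1.1, ?_⟩
      rw [mem_image]
      exact ⟨p.2, mem_filter.2 ⟨hp.1.2.1, hp.2⟩, rfl⟩
    calc Bd.card ≤ _ := card_le_card hsub
      _ ≤ ∑ a ∈ Q, ((Q.filter (fun b => dist b (c + q - a) = r)).image
        (fun b => (a, b))).card := card_biUnion_le
      _ ≤ ∑ a ∈ Q, 2 := sum_le_sum fun a ha => card_image_le.trans
        (bad (show q ≠ a from fun e => hqr (by rw [e]; exact hQ a ha)) Q hQ)
      _ = 2 * Q.card := by rw [sum_const, smul_eq_mul, mul_comm]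
  have hsum : Bd.card + Gd.card = Q.card * Q.card - Q.card := by
    rw [hBd, hGd, ← offDiag_card]
    exact card_filter_add_card_filter_not _
  refine ⟨Gd.image (fun p => sides q p.1 p.2), ?_, ?_, ?_⟩
  · rw [disjoint_right]
    intro s hs
    obtain ⟨p, hp, rfl⟩ := mem_image.1 hs
    rw [hGd, mem_filter, mem_offDiag] at hp
    exact good hr hqr Q hQ hp.1.1 hp.1.2.1 hp.1.2.2 hp.2
  · have h8 : Gd.card ≤ 8 * (Gd.image (fun p => sides q p.1 p.2)).card := by
      refine card_le_mul_card_image _ _ fun s hs => ?_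
      refine fib8 hq hqr hr s _ ?_ ?_
      · intro p hp
        have := (mem_filter.1 hp).1
        rw [hGd, mem_filter, mem_offDiag] at this
        exact ⟨hQ _ this.1.1, hQ _ this.1.2.1⟩
      · intro p hp
        exact (mem_filter.1 hp).2
    have h9 : Q.card * Q.card ≤ (Q.card * Q.card - Q.card) + Q.card := by omega
    rw [sq]
    omega
  · intro s hs
    obtain ⟨p, hp, rfl⟩ := mem_image.1 hs
    rw [hGd, mem_filter, mem_offDiag] at hp
    exact ⟨p.1, hp.1.1, p.2, hp.1.2.1, hp.1.2.2, rfl⟩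

lemma outer' {c q : EuclideanSpace ℝ (Fin 2)} {r : ℝ} (hr : 0 < r) (hq : q ≠ c)
    (hqr : dist q c ≠ r) (Q : Finset (EuclideanSpace ℝ (Fin 2))) (hQ : ∀ x ∈ Q, dist x c = r) :
    ∃ S : Finset (Multiset ℝ), Disjoint (tri Q) S ∧ Q.card ^ 2 ≤ 4 * S.card + 7 * Q.card ∧
      ∀ s ∈ S, ∃ a ∈ Q, ∃ b ∈ Q, a ≠ b ∧ s = sides q a b := by
  classical
  set bd : EuclideanSpace ℝ (Fin 2) × EuclideanSpace ℝ (Fin 2) → Prop := fun p =>
    dist p.2 (c + q - p.1) = r ∨ dist p.2 (q + p.1 - c) = r ∨ dist p.1 (q + p.2 - c) = r with hbd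
  set Gd := Q.offDiag.filter (fun p => ¬ bd p) with hGd
  set Bd := Q.offDiag.filter (fun p => bd p) with hBd
  have b1 : ∀ a ∈ Q, (Q.filter (fun b => dist b (c + q - a) = r)).card ≤ 2 := fun a ha =>
    bad (show q ≠ a from fun e => hqr (by rw [e]; exact hQ a ha)) Q hQ
  have b2 : ∀ a ∈ Q, (Q.filter (fun b => dist b (q + a - c) = r)).card ≤ 2 := by
    intro a ha
    refine two_pts (c := c) (c' := q + a - c) (r := r) (r' := r) ?_ _
      (fun x hx => hQ x (mem_filter.1 hx).1) (fun x hx => (mem_filter.1 hx).2)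
    intro h
    apply hqr
    have h5 : q - c = c - a := by
      rw [sub_eq_sub_iff_add_eq_add]
      exact (sub_eq_iff_eq_add.1 h.symm)
    rw [dist_eq_norm, h5, ← dist_eq_norm, dist_comm]
    exact hQ a ha
  have b3 : ∀ a ∈ Q, (Q.filter (fun b => dist a (q + b - c) = r)).card ≤ 2 := by
    intro a ha
    refine two_pts (c := c) (c' := c + a - q) (r := r) (r' := r) ?_ _
      (fun x hx => hQ x (mem_filter.1 hx).1) (fun x hx => ?_)
    · intro h
      apply hqr
      have h5 : a - q = 0 := by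
        have h6 : c + (a - q) = c + 0 := by rw [add_zero, ← add_sub_assoc]; exact h.symm
        exact add_left_cancel h6
      rw [← sub_eq_zero.1 h5]
      exact hQ a ha
    · have := (mem_filter.1 hx).2
      rw [← this, dist_eq_norm, dist_eq_norm, ← norm_neg]
      congr 1
      abel
  have hB : Bd.card ≤ 6 * Q.card := by
    have hsub : Bd ⊆ Q.biUnion (fun a => ((Q.filter (fun b => dist b (c + q - a) = r)) ∪
        ((Q.filter (fun b => dist b (q + a - c) = r)) ∪
        (Q.filter (fun b => dist a (q + b - c) = r)))).image (fun b => (a, b))) := by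
      intro p hp
      rw [hBd, mem_filter, mem_offDiag] at hp
      rw [mem_biUnion]
      refine ⟨p.1, hp.1.1, ?_⟩
      rw [mem_image]
      refine ⟨p.2, ?_, rfl⟩
      rw [mem_union, mem_union, mem_filter, mem_filter, mem_filter]
      rcases hp.2 with h | h | h
      · exact Or.inl ⟨hp.1.2.1, h⟩
      · exact Or.inr (Or.inl ⟨hp.1.2.1, h⟩)
      · exact Or.inr (Or.inr ⟨hp.1.2.1, h⟩)
    calc Bd.card ≤ _ := card_le_card hsub
      _ ≤ ∑ a ∈ Q, _ := card_biUnion_le
      _ ≤ ∑ a ∈ Q, 6 := sum_le_sum fun a ha => card_image_le.trans (by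
        refine (card_union_le _ _).trans ?_
        have := card_union_le (Q.filter (fun b => dist b (q + a - c) = r))
          (Q.filter (fun b => dist a (q + b - c) = r))
        have h1 := b1 a ha
        have h2 := b2 a ha
        have h3 := b3 a ha
        omega)
      _ = 6 * Q.card := by rw [sum_const, smul_eq_mul, mul_comm]
  have hsum : Bd.card + Gd.card = Q.card * Q.card - Q.card := by
    rw [hBd, hGd, ← offDiag_card]
    exact card_filter_add_card_filter_not _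
  refine ⟨Gd.image (fun p => sides q p.1 p.2), ?_, ?_, ?_⟩
  · rw [disjoint_right]
    intro s hs
    obtain ⟨p, hp, rfl⟩ := mem_image.1 hs
    rw [hGd, mem_filter, mem_offDiag] at hp
    exact good hr hqr Q hQ hp.1.1 hp.1.2.1 hp.1.2.2 (fun e => hp.2 (Or.inl e))
  · have h8 : Gd.card ≤ 4 * (Gd.image (fun p => sides q p.1 p.2)).card := by
      refine card_le_mul_card_image _ _ fun s hs => ?_
      refine fib4 hq hqr hr s _ ?_ ?_ ?_
      · intro p hp
        have := (mem_filter.1 hp).1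
        rw [hGd, mem_filter, mem_offDiag] at this
        exact ⟨hQ _ this.1.1, hQ _ this.1.2.1⟩
      · intro p hp
        exact (mem_filter.1 hp).2
      · intro p hp
        have := (mem_filter.1 hp).1
        rw [hGd, mem_filter, mem_offDiag] at this
        exact ⟨fun e => this.2 (Or.inr (Or.inl e)), fun e => this.2 (Or.inr (Or.inr e))⟩
    have h9 : Q.card * Q.card ≤ (Q.card * Q.card - Q.card) + Q.card := by omega
    rw [sq]
    omega
  · intro s hs
    obtain ⟨p, hp, rfl⟩ := mem_image.1 hs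
    rw [hGd, mem_filter, mem_offDiag] at hp
    exact ⟨p.1, hp.1.1, p.2, hp.1.2.1, hp.1.2.2, rfl⟩

lemma center {c : EuclideanSpace ℝ (Fin 2)} {r : ℝ} (hr : 0 < r)
    (Q : Finset (EuclideanSpace ℝ (Fin 2))) (hQ : ∀ x ∈ Q, dist x c = r) :
    ∃ S : Finset (Multiset ℝ), Disjoint (tri Q) S ∧ Q.card ≤ 2 * S.card + 3 ∧
      ∀ s ∈ S, ∃ a ∈ Q, ∃ b ∈ Q, a ≠ b ∧ s = sides c a b := by
  classical
  rcases Q.eq_empty_or_nonempty with h0 | ⟨a, ha⟩
  · exact ⟨∅, disjoint_empty_right _, by rw [h0]; simp, by simp⟩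
  have hcc : dist c c ≠ r := by rw [dist_self]; exact hr.ne
  have hca : c ≠ a := fun e => hcc (by rw [← hQ a ha, ← e])
  set W := (Q.erase a).filter (fun b => ¬ dist b (c + c - a) = r) with hW
  have hsum : ((Q.erase a).filter (fun b => dist b (c + c - a) = r)).card + W.card =
      Q.card - 1 := by
    rw [hW, ← card_erase_of_mem ha]
    exact card_filter_add_card_filter_not _
  have hB : ((Q.erase a).filter (fun b => dist b (c + c - a) = r)).card ≤ 2 :=
    bad hca (Q.erase a) (fun x hx => hQ x (mem_of_mem_erase hx))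
  refine ⟨W.image (fun b => sides c a b), ?_, ?_, ?_⟩
  · rw [disjoint_right]
    intro s hs
    obtain ⟨b, hb, rfl⟩ := mem_image.1 hs
    rw [hW, mem_filter, mem_erase] at hb
    exact good hr hcc Q hQ ha hb.1.2 hb.1.1.symm hb.2
  · have h2 : W.card ≤ 2 * (W.image (fun b => sides c a b)).card := by
      refine card_le_mul_card_image _ _ fun s hs => ?_
      have hd : ∀ x ∈ W.filter (fun b => sides c a b = s), dist x a = s.sum - 2 * r := by
        intro x hx
        rw [mem_filter] at hx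
        have hxQ : x ∈ Q := by
          have := hx.1
          rw [hW, mem_filter, mem_erase] at this
          exact this.1.2
        rw [← hx.2]
        simp only [sides, Multiset.insert_eq_cons, Multiset.sum_cons, Multiset.sum_singleton]
        rw [dist_comm c a, hQ a ha, dist_comm c x, hQ x hxQ, dist_comm x a]
        ring
      refine two_pts (r := r) hca _ (fun x hx => ?_) hd
      rw [mem_filter] at hx
      have := hx.1
      rw [hW, mem_filter, mem_erase] at this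
      exact hQ x this.1.2
    have hpos : 1 ≤ Q.card := card_pos.2 ⟨a, ha⟩
    omega
  · intro s hs
    obtain ⟨b, hb, rfl⟩ := mem_image.1 hs
    rw [hW, mem_filter, mem_erase] at hb
    exact ⟨a, ha, b, hb.1.2, hb.1.1.symm, rfl⟩

lemma sq_mod (m : ℕ) : m ^ 2 % 12 = 0 ∨ m ^ 2 % 12 = 1 ∨ m ^ 2 % 12 = 4 ∨ m ^ 2 % 12 = 9 := by
  rw [Nat.pow_mod]
  have : m % 12 < 12 := Nat.mod_lt _ (by norm_num)
  interval_cases m % 12 <;> simp

lemma arith1 {m n S : ℕ} (h8 : m ^ 2 ≤ 8 * S + 3 * m) (h : 2 * n ^ 2 + 9 * m ≤ 5 * m ^ 2 + 9) :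
    (n ^ 2 + 6) / 12 ≤ (m ^ 2 + 6) / 12 + S := by
  have h1 := sq_mod m
  have h2 := sq_mod n
  omega

lemma arith1' {m n S : ℕ} (h8 : m ^ 2 ≤ 4 * S + 7 * m) (h : n ^ 2 + 21 * m ≤ 4 * m ^ 2 + 4) :
    (n ^ 2 + 6) / 12 ≤ (m ^ 2 + 6) / 12 + S := by
  have h1 := sq_mod m
  have h2 := sq_mod n
  omega

lemma arith2 {m S : ℕ} (hm : 3 ≤ m) (h8 : m ^ 2 ≤ 8 * S + 3 * m) :
    ((m + 1) ^ 2 + 6) / 12 ≤ (m ^ 2 + 6) / 12 + S := by
  rcases Nat.lt_or_ge m 4 with h | h
  · interval_cases m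
    omega
  · exact arith1 h8 (by nlinarith)

lemma arith3 {m S : ℕ} (hm : 3 ≤ m) (h : m ≤ 2 * S + 3) :
    ((m + 1) ^ 2 + 6) / 12 ≤ (m ^ 2 + 6) / 12 + S := by
  have h1 := sq_mod m
  have h2 := sq_mod (m + 1)
  have h3 : (m + 1) ^ 2 = m ^ 2 + 2 * m + 1 := by ring
  rcases Nat.lt_or_ge m 4 with h4 | h4
  · interval_cases m
    omega
  · rw [h3] at *
    omega

/-- If all points of a finite plane set `P` but at most one lie on a circle, or if a circle contains
`m` points of `P` with `|P| ^ 2 + 21 m ≤ 4 m ^ 2 + 4` (which holds if `m ≥ |P| / 2 + 21 / 8`) or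
`2 |P| ^ 2 + 9 m ≤ 5 m ^ 2 + 9`, then `P` determines at least `[|P| ^ 2 / 12]` distinct
triangles. -/
theorem conc (P : Finset (EuclideanSpace ℝ (Fin 2))) (c : EuclideanSpace ℝ (Fin 2)) (r : ℝ)
    (m : ℕ) (hm : m = {x | x ∈ P ∧ dist x c = r}.ncard)
    (h : P.card ≤ m + 1 ∨ P.card ^ 2 + 21 * m ≤ 4 * m ^ 2 + 4 ∨
      2 * P.card ^ 2 + 9 * m ≤ 5 * m ^ 2 + 9) :
    (P.card ^ 2 + 6) / 12 ≤ T P := by
  classical
  set Q := P.filter (fun x => dist x c = r) with hQdef
  have hmQ : m = Q.card := by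
    rw [hm, ← Set.ncard_coe_finset]
    congr 1
    ext x
    simp [hQdef]
  have hQP : Q ⊆ P := filter_subset _ _
  have hQ : ∀ x ∈ Q, dist x c = r := fun x hx => (mem_filter.1 hx).2
  have hle : Q.card ≤ P.card := card_le_card hQP
  have small : P.card ≤ 2 → (P.card ^ 2 + 6) / 12 ≤ T P := by
    intro h2
    interval_cases P.card <;> simp
  rcases le_or_gt r 0 with hr | hr
  · have h1 : Q.card ≤ 1 := by
      refine card_le_one.2 fun x hx y hy => ?_
      have hx' : dist x c = 0 := le_antisymm ((hQ x hx).le.trans hr) dist_nonneg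
      have hy' : dist y c = 0 := le_antisymm ((hQ y hy).le.trans hr) dist_nonneg
      rw [dist_eq_zero.1 hx', dist_eq_zero.1 hy']
    apply small
    rw [← hmQ] at h1
    rcases h with h | h | h
    · omega
    · interval_cases m <;> nlinarith
    · interval_cases m <;> nlinarith
  have hcirc : (Q.card ^ 2 + 6) / 12 ≤ (tri Q).card :=
    circ Q c r hr hQ (tri Q) fun x hx y hy z hz h1 h2 h3 =>
      mem_tri.2 ⟨x, hx, y, hy, z, hz, h1, h2, h3, rfl⟩
  rcases Nat.eq_or_lt_of_le hle with he | hlt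
  · rw [T_eq, ← eq_of_subset_of_card_le hQP he.ge]
    exact hcirc
  have hsd : (P \ Q).card = P.card - Q.card := card_sdiff_of_subset hQP
  rcases Nat.lt_or_ge P.card 3 with h3 | h3
  · exact small (by omega)
  rcases Nat.eq_or_lt_of_le h3 with h3' | h3'
  · rw [← h3']
    exact (show (3 ^ 2 + 6) / 12 ≤ 1 by norm_num).trans (T_pos h3)
  have hout : ∀ q ∈ P \ Q, dist q c ≠ r := fun q hq e =>
    (mem_sdiff.1 hq).2 (mem_filter.2 ⟨(mem_sdiff.1 hq).1, e⟩)
  rw [hmQ] at h
  by_cases hex : ∃ q ∈ P \ Q, q ≠ c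
  · obtain ⟨q, hq, hqc⟩ := hex
    obtain ⟨S, hd, h8, hS⟩ := outer hr hqc (hout q hq) Q hQ
    have hT := add_T hQP (mem_sdiff.1 hq).1 (mem_sdiff.1 hq).2 S hd hS
    obtain ⟨S', hd', h8', hS'⟩ := outer' hr hqc (hout q hq) Q hQ
    have hT' := add_T hQP (mem_sdiff.1 hq).1 (mem_sdiff.1 hq).2 S' hd' hS'
    rcases h with h | h | h
    · have key : (P.card ^ 2 + 6) / 12 ≤ (Q.card ^ 2 + 6) / 12 + S.card := by
        rw [show P.card = Q.card + 1 by omega]
        exact arith2 (by omega) h8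
      omega
    · have key := arith1' h8' h
      omega
    · have key := arith1 h8 h
      omega
  · push Not at hex
    have h1 : (P \ Q).card ≤ 1 := card_le_one.2 fun x hx y hy => by rw [hex x hx, hex y hy]
    obtain ⟨q, hq⟩ : (P \ Q).Nonempty := card_pos.1 (by omega)
    have hqc := hex q hq
    subst hqc
    obtain ⟨S, hd, h8, hS⟩ := center hr Q hQ
    have hT := add_T hQP (mem_sdiff.1 hq).1 (mem_sdiff.1 hq).2 S hd hS
    have key : (P.card ^ 2 + 6) / 12 ≤ (Q.card ^ 2 + 6) / 12 + S.card := by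
      rw [show P.card = Q.card + 1 by omega]
      exact arith3 (by omega) h8
    omega

lemma ident (z zb i p s w e f g : ℂ) (hi : i ^ 2 = -1) :
    ((p - w) / 4 - i * s / 4) * z ^ 4 + (e / 2 - i * f / 2) * z ^ 3 +
      ((p + w) * (z * zb) / 2 + g) * z ^ 2 + (e / 2 + i * f / 2) * (z * zb) * z +
      ((p - w) / 4 + i * s / 4) * (z * zb) ^ 2 =
    z ^ 2 * (p * ((z + zb) / 2) ^ 2 + s * ((z + zb) / 2) * (-i * (z - zb) / 2) +
      w * (-i * (z - zb) / 2) ^ 2 + e * ((z + zb) / 2) + f * (-i * (z - zb) / 2) + g) := by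
  linear_combination (-(w * z ^ 2 * (z - zb) ^ 2 / 4)) * hi

lemma quad4 {c : EuclideanSpace ℝ (Fin 2)} {r : ℝ} (hr : 0 < r)
    (S : Finset (EuclideanSpace ℝ (Fin 2))) (hS : ∀ b ∈ S, dist b c = r) (p s w e f g : ℝ)
    (h : ∀ b ∈ S, p * (b 0 - c 0) ^ 2 + s * (b 0 - c 0) * (b 1 - c 1) + w * (b 1 - c 1) ^ 2 +
      e * (b 0 - c 0) + f * (b 1 - c 1) + g = 0)
    (a : EuclideanSpace ℝ (Fin 2)) (ha : dist a c = r)
    (hne : p * (a 0 - c 0) ^ 2 + s * (a 0 - c 0) * (a 1 - c 1) + w * (a 1 - c 1) ^ 2 +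
      e * (a 0 - c 0) + f * (a 1 - c 1) + g ≠ 0) : S.card ≤ 4 := by
  classical
  set ζ : EuclideanSpace ℝ (Fin 2) → ℂ := fun b =>
    ((b 0 - c 0 : ℝ) : ℂ) + ((b 1 - c 1 : ℝ) : ℂ) * Complex.I with hζ
  set Po : Polynomial ℂ :=
    Polynomial.C (((p : ℂ) - w) / 4 - Complex.I * s / 4) * Polynomial.X ^ 4 +
    Polynomial.C ((e : ℂ) / 2 - Complex.I * f / 2) * Polynomial.X ^ 3 +
    Polynomial.C (((p : ℂ) + w) * ((r ^ 2 : ℝ) : ℂ) / 2 + g) * Polynomial.X ^ 2 +
    Polynomial.C (((e : ℂ) / 2 + Complex.I * f / 2) * ((r ^ 2 : ℝ) : ℂ)) * Polynomial.X +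
    Polynomial.C ((((p : ℂ) - w) / 4 + Complex.I * s / 4) * ((r ^ 2 : ℝ) : ℂ) ^ 2) with hPo
  have hev : ∀ b : EuclideanSpace ℝ (Fin 2), dist b c = r → Po.eval (ζ b) = ζ b ^ 2 *
      ((p * (b 0 - c 0) ^ 2 + s * (b 0 - c 0) * (b 1 - c 1) + w * (b 1 - c 1) ^ 2 +
      e * (b 0 - c 0) + f * (b 1 - c 1) + g : ℝ) : ℂ) := by
    intro b hb
    have hR : r ^ 2 = (b 0 - c 0) ^ 2 + (b 1 - c 1) ^ 2 := by rw [← hb, dist_sq]
    obtain ⟨u, hu⟩ : ∃ u : ℝ, u = b 0 - c 0 := ⟨_, rfl⟩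
    obtain ⟨v, hv⟩ : ∃ v : ℝ, v = b 1 - c 1 := ⟨_, rfl⟩
    rw [← hu, ← hv] at hR
    have hI : Complex.I ^ 2 = -1 := Complex.I_sq
    have hid := ident ((u : ℂ) + v * Complex.I) ((u : ℂ) - v * Complex.I) Complex.I p s w e f g hI
    have hzz : ((u : ℂ) + v * Complex.I) * ((u : ℂ) - v * Complex.I) = ((r ^ 2 : ℝ) : ℂ) := by
      rw [hR]
      push_cast
      linear_combination (-(v : ℂ) ^ 2) * hI
    have h1 : ((u : ℂ) + v * Complex.I + ((u : ℂ) - v * Complex.I)) / 2 = u := by ring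
    have h2 : -Complex.I * ((u : ℂ) + v * Complex.I - ((u : ℂ) - v * Complex.I)) / 2 = v := by
      linear_combination (-(v : ℂ)) * hI
    rw [hzz, h1, h2] at hid
    simp only [hPo, hζ, Polynomial.eval_add, Polynomial.eval_mul, Polynomial.eval_C,
      Polynomial.eval_pow, Polynomial.eval_X]
    rw [← hu, ← hv, hid]
    push_cast
    ring
  have hinj : Set.InjOn ζ S := by
    intro x hx y hy hxy
    have h1 := congrArg Complex.re hxy
    have h2 := congrArg Complex.im hxy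
    simp only [hζ, Complex.add_re, Complex.add_im, Complex.mul_re, Complex.mul_im,
      Complex.ofReal_re, Complex.ofReal_im, Complex.I_re, Complex.I_im] at h1 h2
    ext i
    fin_cases i
    · simp only [Fin.zero_eta]; linarith
    · simp only [Fin.mk_one]; linarith
  have hza : ζ a ≠ 0 := by
    intro h0
    have h1 := congrArg Complex.re h0
    have h2 := congrArg Complex.im h0
    simp only [hζ, Complex.add_re, Complex.add_im, Complex.mul_re, Complex.mul_im,
      Complex.ofReal_re, Complex.ofReal_im, Complex.I_re, Complex.I_im, Complex.zero_re,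
      Complex.zero_im] at h1 h2
    have h3 : dist a c ^ 2 = 0 := by
      rw [dist_sq, show a 0 - c 0 = 0 by linarith, show a 1 - c 1 = 0 by linarith]
      norm_num
    rw [ha] at h3
    exact (pow_ne_zero 2 hr.ne') h3
  have hP0 : Po ≠ 0 := by
    intro h0
    have h1 := hev a ha
    rw [h0, Polynomial.eval_zero] at h1
    rcases mul_eq_zero.1 h1.symm with h2 | h2
    · exact hza (pow_eq_zero_iff (two_ne_zero) |>.1 h2)
    · exact hne (Complex.ofReal_eq_zero.1 h2)
  have hdeg : Po.natDegree ≤ 4 := by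
    rw [hPo]
    compute_degree
  have hsub : S.image ζ ⊆ Po.roots.toFinset := by
    intro z hz
    obtain ⟨b, hb, rfl⟩ := mem_image.1 hz
    rw [Multiset.mem_toFinset, Polynomial.mem_roots hP0, Polynomial.IsRoot.def, hev b (hS b hb),
      h b hb]
    simp
  calc S.card = (S.image ζ).card := (card_image_of_injOn hinj).symm
    _ ≤ Po.roots.toFinset.card := card_le_card hsub
    _ ≤ Multiset.card Po.roots := Multiset.toFinset_card_le _
    _ ≤ Po.natDegree := Polynomial.card_roots' _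
    _ ≤ 4 := hdeg

lemma conic4 {c a q : EuclideanSpace ℝ (Fin 2)} {r : ℝ} (hr : 0 < r) (ha : dist a c = r)
    (S : Finset (EuclideanSpace ℝ (Fin 2))) (hS : ∀ b ∈ S, dist b c = r)
    (A1 A2 A3 A4 A5 A6 : ℝ)
    (h : ∀ b ∈ S, A1 * (dist q b ^ 2) ^ 2 + A2 * dist q b ^ 2 * dist a b ^ 2 +
      A3 * (dist a b ^ 2) ^ 2 + A4 * dist q b ^ 2 + A5 * dist a b ^ 2 + A6 = 0)
    (b₀ : EuclideanSpace ℝ (Fin 2)) (hb : dist b₀ c = r)
    (hne : A1 * (dist q b₀ ^ 2) ^ 2 + A2 * dist q b₀ ^ 2 * dist a b₀ ^ 2 +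
      A3 * (dist a b₀ ^ 2) ^ 2 + A4 * dist q b₀ ^ 2 + A5 * dist a b₀ ^ 2 + A6 ≠ 0) :
    S.card ≤ 4 := by
  have key : ∀ b : EuclideanSpace ℝ (Fin 2), dist b c = r →
      dist q b ^ 2 = (ip c q q + r ^ 2) + (-2 * (q 0 - c 0)) * (b 0 - c 0) +
        (-2 * (q 1 - c 1)) * (b 1 - c 1) ∧
      dist a b ^ 2 = 2 * r ^ 2 + (-2 * (a 0 - c 0)) * (b 0 - c 0) +
        (-2 * (a 1 - c 1)) * (b 1 - c 1) := by
    intro b hb
    have hB := ip_self hb
    have hA := ip_self ha
    constructor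
    · rw [dist_ip c q b, hB]
      unfold ip
      ring
    · rw [dist_ip c a b, hB, hA]
      unfold ip
      ring
  set y0 := ip c q q + r ^ 2 with hy0
  set y1 := -2 * (q 0 - c 0) with hy1
  set y2 := -2 * (q 1 - c 1) with hy2
  set z0 := 2 * r ^ 2 with hz0
  set z1 := -2 * (a 0 - c 0) with hz1
  set z2 := -2 * (a 1 - c 1) with hz2
  refine quad4 hr S hS (A1 * y1 ^ 2 + A2 * y1 * z1 + A3 * z1 ^ 2)
    (2 * A1 * y1 * y2 + A2 * (y1 * z2 + y2 * z1) + 2 * A3 * z1 * z2)
    (A1 * y2 ^ 2 + A2 * y2 * z2 + A3 * z2 ^ 2)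
    (2 * A1 * y0 * y1 + A2 * (y0 * z1 + y1 * z0) + 2 * A3 * z0 * z1 + A4 * y1 + A5 * z1)
    (2 * A1 * y0 * y2 + A2 * (y0 * z2 + y2 * z0) + 2 * A3 * z0 * z2 + A4 * y2 + A5 * z2)
    (A1 * y0 ^ 2 + A2 * y0 * z0 + A3 * z0 ^ 2 + A4 * y0 + A5 * z0 + A6) ?_ b₀ hb ?_
  · intro b hb'
    obtain ⟨k1, k2⟩ := key b (hS b hb')
    have := h b hb'
    rw [k1, k2] at this
    linear_combination this
  · obtain ⟨k1, k2⟩ := key b₀ hb
    rw [k1, k2] at hne
    intro h0
    apply hne
    linear_combination h0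

/-- the Gram determinant of `q, a, b` in terms of the squares `X`, `Y`, `Z` of `|qa|`, `|qb|`,
`|ab|`, of the square `R` of the radius of the circle through `a`, `b` and of the square `D` of the
distance of `q` from its centre -/
noncomputable def E (R D X Y Z : ℝ) : ℝ :=
  R * R * D + 2 * ((D + R - X) / 2) * ((D + R - Y) / 2) * (R - Z / 2)
    - R * ((D + R - Y) / 2) ^ 2 - R * ((D + R - X) / 2) ^ 2 - D * (R - Z / 2) ^ 2

lemma E_zero {c q a b : EuclideanSpace ℝ (Fin 2)} {ρ : ℝ} (ha : dist a c = ρ)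
    (hb : dist b c = ρ) :
    E (ρ ^ 2) (dist q c ^ 2) (dist q a ^ 2) (dist q b ^ 2) (dist a b ^ 2) = 0 :=
  gram' ha hb rfl rfl rfl rfl

lemma E_symm (R D X Y Z : ℝ) : E R D X Y Z = E R D Y X Z := by unfold E; ring

lemma cnt2 {c q a : EuclideanSpace ℝ (Fin 2)} {ρ : ℝ} (hρ : 0 < ρ) (ha : dist a c = ρ)
    (hqa : q ≠ a) {R' D' : ℝ} (hne : R' ≠ D') (S : Finset (EuclideanSpace ℝ (Fin 2)))
    (hS : ∀ b ∈ S, dist b c = ρ)
    (h : ∀ b ∈ S, E R' D' (dist q a ^ 2) (dist a b ^ 2) (dist q b ^ 2) = 0) : S.card ≤ 4 := by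
  refine conic4 (q := q) hρ ha S hS (-D' / 4) ((D' + R' - dist q a ^ 2) / 4) (-R' / 4)
    (-((D' + R' - dist q a ^ 2) / 2) * ((D' + R') / 2) + D' * R')
    (-((D' + R' - dist q a ^ 2) / 2) * R' + R' * ((D' + R') / 2))
    (R' ^ 2 * D' + 2 * ((D' + R' - dist q a ^ 2) / 2) * ((D' + R') / 2) * R'
      - R' * ((D' + R') / 2) ^ 2 - R' * ((D' + R' - dist q a ^ 2) / 2) ^ 2 - D' * R' ^ 2)
    ?_ a ha ?_
  · intro b hb
    have := h b hb
    unfold E at this
    linear_combination this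
  · rw [dist_self]
    intro h0
    have h1 : dist q a ^ 2 * (D' - R') ^ 2 = 0 := by linear_combination (-4) * h0
    rcases mul_eq_zero.1 h1 with h2 | h2
    · exact pow_ne_zero 2 (dist_ne_zero.2 hqa) h2
    · exact pow_ne_zero 2 (sub_ne_zero.2 hne.symm) h2

lemma cnt1 {c q a b₀ : EuclideanSpace ℝ (Fin 2)} {ρ : ℝ} (hρ : 0 < ρ) (ha : dist a c = ρ)
    (hb₀ : dist b₀ c = ρ) {R' D' : ℝ} (S : Finset (EuclideanSpace ℝ (Fin 2)))
    (hS : ∀ b ∈ S, dist b c = ρ)
    (h : ∀ b ∈ S, E R' D' (dist q a ^ 2) (dist q b ^ 2) (dist a b ^ 2) = 0)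
    (hne : E R' D' (dist q a ^ 2) (dist q b₀ ^ 2) (dist a b₀ ^ 2) ≠ 0) : S.card ≤ 4 := by
  refine conic4 (q := q) hρ ha S hS (-R' / 4) ((D' + R' - dist q a ^ 2) / 4) (-D' / 4)
    (-((D' + R' - dist q a ^ 2) / 2) * R' + R' * ((D' + R') / 2))
    (-((D' + R' - dist q a ^ 2) / 2) * ((D' + R') / 2) + D' * R')
    (R' ^ 2 * D' + 2 * ((D' + R' - dist q a ^ 2) / 2) * ((D' + R') / 2) * R'
      - R' * ((D' + R') / 2) ^ 2 - R' * ((D' + R' - dist q a ^ 2) / 2) ^ 2 - D' * R' ^ 2)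
    ?_ b₀ hb₀ ?_
  · intro b hb
    have := h b hb
    unfold E at this
    linear_combination this
  · intro h0
    apply hne
    unfold E
    linear_combination h0

lemma anti {c q a : EuclideanSpace ℝ (Fin 2)} {ρ R' D' : ℝ} (ha : dist a c = ρ) :
    -4 * E R' D' (dist q a ^ 2) (dist q (c + c - a) ^ 2) (dist a (c + c - a) ^ 2) =
      16 * (R' - ρ ^ 2) * ip c a q ^ 2 + 4 * ρ ^ 2 * ((D' - R') ^ 2 - 2 * (D' + R') *
        (dist q c ^ 2 + ρ ^ 2) + (dist q c ^ 2 + ρ ^ 2) ^ 2) + 16 * D' * (ρ ^ 2) ^ 2 ∧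
      dist (c + c - a) c = ρ := by
  have hA := ip_self ha
  have hQ : ip c q q = dist q c ^ 2 := ip_self rfl
  have hc : ip c q a = ip c a q := by unfold ip; ring
  have e1 : dist q a ^ 2 = dist q c ^ 2 + ρ ^ 2 - 2 * ip c a q := by
    rw [dist_ip c q a, hQ, hA, hc]
  have e2 : dist q (c + c - a) ^ 2 = dist q c ^ 2 + ρ ^ 2 + 2 * ip c a q := by
    rw [dist_sq, ← hQ, ← hA]
    simp only [PiLp.add_apply, PiLp.sub_apply]
    unfold ip
    ring
  have e3 : dist a (c + c - a) ^ 2 = 4 * ρ ^ 2 := by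
    rw [dist_sq, ← hA]
    simp only [PiLp.add_apply, PiLp.sub_apply]
    unfold ip
    ring
  refine ⟨?_, ?_⟩
  · rw [e1, e2, e3]
    unfold E
    ring
  · rw [← ha, dist_eq_norm, dist_eq_norm, ← norm_neg]
    congr 1
    abel

lemma excep {c q : EuclideanSpace ℝ (Fin 2)} {ρ R' D' : ℝ} (hρ : 0 < ρ) (hq : q ≠ c)
    (hne : ρ ^ 2 ≠ R' ∨ dist q c ^ 2 ≠ D')
    (W : Finset (EuclideanSpace ℝ (Fin 2))) (hW : ∀ a ∈ W, dist a c = ρ)
    (h : ∀ a ∈ W, E R' D' (dist q a ^ 2) (dist q (c + c - a) ^ 2) (dist a (c + c - a) ^ 2) = 0) :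
    W.card ≤ 4 := by
  classical
  rcases W.eq_empty_or_nonempty with h0 | ⟨a, ha⟩
  · rw [h0]; simp
  have ha1 := (anti (q := q) (R' := R') (D' := D') (hW a ha)).1
  rw [h a ha] at ha1
  by_cases hR : R' = ρ ^ 2
  · exfalso
    subst hR
    have h1 : ρ ^ 2 * (dist q c ^ 2 - D') ^ 2 = 0 := by linear_combination (-1 / 4) * ha1
    rcases mul_eq_zero.1 h1 with h2 | h2
    · exact pow_ne_zero 2 hρ.ne' h2
    · have := pow_eq_zero_iff (two_ne_zero) |>.1 h2
      rcases hne with hne | hne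
      · exact hne rfl
      · exact hne (by linarith)
  have himg : W.image (fun b => ip c b q) ⊆ {ip c a q, -ip c a q} := by
    intro t ht
    obtain ⟨b, hb, rfl⟩ := mem_image.1 ht
    have hb1 := (anti (q := q) (R' := R') (D' := D') (hW b hb)).1
    rw [h b hb] at hb1
    have h3 : (R' - ρ ^ 2) * (ip c b q ^ 2 - ip c a q ^ 2) = 0 := by
      linear_combination (1 / 16) * ha1 - (1 / 16) * hb1
    have h4 := (mul_eq_zero.1 h3).resolve_left (sub_ne_zero.2 hR)
    rw [mem_insert, mem_singleton]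
    exact sq_eq_sq_iff_eq_or_eq_neg.1 (by linarith)
  have h2 : W.card ≤ 2 * (W.image (fun b => ip c b q)).card := by
    refine card_le_mul_card_image _ _ fun t ht => ?_
    refine two_pts (c := c) (c' := q) (r := ρ) (r' := Real.sqrt (dist q c ^ 2 + ρ ^ 2 - 2 * t))
      hq.symm _ (fun x hx => hW x (mem_filter.1 hx).1) (fun x hx => ?_)
    have hx2 := (mem_filter.1 hx).2
    rw [← hx2]
    have hQ : ip c q q = dist q c ^ 2 := ip_self rfl
    have hsy : ip c x q = ip c q x := by unfold ip; ring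
    have : dist q c ^ 2 + ρ ^ 2 - 2 * ip c x q = dist x q ^ 2 := by
      rw [dist_comm x q, dist_ip c q x, hQ, ip_self (hW x (mem_filter.1 hx).1), hsy]
    rw [this, Real.sqrt_sq dist_nonneg]
  have h3 := (card_le_card himg).trans card_le_two
  omega

lemma overlap {c q q' : EuclideanSpace ℝ (Fin 2)} {ρ ρ' : ℝ} (hρ : 0 < ρ) (hρ' : 0 < ρ')
    (hq : q ≠ c) (hqρ : dist q c ≠ ρ) (hqρ' : dist q' c ≠ ρ')
    (hne : ρ ≠ ρ' ∨ dist q c ≠ dist q' c) (Q : Finset (EuclideanSpace ℝ (Fin 2)))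
    (hQ : ∀ x ∈ Q, dist x c = ρ) (B : Finset (EuclideanSpace ℝ (Fin 2) × EuclideanSpace ℝ (Fin 2)))
    (hB : ∀ p ∈ B, p.1 ∈ Q ∧ p.2 ∈ Q ∧ ∃ a' b', dist a' c = ρ' ∧ dist b' c = ρ' ∧
      sides q p.1 p.2 = sides q' a' b') : B.card ≤ 16 * Q.card := by
  classical
  have hRD : ρ' ^ 2 ≠ dist q' c ^ 2 := fun e =>
    hqρ' ((pow_left_inj₀ dist_nonneg hρ'.le two_ne_zero).1 e.symm)
  have hne2 : ρ ^ 2 ≠ ρ' ^ 2 ∨ dist q c ^ 2 ≠ dist q' c ^ 2 := by
    rcases hne with h | h
    · exact Or.inl fun e => h ((pow_left_inj₀ hρ.le hρ'.le two_ne_zero).1 e)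
    · exact Or.inr fun e => h ((pow_left_inj₀ dist_nonneg dist_nonneg two_ne_zero).1 e)
  have hqa : ∀ a ∈ Q, q ≠ a := fun a ha e => hqρ (by rw [e]; exact hQ a ha)
  obtain ⟨R', hR'⟩ : ∃ R', R' = ρ' ^ 2 := ⟨_, rfl⟩
  obtain ⟨D', hD'⟩ : ∃ D', D' = dist q' c ^ 2 := ⟨_, rfl⟩
  rw [← hR', ← hD'] at hRD hne2
  set ex : EuclideanSpace ℝ (Fin 2) → Prop := fun a =>
    E R' D' (dist q a ^ 2) (dist q (c + c - a) ^ 2) (dist a (c + c - a) ^ 2) = 0 with hex
  set U1 := Q.biUnion (fun a => (Q.filter (fun b =>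
    E R' D' (dist q a ^ 2) (dist a b ^ 2) (dist q b ^ 2) = 0)).image (fun b => (a, b))) with hU1
  set U2 := Q.biUnion (fun b => (Q.filter (fun a =>
    E R' D' (dist q b ^ 2) (dist b a ^ 2) (dist q a ^ 2) = 0)).image (fun a => (a, b))) with hU2
  set U3 := (Q.filter ex) ×ˢ Q with hU3
  set U4 := (Q.filter (fun a => ¬ ex a)).biUnion (fun a => (Q.filter (fun b =>
    E R' D' (dist q a ^ 2) (dist q b ^ 2) (dist a b ^ 2) = 0)).image (fun b => (a, b))) with hU4
  have c1 : U1.card ≤ 4 * Q.card := by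
    calc U1.card ≤ ∑ a ∈ Q, _ := card_biUnion_le
      _ ≤ ∑ a ∈ Q, 4 := sum_le_sum fun a ha => card_image_le.trans
        (cnt2 hρ (hQ a ha) (hqa a ha) hRD _ (fun b hb => hQ b (mem_filter.1 hb).1)
          (fun b hb => (mem_filter.1 hb).2))
      _ = 4 * Q.card := by rw [sum_const, smul_eq_mul, mul_comm]
  have c2 : U2.card ≤ 4 * Q.card := by
    calc U2.card ≤ ∑ a ∈ Q, _ := card_biUnion_le
      _ ≤ ∑ a ∈ Q, 4 := sum_le_sum fun a ha => card_image_le.trans
        (cnt2 hρ (hQ a ha) (hqa a ha) hRD _ (fun b hb => hQ b (mem_filter.1 hb).1)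
          (fun b hb => (mem_filter.1 hb).2))
      _ = 4 * Q.card := by rw [sum_const, smul_eq_mul, mul_comm]
  have c3 : U3.card ≤ 4 * Q.card := by
    rw [hU3, card_product]
    exact Nat.mul_le_mul_right _ (excep hρ hq hne2 _ (fun a ha => hQ a (mem_filter.1 ha).1)
      (fun a ha => (mem_filter.1 ha).2))
  have c4 : U4.card ≤ 4 * Q.card := by
    calc U4.card ≤ ∑ a ∈ Q.filter (fun a => ¬ ex a), _ := card_biUnion_le
      _ ≤ ∑ a ∈ Q.filter (fun a => ¬ ex a), 4 := sum_le_sum fun a ha => card_image_le.trans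
        (cnt1 hρ (hQ a (mem_filter.1 ha).1)
          (anti (q := q) (R' := R') (D' := D') (hQ a (mem_filter.1 ha).1)).2 _
          (fun b hb => hQ b (mem_filter.1 hb).1)
          (fun b hb => (mem_filter.1 hb).2) (mem_filter.1 ha).2)
      _ = 4 * (Q.filter (fun a => ¬ ex a)).card := by rw [sum_const, smul_eq_mul, mul_comm]
      _ ≤ 4 * Q.card := Nat.mul_le_mul_left _ (card_filter_le _ _)
  have hsub : B ⊆ U1 ∪ (U2 ∪ (U3 ∪ U4)) := by
    intro p hp
    obtain ⟨hp1, hp2, a', b', ha', hb', he⟩ := hB p hp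
    have hE := E_zero (q := q') ha' hb'
    rw [← hR', ← hD'] at hE
    have i1 : E R' D' (dist q p.1 ^ 2) (dist p.1 p.2 ^ 2) (dist q p.2 ^ 2) = 0 → p ∈ U1 := by
      intro h
      rw [hU1, mem_biUnion]
      exact ⟨p.1, hp1, mem_image.2 ⟨p.2, mem_filter.2 ⟨hp2, h⟩, rfl⟩⟩
    have i2 : E R' D' (dist q p.2 ^ 2) (dist p.1 p.2 ^ 2) (dist q p.1 ^ 2) = 0 → p ∈ U2 := by
      intro h
      rw [hU2, mem_biUnion]
      exact ⟨p.2, hp2, mem_image.2 ⟨p.1, mem_filter.2 ⟨hp1, by rw [dist_comm p.2 p.1]; exact h⟩,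
        rfl⟩⟩
    have i3 : E R' D' (dist q p.1 ^ 2) (dist q p.2 ^ 2) (dist p.1 p.2 ^ 2) = 0 →
        p ∈ U3 ∪ U4 := by
      intro h
      rw [mem_union]
      by_cases hx : ex p.1
      · left
        rw [hU3, mem_product]
        exact ⟨mem_filter.2 ⟨hp1, hx⟩, hp2⟩
      · right
        rw [hU4, mem_biUnion]
        exact ⟨p.1, mem_filter.2 ⟨hp1, hx⟩, mem_image.2 ⟨p.2, mem_filter.2 ⟨hp2, h⟩, rfl⟩⟩
    rw [mem_union, mem_union]
    rcases perm3 he.symm with ⟨g1, g2, g3⟩ | ⟨g1, g2, g3⟩ | ⟨g1, g2, g3⟩ | ⟨g1, g2, g3⟩ |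
      ⟨g1, g2, g3⟩ | ⟨g1, g2, g3⟩ <;> rw [g1, g2, g3] at hE
    · exact Or.inr (Or.inr (i3 hE))
    · exact Or.inl (i1 hE)
    · exact Or.inr (Or.inl (i2 (by rw [E_symm]; exact hE)))
    · exact Or.inl (i1 (by rw [E_symm]; exact hE))
    · exact Or.inr (Or.inl (i2 hE))
    · exact Or.inr (Or.inr (i3 (by rw [E_symm]; exact hE)))
  have := card_le_card hsub
  have u1 := card_union_le U1 (U2 ∪ (U3 ∪ U4))
  have u2 := card_union_le U2 (U3 ∪ U4)
  have u3 := card_union_le U3 U4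
  omega

lemma bad2 {c q a : EuclideanSpace ℝ (Fin 2)} {r : ℝ} (hqr : dist q c ≠ r)
    (Q : Finset (EuclideanSpace ℝ (Fin 2))) (hQ : ∀ x ∈ Q, dist x c = r) (ha : a ∈ Q) :
    (Q.filter (fun b => dist b (q + a - c) = r)).card ≤ 2 := by
  refine two_pts (c := c) (c' := q + a - c) (r := r) (r' := r) ?_ _
    (fun x hx => hQ x (mem_filter.1 hx).1) (fun x hx => (mem_filter.1 hx).2)
  intro h
  apply hqr
  have h5 : q - c = c - a := by
    rw [sub_eq_sub_iff_add_eq_add]
    exact (sub_eq_iff_eq_add.1 h.symm)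
  rw [dist_eq_norm, h5, ← dist_eq_norm, dist_comm]
  exact hQ a ha

lemma bad3 {c q a : EuclideanSpace ℝ (Fin 2)} {r : ℝ} (hqr : dist q c ≠ r)
    (Q : Finset (EuclideanSpace ℝ (Fin 2))) (hQ : ∀ x ∈ Q, dist x c = r) (ha : a ∈ Q) :
    (Q.filter (fun b => dist a (q + b - c) = r)).card ≤ 2 := by
  refine two_pts (c := c) (c' := c + a - q) (r := r) (r' := r) ?_ _
    (fun x hx => hQ x (mem_filter.1 hx).1) (fun x hx => ?_)
  · intro h
    apply hqr
    have h5 : a - q = 0 := by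
      have h6 : c + (a - q) = c + 0 := by rw [add_zero, ← add_sub_assoc]; exact h.symm
      exact add_left_cancel h6
    rw [← sub_eq_zero.1 h5]
    exact hQ a ha
  · have := (mem_filter.1 hx).2
    rw [← this, dist_eq_norm, dist_eq_norm, ← norm_neg]
    congr 1
    abel

/-- the triangles of the types in `𝓢`: two vertices at distance `t.1` from `c` and the third vertex
the point `pt t.2` at distance `t.2` from `c` -/
lemma types (P : Finset (EuclideanSpace ℝ (Fin 2))) (c : EuclideanSpace ℝ (Fin 2))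
    (pt : ℝ → EuclideanSpace ℝ (Fin 2)) (𝓢 : Finset (ℝ × ℝ))
    (h : ∀ t ∈ 𝓢, 0 < t.1 ∧ 0 < t.2 ∧ t.1 ≠ t.2 ∧ pt t.2 ∈ P ∧ dist (pt t.2) c = t.2) :
    ∑ t ∈ 𝓢, (P.filter (fun x => dist x c = t.1)).card ^ 2 ≤
      4 * T P + ∑ t ∈ 𝓢, (5 + 16 * 𝓢.card) * (P.filter (fun x => dist x c = t.1)).card := by
  classical
  set Q : ℝ → Finset (EuclideanSpace ℝ (Fin 2)) := fun ρ => P.filter (fun x => dist x c = ρ) with hQ
  have hQm : ∀ ρ, ∀ x ∈ Q ρ, dist x c = ρ := fun ρ x hx => (mem_filter.1 hx).2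
  have hQP : ∀ ρ, ∀ x ∈ Q ρ, x ∈ P := fun ρ x hx => (mem_filter.1 hx).1
  set co : ℝ × ℝ → ℝ × ℝ → EuclideanSpace ℝ (Fin 2) × EuclideanSpace ℝ (Fin 2) → Prop :=
    fun t t' p => ∃ a' b', dist a' c = t'.1 ∧ dist b' c = t'.1 ∧
      sides (pt t.2) p.1 p.2 = sides (pt t'.2) a' b' with hco
  set Gd : ℝ × ℝ → Finset (EuclideanSpace ℝ (Fin 2) × EuclideanSpace ℝ (Fin 2)) := fun t =>
    (Q t.1).offDiag.filter (fun p => dist p.2 (pt t.2 + p.1 - c) ≠ t.1 ∧
      dist p.1 (pt t.2 + p.2 - c) ≠ t.1 ∧ ∀ t' ∈ 𝓢, t' ≠ t → ¬ co t t' p) with hGd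
  set S : ℝ × ℝ → Finset (Multiset ℝ) := fun t =>
    (Gd t).image (fun p => sides (pt t.2) p.1 p.2) with hS
  have claim1 : ∀ t ∈ 𝓢, (Q t.1).card ^ 2 ≤
      4 * (S t).card + (5 + 16 * 𝓢.card) * (Q t.1).card := by
    intro t ht
    obtain ⟨ht1, ht2, ht3, htP, htd⟩ := h t ht
    have hqc : pt t.2 ≠ c := fun e => by
      rw [e, dist_self] at htd
      exact ht2.ne htd
    have hqr : dist (pt t.2) c ≠ t.1 := by rw [htd]; exact ht3.symm
    set B1 := (Q t.1).biUnion (fun a => ((Q t.1).filter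
      (fun b => dist b (pt t.2 + a - c) = t.1)).image (fun b => (a, b))) with hB1
    set B2 := (Q t.1).biUnion (fun a => ((Q t.1).filter
      (fun b => dist a (pt t.2 + b - c) = t.1)).image (fun b => (a, b))) with hB2
    set B3 := (𝓢.erase t).biUnion (fun t' => (Q t.1).offDiag.filter (fun p => co t t' p)) with hB3
    have k1 : B1.card ≤ 2 * (Q t.1).card := by
      calc B1.card ≤ ∑ a ∈ Q t.1, _ := card_biUnion_le
        _ ≤ ∑ a ∈ Q t.1, 2 := sum_le_sum fun a ha => card_image_le.trans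
          (bad2 hqr (Q t.1) (hQm t.1) ha)
        _ = 2 * (Q t.1).card := by rw [sum_const, smul_eq_mul, mul_comm]
    have k2 : B2.card ≤ 2 * (Q t.1).card := by
      calc B2.card ≤ ∑ a ∈ Q t.1, _ := card_biUnion_le
        _ ≤ ∑ a ∈ Q t.1, 2 := sum_le_sum fun a ha => card_image_le.trans
          (bad3 hqr (Q t.1) (hQm t.1) ha)
        _ = 2 * (Q t.1).card := by rw [sum_const, smul_eq_mul, mul_comm]
    have k3 : B3.card ≤ 16 * 𝓢.card * (Q t.1).card := by
      calc B3.card ≤ ∑ t' ∈ 𝓢.erase t, _ := card_biUnion_le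
        _ ≤ ∑ t' ∈ 𝓢.erase t, 16 * (Q t.1).card := by
            refine sum_le_sum fun t' ht' => ?_
            obtain ⟨ht1', ht2', ht3', htP', htd'⟩ := h t' (mem_of_mem_erase ht')
            refine overlap (q' := pt t'.2) (ρ' := t'.1) ht1 ht1' hqc hqr
              (by rw [htd']; exact ht3'.symm) ?_ (Q t.1) (hQm t.1) _ ?_
            · by_contra hcon
              push Not at hcon
              rw [htd, htd'] at hcon
              exact (mem_erase.1 ht').1 (Prod.ext hcon.1.symm hcon.2.symm)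
            · intro p hp
              rw [mem_filter, mem_offDiag] at hp
              exact ⟨hp.1.1, hp.1.2.1, hp.2⟩
        _ = (𝓢.erase t).card * (16 * (Q t.1).card) := by rw [sum_const, smul_eq_mul]
        _ ≤ 𝓢.card * (16 * (Q t.1).card) := Nat.mul_le_mul_right _ (card_le_card (erase_subset _ _))
        _ = 16 * 𝓢.card * (Q t.1).card := by ring
    have k4 : (Gd t).card ≤ 4 * (S t).card := by
      refine card_le_mul_card_image _ _ fun s hs => ?_
      refine fib4 hqc hqr ht1 s _ ?_ ?_ ?_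
      · intro p hp
        have := (mem_filter.1 hp).1
        rw [hGd, mem_filter, mem_offDiag] at this
        exact ⟨hQm _ _ this.1.1, hQm _ _ this.1.2.1⟩
      · intro p hp
        exact (mem_filter.1 hp).2
      · intro p hp
        have := (mem_filter.1 hp).1
        rw [hGd, mem_filter, mem_offDiag] at this
        exact ⟨this.2.1, this.2.2.1⟩
    have hsub : (Q t.1).offDiag ⊆ Gd t ∪ (B1 ∪ (B2 ∪ B3)) := by
      intro p hp
      have hp' := mem_offDiag.1 hp
      rw [mem_union, mem_union, mem_union]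
      by_cases g1 : dist p.2 (pt t.2 + p.1 - c) = t.1
      · right; left
        rw [hB1, mem_biUnion]
        exact ⟨p.1, hp'.1, mem_image.2 ⟨p.2, mem_filter.2 ⟨hp'.2.1, g1⟩, rfl⟩⟩
      by_cases g2 : dist p.1 (pt t.2 + p.2 - c) = t.1
      · right; right; left
        rw [hB2, mem_biUnion]
        exact ⟨p.1, hp'.1, mem_image.2 ⟨p.2, mem_filter.2 ⟨hp'.2.1, g2⟩, rfl⟩⟩
      by_cases g3 : ∀ t' ∈ 𝓢, t' ≠ t → ¬ co t t' p
      · left
        rw [hGd, mem_filter]
        exact ⟨hp, g1, g2, g3⟩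
      · right; right; right
        push Not at g3
        obtain ⟨t', ht', hne, hc⟩ := g3
        rw [hB3, mem_biUnion]
        exact ⟨t', mem_erase.2 ⟨hne, ht'⟩, mem_filter.2 ⟨hp, hc⟩⟩
    have k5 := card_le_card hsub
    rw [offDiag_card] at k5
    have u1 := card_union_le (Gd t) (B1 ∪ (B2 ∪ B3))
    have u2 := card_union_le B1 (B2 ∪ B3)
    have u3 := card_union_le B2 B3
    have k6 : (Q t.1).card * (Q t.1).card ≤
      ((Q t.1).card * (Q t.1).card - (Q t.1).card) + (Q t.1).card := by omega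
    have k7 : (5 + 16 * 𝓢.card) * (Q t.1).card = 5 * (Q t.1).card + 16 * 𝓢.card * (Q t.1).card := by
      ring
    rw [sq, k7]
    omega
  have claim2 : ∀ t ∈ 𝓢, ∀ t' ∈ 𝓢, t ≠ t' → Disjoint (S t) (S t') := by
    intro t ht t' ht' hne
    rw [disjoint_left]
    intro s hs hs'
    obtain ⟨p, hp, hps⟩ := mem_image.1 hs
    obtain ⟨p', hp', hps'⟩ := mem_image.1 hs'
    rw [hGd, mem_filter, mem_offDiag] at hp hp'
    exact hp.2.2.2 t' ht' hne.symm ⟨p'.1, p'.2, hQm _ _ hp'.1.1, hQm _ _ hp'.1.2.1,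
      hps.trans hps'.symm⟩
  have claim3 : ∑ t ∈ 𝓢, (S t).card ≤ T P := by
    rw [← card_biUnion claim2, T_eq]
    refine card_le_card fun s hs => ?_
    obtain ⟨t, ht, hs⟩ := mem_biUnion.1 hs
    obtain ⟨p, hp, rfl⟩ := mem_image.1 hs
    rw [hGd, mem_filter, mem_offDiag] at hp
    obtain ⟨ht1, ht2, ht3, htP, htd⟩ := h t ht
    have hq : ∀ x ∈ Q t.1, pt t.2 ≠ x := fun x hx e => ht3 (by rw [← htd, e, hQm _ _ hx])
    exact mem_tri.2 ⟨_, htP, p.1, hQP _ _ hp.1.1, p.2, hQP _ _ hp.1.2.1, hq _ hp.1.1,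
      hp.1.2.2, hq _ hp.1.2.1, rfl⟩
  calc ∑ t ∈ 𝓢, (Q t.1).card ^ 2 ≤
        ∑ t ∈ 𝓢, (4 * (S t).card + (5 + 16 * 𝓢.card) * (Q t.1).card) := sum_le_sum claim1
    _ = 4 * ∑ t ∈ 𝓢, (S t).card + ∑ t ∈ 𝓢, (5 + 16 * 𝓢.card) * (Q t.1).card := by
        rw [sum_add_distrib, ← mul_sum]
    _ ≤ _ := Nat.add_le_add_right (Nat.mul_le_mul_left 4 claim3) _

lemma arithC {n D T M s2 J : ℕ} (h : 50 * D ^ 3 ≤ n) (hD2 : 2 ≤ D) (hJ : J = D * D - D)
    (hM : n ≤ M + 1) (hMn : M ≤ n) (hs : M ^ 2 ≤ D * s2)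
    (hT : (D - 1) * s2 ≤ 4 * T + (5 + 16 * J) * ((D - 1) * M)) : (n ^ 2 + 6) / 12 ≤ T := by
  have hn400 : 400 ≤ n := by
    have : 2 ^ 3 ≤ D ^ 3 := Nat.pow_le_pow_left hD2 3
    omega
  have hK : 50 * ((5 + 16 * J) * D) ≤ 16 * n := by
    have h1 : J + D = D * D := by
      have : D ≤ D * D := Nat.le_mul_self D
      omega
    have h2 : (5 + 16 * J) * D ≤ 16 * D ^ 3 := by
      have h3 : 5 + 16 * J ≤ 16 * D ^ 2 := by
        rw [sq, ← h1]
        omega
      calc (5 + 16 * J) * D ≤ (16 * D ^ 2) * D := Nat.mul_le_mul_right _ h3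
        _ = 16 * D ^ 3 := by ring
    omega
  have hMM : M ^ 2 ≤ 8 * T + ((5 + 16 * J) * D) * M := by
    obtain ⟨d, rfl⟩ : ∃ d, D = d + 1 := ⟨D - 1, by omega⟩
    rw [Nat.add_sub_cancel] at hT
    have hd : 0 < d := by omega
    have h1 : d * M ^ 2 ≤ d * (8 * T + ((5 + 16 * J) * (d + 1)) * M) := by
      calc d * M ^ 2 ≤ d * ((d + 1) * s2) := Nat.mul_le_mul_left _ hs
        _ = (d + 1) * (d * s2) := by ring
        _ ≤ (d + 1) * (4 * T + (5 + 16 * J) * (d * M)) := Nat.mul_le_mul_left _ hT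
        _ = (4 * (d + 1)) * T + d * (((5 + 16 * J) * (d + 1)) * M) := by ring
        _ ≤ (8 * d) * T + d * (((5 + 16 * J) * (d + 1)) * M) :=
            Nat.add_le_add_right (Nat.mul_le_mul_right _ (by omega)) _
        _ = d * (8 * T + ((5 + 16 * J) * (d + 1)) * M) := by ring
    exact Nat.le_of_mul_le_mul_left h1 hd
  have h5 : 50 * (((5 + 16 * J) * D) * M) ≤ 16 * n ^ 2 := by
    calc 50 * (((5 + 16 * J) * D) * M) = (50 * ((5 + 16 * J) * D)) * M := by ring
      _ ≤ (16 * n) * n := Nat.mul_le_mul hK hMn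
      _ = 16 * n ^ 2 := by ring
  have h6 : n ^ 2 ≤ M ^ 2 + 2 * n := by
    have : (n - 1) ^ 2 ≤ M ^ 2 := Nat.pow_le_pow_left (by omega) 2
    obtain ⟨k, rfl⟩ : ∃ k, n = k + 1 := ⟨n - 1, by omega⟩
    rw [Nat.add_sub_cancel] at this
    have h7 : (k + 1) ^ 2 = k ^ 2 + 2 * k + 1 := by ring
    omega
  have h8 : 400 * n ≤ n ^ 2 := by rw [sq]; exact Nat.mul_le_mul_right _ hn400
  omega

/-- **Theorem.** Let `P` be a set of `n` points of the plane and `c` a point, and let the points of `P`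
different from `c` lie on `D` circles with centre `c`.  If `D ≤ 1` or `50 D ^ 3 ≤ n`, then `P`
determines at least `[n ^ 2 / 12]` distinct triangles. -/
theorem result (P : Finset (EuclideanSpace ℝ (Fin 2))) (c : EuclideanSpace ℝ (Fin 2))
    (D : ℕ) (hD : D = {ρ : ℝ | 0 < ρ ∧ ∃ x ∈ P, dist x c = ρ}.ncard)
    (h : D ≤ 1 ∨ 50 * D ^ 3 ≤ P.card) : (P.card ^ 2 + 6) / 12 ≤ T P := by
  classical
  set Q : ℝ → Finset (EuclideanSpace ℝ (Fin 2)) := fun ρ => P.filter (fun x => dist x c = ρ) with hQ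
  set 𝓡 := (P.image (fun x => dist x c)).erase 0 with h𝓡
  have hD𝓡 : D = 𝓡.card := by
    rw [hD, ← Set.ncard_coe_finset]
    congr 1
    ext ρ
    simp only [Set.mem_ofPred_eq, h𝓡, coe_erase, coe_image, Set.mem_sdiff, Set.mem_image,
      mem_coe, Set.mem_singleton_iff]
    constructor
    · rintro ⟨h1, x, hx, h2⟩
      exact ⟨⟨x, hx, h2⟩, h1.ne'⟩
    · rintro ⟨⟨x, hx, h2⟩, h1⟩
      exact ⟨lt_of_le_of_ne (h2 ▸ dist_nonneg) (Ne.symm h1), x, hx, h2⟩
  have hpt : ∀ ρ : ℝ, ∃ x, ρ ∈ 𝓡 → x ∈ P ∧ dist x c = ρ := by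
    intro ρ
    by_cases hρ : ρ ∈ 𝓡
    · obtain ⟨x, hx, hxρ⟩ := mem_image.1 (mem_of_mem_erase hρ)
      exact ⟨x, fun _ => ⟨hx, hxρ⟩⟩
    · exact ⟨c, fun h => absurd h hρ⟩
  choose pt hpt using hpt
  have hpos : ∀ ρ ∈ 𝓡, 0 < ρ := by
    intro ρ hρ
    have h1 : 0 ≤ ρ := by rw [← (hpt ρ hρ).2]; exact dist_nonneg
    exact lt_of_le_of_ne h1 (mem_erase.1 hρ).1.symm
  rcases Nat.lt_or_ge 𝓡.card 2 with hC | hD2
  · -- all points but the centre are on one circle
    obtain ⟨r, hr⟩ : ∃ r, 𝓡 ⊆ {r} := by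
      rcases 𝓡.eq_empty_or_nonempty with h0 | ⟨r, hr⟩
      · exact ⟨0, by rw [h0]; simp⟩
      · exact ⟨r, fun x hx => mem_singleton.2 (card_le_one.1 (by omega) x hx r hr)⟩
    have h2 : P.card ≤ (Q r).card + 1 := by
      have h3 : P.erase c ⊆ Q r := by
        intro x hx
        have hx' : dist x c ∈ 𝓡 := mem_erase.2 ⟨dist_ne_zero.2 (ne_of_mem_erase hx),
          mem_image.2 ⟨x, mem_of_mem_erase hx, rfl⟩⟩
        exact mem_filter.2 ⟨mem_of_mem_erase hx, mem_singleton.1 (hr hx')⟩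
      have h4 := card_le_card h3
      have h5 := pred_card_le_card_erase (s := P) (a := c)
      omega
    refine conc P c r (Q r).card ?_ (Or.inl h2)
    rw [← Set.ncard_coe_finset]
    congr 1
    ext x
    simp [hQ]
  · have h50 : 50 * 𝓡.card ^ 3 ≤ P.card := by
      rw [← hD𝓡] at hD2 ⊢
      rcases h with h | h
      · omega
      · exact h
    have ht := types P c pt 𝓡.offDiag (by
      intro t ht
      rw [mem_offDiag] at ht
      exact ⟨hpos _ ht.1, hpos _ ht.2.1, ht.2.2, (hpt _ ht.2.1).1, (hpt _ ht.2.1).2⟩)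
    rw [offDiag_card] at ht
    have e1 : ∀ g : ℝ → ℕ, ∑ t ∈ 𝓡.offDiag, g t.1 = (𝓡.card - 1) * ∑ ρ ∈ 𝓡, g ρ := by
      intro g
      have : 𝓡.offDiag = (𝓡 ×ˢ 𝓡).filter (fun t => t.1 ≠ t.2) := by
        ext t
        simp [mem_offDiag, and_assoc]
      rw [this, sum_filter, sum_product, mul_sum]
      refine sum_congr rfl fun ρ hρ => ?_
      rw [← sum_filter]
      change ∑ a ∈ 𝓡.filter (fun a => ρ ≠ a), g ρ = _
      rw [sum_const, smul_eq_mul, filter_ne, card_erase_of_mem hρ]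
    rw [e1 (fun ρ => (P.filter (fun x => dist x c = ρ)).card ^ 2),
      e1 (fun ρ => (5 + 16 * (𝓡.card * 𝓡.card - 𝓡.card)) *
        (P.filter (fun x => dist x c = ρ)).card), ← mul_sum] at ht
    have hsumle : ∑ ρ ∈ 𝓡, (Q ρ).card ≤ P.card := by
      rw [← card_biUnion (fun x _ y _ hxy => disjoint_left.2 fun z hz hz' =>
        hxy ((mem_filter.1 hz).2.symm.trans (mem_filter.1 hz').2))]
      exact card_le_card (biUnion_subset.2 fun ρ _ => filter_subset _ _)
    have hsumge : P.card ≤ ∑ ρ ∈ 𝓡, (Q ρ).card + 1 := by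
      rw [← card_biUnion (fun x _ y _ hxy => disjoint_left.2 fun z hz hz' =>
        hxy ((mem_filter.1 hz).2.symm.trans (mem_filter.1 hz').2))]
      have h3 : P.erase c ⊆ 𝓡.biUnion Q := by
        intro x hx
        exact mem_biUnion.2 ⟨dist x c, mem_erase.2 ⟨dist_ne_zero.2 (ne_of_mem_erase hx),
          mem_image.2 ⟨x, mem_of_mem_erase hx, rfl⟩⟩, mem_filter.2 ⟨mem_of_mem_erase hx, rfl⟩⟩
      have h4 := card_le_card h3
      have h5 := pred_card_le_card_erase (s := P) (a := c)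
      omega
    have hcs : (∑ ρ ∈ 𝓡, (Q ρ).card) ^ 2 ≤ 𝓡.card * ∑ ρ ∈ 𝓡, (Q ρ).card ^ 2 := by
      exact_mod_cast sq_sum_le_card_mul_sum_sq (s := 𝓡) (f := fun ρ => ((Q ρ).card : ℤ))
    refine arithC (J := 𝓡.card * 𝓡.card - 𝓡.card) (D := 𝓡.card)
      (M := ∑ ρ ∈ 𝓡, (Q ρ).card) (s2 := ∑ ρ ∈ 𝓡, (Q ρ).card ^ 2) h50 hD2 rfl
      hsumge hsumle hcs ?_
    calc _ ≤ _ := ht
      _ = _ := by ring

end Pool.Agent.Results.MP_dc37f8_co.ConcentricCircles
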