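import Mathlib

/-!
# Regular polygons minimise the number of distinct triangles among sets with half of the points
# on a circle

A triangle is a triple of distinct points; two triangles are congruent if and only if they have the
same multiset of pairwise distances.  A set of `n` points all of which but at most one lie on a
circle, or at least `n / 2 + 3` of which lie on a circle, determines at least `[n ^ 2 / 12]` (nearest
integer) pairwise non-congruent triangles, which is the number for the regular `n`-gon.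

Proof.  (1) `m` points on a circle.  For `a ≤ m / 3` take a shortest arc `A a` between two of the
points with `a - 1` points in between, and the triangles over the chord of this arc whose two other
arcs have at least `a - 1` interior points.  The smallest arc of each of them is `A a`, so that
triangles for different `a` are not congruent, and for a given `a` at most two of these
`m - 3 a + 1` triangles are congruent.  Sum: `[m ^ 2 / 12]`.

(2) Let `q` be another point, not the centre `c`.  Among the triangles `q a b` with `a`, `b` on the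
circle all but at most `m` pairs `a b` have a circumradius different from that of the circle; for at
most four ordered pairs (after excluding `4 m` more pairs) these triangles are congruent.  This gives
`m (m - 7) / 4` (or without the exclusion `m (m - 3) / 8`) more triangles.

(3) If the only other point is the centre, `(m - 3) / 2` isosceles triangles are added.
-/

set_option autoImplicit false

namespace Pool.Agent.Results.MP_dc37f8_co.Concyclic

open Finset

/-- The multiset of the pairwise distances of three points. -/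
noncomputable def sides (a b c : EuclideanSpace ℝ (Fin 2)) : Multiset ℝ :=
  {dist a b, dist b c, dist a c}

/-- The number of congruence classes of triangles (triples of distinct points) of `P`. -/
noncomputable def T (P : Finset (EuclideanSpace ℝ (Fin 2))) : ℕ :=
  {s : Multiset ℝ | ∃ a ∈ P, ∃ b ∈ P, ∃ c ∈ P, a ≠ b ∧ b ≠ c ∧ a ≠ c ∧ s = sides a b c}.ncard

/-- length of the chord of an arc -/
noncomputable def L (r x : ℝ) : ℝ := 2 * r * Real.sin (x / 2)

lemma L_le {r A B C : ℝ} (hr : 0 < r) (hA : 0 < A) (hB : A ≤ B) (hC : A ≤ C)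
    (h : A + B + C = 2 * Real.pi) : L r A ≤ L r B := by
  unfold L
  have h1 : Real.sin (A / 2) ≤ Real.sin (B / 2) := by
    rcases le_or_gt (B / 2) (Real.pi / 2) with hb | hb
    · exact Real.sin_le_sin_of_le_of_le_pi_div_two (by linarith [Real.pi_pos]) hb (by linarith)
    · rw [← Real.sin_pi_sub (B / 2)]
      exact Real.sin_le_sin_of_le_of_le_pi_div_two (by linarith [Real.pi_pos]) (by linarith)
        (by linarith)
  exact mul_le_mul_of_nonneg_left h1 (by linarith)

lemma L_third {r A B C : ℝ} (h : A + B + C = 2 * Real.pi) : L r (A + B) = L r C := by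
  unfold L
  rw [show C / 2 = Real.pi - (A + B) / 2 by linarith, Real.sin_pi_sub]

lemma inj {r A B C A' B' C' : ℝ} (hr : 0 < r) (hA : 0 < A) (hB : A ≤ B) (hC : A ≤ C)
    (h : A + B + C = 2 * Real.pi) (hA' : 0 < A') (hB' : A' ≤ B') (hC' : A' ≤ C')
    (h' : A' + B' + C' = 2 * Real.pi)
    (he : ({L r A, L r B, L r C} : Multiset ℝ) = {L r A', L r B', L r C'}) :
    A = A' ∧ (B = B' ∨ B = C') := by
  have key : ∀ {A B C A' B' C' : ℝ}, 0 < A → A ≤ B → A ≤ C → A + B + C = 2 * Real.pi → 0 < A' →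
      A' ≤ B' → A' ≤ C' → A' + B' + C' = 2 * Real.pi →
      ({L r A, L r B, L r C} : Multiset ℝ) = {L r A', L r B', L r C'} → L r A' ≤ L r A := by
    intro A B C A' B' C' hA hB hC h hA' hB' hC' h' he
    have : L r A ∈ ({L r A', L r B', L r C'} : Multiset ℝ) := by rw [← he]; simp
    simp only [Multiset.insert_eq_cons, Multiset.mem_cons, Multiset.mem_singleton] at this
    rcases this with e | e | e
    · exact e.ge
    · rw [e]; exact L_le hr hA' hB' hC' h'
    · rw [e]; exact L_le hr hA' hC' hB' (by linarith)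
  have hLA : L r A = L r A' := le_antisymm (key hA' hB' hC' h' hA hB hC h he.symm)
    (key hA hB hC h hA' hB' hC' h' he)
  have hAA : A = A' := by
    unfold L at hLA
    have h1 : Real.sin (A / 2) = Real.sin (A' / 2) :=
      mul_left_cancel₀ (by positivity) hLA
    have h2 := Real.injOn_sin (⟨by linarith [Real.pi_pos], by linarith [Real.pi_pos]⟩ :
      A / 2 ∈ Set.Icc (-(Real.pi / 2)) (Real.pi / 2))
      (⟨by linarith [Real.pi_pos], by linarith [Real.pi_pos]⟩ :
      A' / 2 ∈ Set.Icc (-(Real.pi / 2)) (Real.pi / 2)) h1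
    linarith
  refine ⟨hAA, ?_⟩
  subst hAA
  have hp : L r B * L r C = L r B' * L r C' := by
    have h3 := congrArg Multiset.prod he
    simp only [Multiset.insert_eq_cons, Multiset.prod_cons, Multiset.prod_singleton] at h3
    have hpos : 0 < L r A := by
      unfold L
      exact mul_pos (by linarith) (Real.sin_pos_of_pos_of_lt_pi (by linarith)
        (by linarith [Real.pi_pos]))
    exact mul_left_cancel₀ hpos.ne' h3
  have hs : Real.sin (B / 2) * Real.sin (C / 2) = Real.sin (B' / 2) * Real.sin (C' / 2) := by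
    unfold L at hp
    have : (2 * r) ^ 2 * (Real.sin (B / 2) * Real.sin (C / 2)) =
        (2 * r) ^ 2 * (Real.sin (B' / 2) * Real.sin (C' / 2)) := by linear_combination hp
    exact mul_left_cancel₀ (by positivity) this
  have hprod : ∀ x y : ℝ, Real.sin x * Real.sin y = (Real.cos (x - y) - Real.cos (x + y)) / 2 := by
    intro x y
    rw [Real.cos_sub, Real.cos_add]
    ring
  rw [hprod, hprod, show B / 2 + C / 2 = B' / 2 + C' / 2 by linarith] at hs
  have hc : Real.cos (B / 2 - C / 2) = Real.cos (B' / 2 - C' / 2) := by linarith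
  rw [← Real.cos_abs (B / 2 - C / 2), ← Real.cos_abs (B' / 2 - C' / 2)] at hc
  have ha := Real.injOn_cos (⟨abs_nonneg _, by rw [abs_le]; constructor <;>
      linarith [Real.pi_pos]⟩ : |B / 2 - C / 2| ∈ Set.Icc 0 Real.pi)
    (⟨abs_nonneg _, by rw [abs_le]; constructor <;>
      linarith [Real.pi_pos]⟩ : |B' / 2 - C' / 2| ∈ Set.Icc 0 Real.pi) hc
  rcases abs_eq_abs.1 ha with h4 | h4
  · left; linarith
  · right; linarith

lemma sum_eq (n : ℕ) : ∑ a ∈ Icc 1 (n / 3), (n - 3 * a + 2) / 2 = (n ^ 2 + 6) / 12 := by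
  have step : ∀ n : ℕ, (∑ a ∈ Icc 1 ((n + 3) / 3), (n + 3 - 3 * a + 2) / 2) =
      (n + 2) / 2 + ∑ a ∈ Icc 1 (n / 3), (n - 3 * a + 2) / 2 := by
    intro n
    rw [show (n + 3) / 3 = n / 3 + 1 by omega]
    have : Icc 1 (n / 3 + 1) = (range (n / 3 + 1)).image (· + 1) := by
      ext x
      simp only [mem_Icc, mem_image, mem_range]
      constructor
      · rintro ⟨h1, h2⟩
        exact ⟨x - 1, by omega, by omega⟩
      · rintro ⟨y, hy, rfl⟩
        omega
    rw [this, sum_image (by intro a _ b _ h; simpa using h), sum_range_succ']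
    have h2 : Icc 1 (n / 3) = (range (n / 3)).image (· + 1) := by
      ext x
      simp only [mem_Icc, mem_image, mem_range]
      constructor
      · rintro ⟨h1, h2⟩
        exact ⟨x - 1, by omega, by omega⟩
      · rintro ⟨y, hy, rfl⟩
        omega
    rw [h2, sum_image (by intro a _ b _ h; simpa using h), add_comm]
    congr 1
    refine sum_congr rfl fun x hx => ?_
    congr 2
    rw [mem_range] at hx
    omega
  have hrec : ∀ n : ℕ, ((n + 3) ^ 2 + 6) / 12 = (n + 2) / 2 + (n ^ 2 + 6) / 12 := by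
    intro n
    obtain ⟨q, s, hs, rfl⟩ : ∃ q s, s < 12 ∧ n = 12 * q + s :=
      ⟨n / 12, n % 12, Nat.mod_lt _ (by norm_num), by omega⟩
    interval_cases s <;> ring_nf <;> omega
  induction n using Nat.strong_induction_on with
  | _ n ih =>
    rcases Nat.lt_or_ge n 3 with h | h
    · interval_cases n <;> simp
    · obtain ⟨m, rfl⟩ := Nat.exists_eq_add_of_le' h
      rw [step, hrec, ih m (by omega)]

lemma core (n : ℕ) (hn : 1 ≤ n) (Θ : ℕ → ℝ) (hm : StrictMono Θ)
    (hper : ∀ k, Θ (k + n) = Θ k + 2 * Real.pi) (r : ℝ) (hr : 0 < r) (S : Finset (Multiset ℝ))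
    (hS : ∀ i j k, i < j → j < k → k < i + n →
      ({L r (Θ j - Θ i), L r (Θ k - Θ j), L r (Θ k - Θ i)} : Multiset ℝ) ∈ S) :
    (n ^ 2 + 6) / 12 ≤ S.card := by
  classical
  have hex : ∀ a : ℕ, ∃ i, ∀ j, Θ (i + a) - Θ i ≤ Θ (j + a) - Θ j := by
    intro a
    obtain ⟨i, _, hi⟩ := (range n).exists_min_image (fun i => Θ (i + a) - Θ i)
      ⟨0, mem_range.2 (by omega)⟩
    refine ⟨i, fun j => ?_⟩
    have hq : ∀ q j, Θ (j + q * n) = Θ j + q * (2 * Real.pi) := by
      intro q
      induction q with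
      | zero => intro j; simp
      | succ q ih =>
        intro j
        rw [show j + (q + 1) * n = (j + q * n) + n by ring, hper, ih]
        push_cast
        ring
    have h1 := hi (j % n) (mem_range.2 (Nat.mod_lt _ (by omega)))
    have h2 : Θ (j + a) - Θ j = Θ (j % n + a) - Θ (j % n) := by
      have e1 : j = j % n + (j / n) * n := by
        rw [mul_comm]; exact (Nat.mod_add_div j n).symm
      have e2 : Θ j = Θ (j % n) + (j / n : ℕ) * (2 * Real.pi) := by
        conv_lhs => rw [e1]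
        exact hq _ _
      have e3 : Θ (j + a) = Θ (j % n + a) + (j / n : ℕ) * (2 * Real.pi) := by
        conv_lhs => rw [e1, show j % n + j / n * n + a = (j % n + a) + j / n * n by ring]
        exact hq _ _
      rw [e2, e3]
      ring
    rw [h2]
    exact h1
  choose i hi using hex
  set m : ℕ → ℝ := fun a => Θ (i a + a) - Θ (i a) with hmdef
  have hmm : StrictMono m := by
    intro a b hab
    have h1 := hi a (i b)
    have h2 := hm (show i b + a < i b + b by omega)
    simp only [hmdef]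
    linarith
  have hmpos : ∀ a, 1 ≤ a → 0 < m a := fun a ha => sub_pos.2 (hm (by omega))
  set Bf : ℕ → ℕ → ℝ := fun a b => Θ (i a + a + b) - Θ (i a + a) with hB
  set F : ℕ → ℕ → Multiset ℝ := fun a b =>
    {L r (m a), L r (Bf a b), L r (m a + Bf a b)} with hF
  have hfact : ∀ a b, 1 ≤ a → a ≤ b → 2 * a + b ≤ n →
      m a ≤ Bf a b ∧ m a ≤ 2 * Real.pi - m a - Bf a b ∧ F a b ∈ S := by
    intro a b ha hab hb
    refine ⟨?_, ?_, ?_⟩
    · have h1 := hi a (i a + a)
      have h2 := hm.monotone (show i a + a + a ≤ i a + a + b by omega)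
      simp only [hmdef, hB]
      linarith
    · have h1 := hi a (i a + a + b)
      have h2 := hm.monotone (show i a + a + b + a ≤ i a + n by omega)
      rw [hper] at h2
      simp only [hmdef, hB]
      linarith
    · have := hS (i a) (i a + a) (i a + a + b) (by omega) (by omega) (by omega)
      simp only [hF, hmdef, hB]
      convert this using 5
      ring
  have hinj : ∀ a b a' b', 1 ≤ a → a ≤ b → 2 * a + b ≤ n → 1 ≤ a' → a' ≤ b' → 2 * a' + b' ≤ n →
      F a b = F a' b' → m a = m a' ∧ (Bf a b = Bf a' b' ∨ Bf a b = 2 * Real.pi - m a' - Bf a' b') := by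
    intro a b a' b' ha hab hb ha' hab' hb' he
    obtain ⟨h1, h2, _⟩ := hfact a b ha hab hb
    obtain ⟨h1', h2', _⟩ := hfact a' b' ha' hab' hb'
    refine inj hr (hmpos a ha) h1 h2 (by ring) (hmpos a' ha') h1' h2' (by ring) ?_
    rw [← L_third (r := r) (A := m a) (B := Bf a b) (C := 2 * Real.pi - m a - Bf a b) (by ring),
      ← L_third (r := r) (A := m a') (B := Bf a' b') (C := 2 * Real.pi - m a' - Bf a' b') (by ring)]
    exact he
  have hBinj : ∀ a b b', Bf a b = Bf a b' → b = b' := by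
    intro a b b' h
    simp only [hB] at h
    have := hm.injective (show Θ (i a + a + b) = Θ (i a + a + b') by linarith)
    omega
  set I : ℕ → Finset (Multiset ℝ) := fun a => (Icc a (n - 2 * a)).image (F a) with hI
  have hcard : ∀ a ∈ Icc 1 (n / 3), (n - 3 * a + 2) / 2 ≤ (I a).card := by
    intro a ha
    rw [mem_Icc] at ha
    have h2 : (Icc a (n - 2 * a)).card ≤ 2 * (I a).card := by
      refine card_le_mul_card_image _ _ fun t ht => ?_
      by_contra hcon
      push Not at hcon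
      obtain ⟨x, y, z, hx, hy, hz, hxy, hxz, hyz⟩ := two_lt_card_iff.1 hcon
      simp only [mem_filter, mem_Icc] at hx hy hz
      obtain ⟨_, h3⟩ := hinj a y a x (by omega) (by omega) (by omega) (by omega) (by omega)
        (by omega) (by rw [hx.2, hy.2])
      obtain ⟨_, h4⟩ := hinj a z a x (by omega) (by omega) (by omega) (by omega) (by omega)
        (by omega) (by rw [hx.2, hz.2])
      rcases h3 with h3 | h3
      · exact hxy (hBinj a y x h3).symm
      · rcases h4 with h4 | h4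
        · exact hxz (hBinj a z x h4).symm
        · exact hyz (hBinj a y z (by rw [h3, h4]))
    rw [Nat.card_Icc] at h2
    omega
  have hdisj : ∀ a ∈ Icc 1 (n / 3), ∀ a' ∈ Icc 1 (n / 3), a ≠ a' → Disjoint (I a) (I a') := by
    intro a ha a' ha' hne
    rw [mem_Icc] at ha ha'
    rw [disjoint_left]
    intro t ht ht'
    simp only [hI, mem_image, mem_Icc] at ht ht'
    obtain ⟨b, hb, hbt⟩ := ht
    obtain ⟨b', hb', hbt'⟩ := ht'
    obtain ⟨h, _⟩ := hinj a b a' b' (by omega) (by omega) (by omega) (by omega) (by omega)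
      (by omega) (by rw [hbt, hbt'])
    exact hne (hmm.injective h)
  rw [← sum_eq n]
  calc ∑ a ∈ Icc 1 (n / 3), (n - 3 * a + 2) / 2 ≤ ∑ a ∈ Icc 1 (n / 3), (I a).card :=
        sum_le_sum hcard
    _ = ((Icc 1 (n / 3)).biUnion I).card := (card_biUnion hdisj).symm
    _ ≤ S.card := by
        refine card_le_card fun t ht => ?_
        rw [mem_biUnion] at ht
        obtain ⟨a, ha, ht⟩ := ht
        simp only [hI, mem_image, mem_Icc] at ht ha
        obtain ⟨b, hb, rfl⟩ := ht
        exact (hfact a b (by omega) (by omega) (by omega)).2.2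

/-- square of the distance in coordinates -/
lemma dist_sq (x y : EuclideanSpace ℝ (Fin 2)) :
    dist x y ^ 2 = (x 0 - y 0) ^ 2 + (x 1 - y 1) ^ 2 := by
  rw [EuclideanSpace.dist_eq, Real.sq_sqrt (sum_nonneg fun _ _ => sq_nonneg _), Fin.sum_univ_two,
    Real.dist_eq, Real.dist_eq, sq_abs, sq_abs]

lemma dist_arc {x y c : EuclideanSpace ℝ (Fin 2)} {r α β : ℝ} (hr : 0 < r)
    (hx0 : x 0 = c 0 + r * Real.cos α) (hx1 : x 1 = c 1 + r * Real.sin α)
    (hy0 : y 0 = c 0 + r * Real.cos β) (hy1 : y 1 = c 1 + r * Real.sin β)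
    (h0 : α < β) (h1 : β < α + 2 * Real.pi) : dist x y = L r (β - α) ∧ 0 < L r (β - α) := by
  have hs : 0 < Real.sin ((β - α) / 2) :=
    Real.sin_pos_of_pos_of_lt_pi (by linarith) (by linarith)
  have hL : 0 < L r (β - α) := mul_pos (by linarith) hs
  refine ⟨?_, hL⟩
  have h2 : dist x y ^ 2 = L r (β - α) ^ 2 := by
    rw [dist_sq, hx0, hx1, hy0, hy1]
    unfold L
    have e1 : Real.cos (β - α) = 1 - 2 * Real.sin ((β - α) / 2) ^ 2 := by
      have := Real.cos_two_mul ((β - α) / 2)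
      rw [show 2 * ((β - α) / 2) = β - α by ring, Real.cos_sq'] at this
      rw [this]
      ring
    rw [Real.cos_sub] at e1
    have e2 := Real.sin_sq_add_cos_sq α
    have e3 := Real.sin_sq_add_cos_sq β
    linear_combination r ^ 2 * e2 + r ^ 2 * e3 - 2 * r ^ 2 * e1
  exact (pow_left_inj₀ dist_nonneg hL.le two_ne_zero).1 h2

lemma angle {x c : EuclideanSpace ℝ (Fin 2)} {r : ℝ} (hx : dist x c = r) :
    ∃ α : ℝ, -Real.pi < α ∧ α ≤ Real.pi ∧ x 0 = c 0 + r * Real.cos α ∧
      x 1 = c 1 + r * Real.sin α := by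
  set z : ℂ := ⟨x 0 - c 0, x 1 - c 1⟩ with hz
  have hn : ‖z‖ = r := by
    have h1 : ‖z‖ ^ 2 = r ^ 2 := by
      rw [Complex.sq_norm, Complex.normSq_apply, ← hx, dist_sq]
      ring
    exact (pow_left_inj₀ (norm_nonneg _) (hx ▸ dist_nonneg) two_ne_zero).1 h1
  refine ⟨z.arg, (Complex.arg_mem_Ioc z).1, (Complex.arg_mem_Ioc z).2, ?_, ?_⟩
  · rw [← hn, Complex.norm_mul_cos_arg]; simp [hz]
  · rw [← hn, Complex.norm_mul_sin_arg]; simp [hz]

lemma circ (P : Finset (EuclideanSpace ℝ (Fin 2))) (c : EuclideanSpace ℝ (Fin 2)) (r : ℝ)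
    (hr : 0 < r) (hP : ∀ x ∈ P, dist x c = r) (S : Finset (Multiset ℝ))
    (hS : ∀ x ∈ P, ∀ y ∈ P, ∀ z ∈ P, x ≠ y → y ≠ z → x ≠ z → sides x y z ∈ S) :
    (P.card ^ 2 + 6) / 12 ≤ S.card := by
  classical
  rcases Nat.eq_zero_or_pos P.card with h0 | hn
  · rw [h0]; simp
  have hex : ∀ x : EuclideanSpace ℝ (Fin 2), ∃ α : ℝ, x ∈ P → -Real.pi < α ∧ α ≤ Real.pi ∧
      x 0 = c 0 + r * Real.cos α ∧ x 1 = c 1 + r * Real.sin α := by
    intro x
    by_cases hx : x ∈ P
    · obtain ⟨α, hα⟩ := angle (hP x hx)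
      exact ⟨α, fun _ => hα⟩
    · exact ⟨0, fun h => absurd h hx⟩
  choose θ hθ using hex
  have hinj : Set.InjOn θ P := by
    intro x hx y hy hxy
    obtain ⟨_, _, h1, h2⟩ := hθ x hx
    obtain ⟨_, _, h3, h4⟩ := hθ y hy
    ext i
    fin_cases i
    · simp only [Fin.zero_eta, h1, h3, hxy]
    · simp only [Fin.mk_one, h2, h4, hxy]
  set n := P.card with hndef
  have hA : (P.image θ).card = n := card_image_of_injOn hinj
  set e := (P.image θ).orderEmbOfFin hA with he
  have hp : ∀ i : Fin n, ∃ x ∈ P, θ x = e i := by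
    intro i
    have := (P.image θ).orderEmbOfFin_mem hA i
    rw [mem_image] at this
    exact this
  choose p hpP hpe using hp
  have hlt : ∀ k : ℕ, k % n < n := fun k => Nat.mod_lt _ hn
  set Θ : ℕ → ℝ := fun k => e ⟨k % n, hlt k⟩ + (k / n : ℕ) * (2 * Real.pi) with hΘ
  set q : ℕ → EuclideanSpace ℝ (Fin 2) := fun k => p ⟨k % n, hlt k⟩ with hq
  have hqP : ∀ k, q k ∈ P := fun k => hpP _
  have hq0 : ∀ k, (q k) 0 = c 0 + r * Real.cos (Θ k) := by
    intro k
    simp only [hΘ]
    rw [Real.cos_add_nat_mul_two_pi, ← hpe]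
    exact (hθ _ (hpP _)).2.2.1
  have hq1 : ∀ k, (q k) 1 = c 1 + r * Real.sin (Θ k) := by
    intro k
    simp only [hΘ]
    rw [Real.sin_add_nat_mul_two_pi, ← hpe]
    exact (hθ _ (hpP _)).2.2.2
  have hrange : ∀ i : Fin n, -Real.pi < e i ∧ e i ≤ Real.pi := by
    intro i
    rw [← hpe]
    exact ⟨(hθ _ (hpP _)).1, (hθ _ (hpP _)).2.1⟩
  have hper : ∀ k, Θ (k + n) = Θ k + 2 * Real.pi := by
    intro k
    simp only [hΘ]
    have h1 : (k + n) / n = k / n + 1 := Nat.add_div_right k hn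
    have h2 : (k + n) % n = k % n := Nat.add_mod_right k n
    simp only [h1, h2]
    push_cast
    ring
  have hm : StrictMono Θ := by
    refine strictMono_nat_of_lt_succ fun k => ?_
    simp only [hΘ]
    have hk := Nat.div_add_mod k n
    have hkl := hlt k
    rcases Nat.lt_or_ge (k % n + 1) n with h | h
    · have h1 : (k + 1) % n = k % n + 1 := by
        conv_lhs => rw [← hk, add_assoc, mul_comm n]
        exact Nat.mul_add_mod_of_lt h
      have h2 : (k + 1) / n = k / n := by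
        conv_lhs => rw [← hk, add_assoc, Nat.mul_add_div hn, Nat.div_eq_of_lt h]
        simp
      have h3 : e ⟨k % n, hlt k⟩ < e ⟨k % n + 1, h⟩ := by
        apply e.strictMono
        simp [Fin.lt_def]
      simp only [h1, h2]
      linarith
    · have h1 : k % n + 1 = n := by omega
      have h4 : k + 1 = n * (k / n + 1) := by
        rw [mul_add, mul_one]; omega
      have h2 : (k + 1) / n = k / n + 1 := by
        rw [h4, Nat.mul_div_cancel_left _ hn]
      have h3 : (k + 1) % n = 0 := by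
        rw [h4]; exact Nat.mul_mod_right _ _
      simp only [h2, h3]
      have h5 := (hrange ⟨k % n, hlt k⟩).2
      have h6 := (hrange ⟨0, hn⟩).1
      push_cast
      linarith
  refine core n hn Θ hm hper r hr S ?_
  intro i j k hij hjk hki
  have g1 := hm hij
  have g2 := hm hjk
  have g3 := hm hki
  rw [hper] at g3
  obtain ⟨d1, l1⟩ := dist_arc hr (hq0 i) (hq1 i) (hq0 j) (hq1 j) g1 (by linarith)
  obtain ⟨d2, l2⟩ := dist_arc hr (hq0 j) (hq1 j) (hq0 k) (hq1 k) g2 (by linarith)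
  obtain ⟨d3, l3⟩ := dist_arc hr (hq0 i) (hq1 i) (hq0 k) (hq1 k) (by linarith) (by linarith)
  rw [← d1, ← d2, ← d3]
  exact hS _ (hqP i) _ (hqP j) _ (hqP k) (dist_pos.1 (by linarith)) (dist_pos.1 (by linarith))
    (dist_pos.1 (by linarith))

/-- inner product of `x - c` and `y - c` -/
def ip (c x y : EuclideanSpace ℝ (Fin 2)) : ℝ :=
  (x 0 - c 0) * (y 0 - c 0) + (x 1 - c 1) * (y 1 - c 1)

/-- determinant of `x - c` and `y - c` -/
def cr (c x y : EuclideanSpace ℝ (Fin 2)) : ℝ :=
  (x 0 - c 0) * (y 1 - c 1) - (x 1 - c 1) * (y 0 - c 0)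

lemma dist_ip (c x y : EuclideanSpace ℝ (Fin 2)) :
    dist x y ^ 2 = ip c x x + ip c y y - 2 * ip c x y := by
  rw [dist_sq]; unfold ip; ring

lemma ip_self {c x : EuclideanSpace ℝ (Fin 2)} {r : ℝ} (h : dist x c = r) :
    ip c x x = r ^ 2 := by
  rw [← h, dist_sq]; unfold ip; ring

lemma gram (c a b q : EuclideanSpace ℝ (Fin 2)) :
    ip c a a * ip c b b * ip c q q + 2 * ip c a q * ip c b q * ip c a b - ip c a a * ip c b q ^ 2
      - ip c b b * ip c a q ^ 2 - ip c q q * ip c a b ^ 2 = 0 := by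
  unfold ip; ring

lemma lagr (c a b q : EuclideanSpace ℝ (Fin 2)) :
    cr c a q * cr c b q + ip c a q * ip c b q = ip c q q * ip c a b := by
  unfold ip cr; ring

lemma recov {c a b q : EuclideanSpace ℝ (Fin 2)} (hq : ip c q q ≠ 0)
    (h1 : ip c a q = ip c b q) (h2 : cr c a q = cr c b q) : a = b := by
  have e0 : ip c q q * (a 0 - b 0) = 0 := by
    unfold ip cr at *
    linear_combination (q 0 - c 0) * h1 + (q 1 - c 1) * h2
  have e1 : ip c q q * (a 1 - b 1) = 0 := by
    unfold ip cr at *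
    linear_combination (q 1 - c 1) * h1 - (q 0 - c 0) * h2
  have f0 := (mul_eq_zero.1 e0).resolve_left hq
  have f1 := (mul_eq_zero.1 e1).resolve_left hq
  ext i
  fin_cases i
  · simp only [Fin.zero_eta]; linarith
  · simp only [Fin.mk_one]; linarith

lemma sgn {p p' t t' : ℝ} (hp : p ^ 2 = p' ^ 2) (ht : t ^ 2 = t' ^ 2) (h : p * t = p' * t') :
    (p = p' ∧ t = t') ∨ (p = -p' ∧ t = -t') := by
  rcases sq_eq_sq_iff_eq_or_eq_neg.1 hp with h1 | h1 <;>
    rcases sq_eq_sq_iff_eq_or_eq_neg.1 ht with h2 | h2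
  · exact Or.inl ⟨h1, h2⟩
  · subst h1 h2
    have : p * t' = 0 := by linarith
    rcases mul_eq_zero.1 this with h3 | h3
    · right; exact ⟨by rw [h3]; simp, rfl⟩
    · left; exact ⟨rfl, by rw [h3]; simp⟩
  · subst h1 h2
    have : p' * t = 0 := by linarith
    rcases mul_eq_zero.1 this with h3 | h3
    · left; exact ⟨by rw [h3]; simp, rfl⟩
    · right; exact ⟨rfl, by rw [h3]; simp⟩
  · exact Or.inr ⟨h1, h2⟩

/-- vanishes on the triangles inscribed in a circle of radius `r` -/
noncomputable def G (r : ℝ) (s : Multiset ℝ) : ℝ :=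
  s.prod ^ 2 - r ^ 2 * ((s.map (· ^ 2)).sum ^ 2 - 2 * (s.map (· ^ 4)).sum)

lemma G_sides {c q a b : EuclideanSpace ℝ (Fin 2)} {r : ℝ} (ha : dist a c = r)
    (hb : dist b c = r) : G r (sides q a b) =
      dist a b ^ 2 * (dist q c ^ 2 - r ^ 2) * (dist b (c + q - a) ^ 2 - r ^ 2) := by
  have hA := ip_self ha
  have hB := ip_self hb
  have hQ : dist q c ^ 2 = ip c q q := by rw [ip_self rfl]
  have h1 : dist b (c + q - a) ^ 2 = ip c q q + 2 * r ^ 2 - 2 * ip c a q - 2 * ip c b q
      + 2 * ip c a b := by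
    rw [dist_sq, show (2 : ℝ) * r ^ 2 = ip c a a + ip c b b by rw [hA, hB]; ring]
    simp only [PiLp.add_apply, PiLp.sub_apply]
    unfold ip
    ring
  have hg := gram c a b q
  rw [hA, hB] at hg
  have x2 := dist_ip c q a
  have y2 := dist_ip c q b
  have z2 := dist_ip c a b
  have hc1 : ip c q a = ip c a q := by unfold ip; ring
  have hc2 : ip c q b = ip c b q := by unfold ip; ring
  rw [hA, hc1] at x2
  rw [hB, hc2] at y2
  rw [hA, hB] at z2
  have hG : G r (sides q a b) = dist q a ^ 2 * dist q b ^ 2 * dist a b ^ 2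
      - r ^ 2 * ((dist q a ^ 2 + dist q b ^ 2 + dist a b ^ 2) ^ 2 -
        2 * ((dist q a ^ 2) ^ 2 + (dist q b ^ 2) ^ 2 + (dist a b ^ 2) ^ 2)) := by
    unfold G sides
    simp only [Multiset.insert_eq_cons, Multiset.map_cons, Multiset.map_singleton,
      Multiset.prod_cons, Multiset.prod_singleton, Multiset.sum_cons, Multiset.sum_singleton]
    ring
  rw [hG, hQ, h1, x2, y2, z2]
  linear_combination (-4) * hg

lemma finr : Module.finrank ℝ (EuclideanSpace ℝ (Fin 2)) = 2 := by simp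

lemma two_pts {c c' : EuclideanSpace ℝ (Fin 2)} {r r' : ℝ} (h : c ≠ c')
    (S : Finset (EuclideanSpace ℝ (Fin 2))) (h1 : ∀ x ∈ S, dist x c = r)
    (h2 : ∀ x ∈ S, dist x c' = r') : S.card ≤ 2 := by
  by_contra hcon
  push Not at hcon
  obtain ⟨x, y, z, hx, hy, hz, hxy, hxz, hyz⟩ := two_lt_card_iff.1 hcon
  rcases EuclideanGeometry.eq_of_dist_eq_of_dist_eq_of_finrank_eq_two finr h hxy (h1 x hx)
    (h1 y hy) (h1 z hz) (h2 x hx) (h2 y hy) (h2 z hz) with h | h
  · exact hxz h.symm
  · exact hyz h.symm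

lemma perm3 {x y z x' y' z' : ℝ} (h : ({x', y', z'} : Multiset ℝ) = {x, y, z}) :
    (x' = x ∧ y' = y ∧ z' = z) ∨ (x' = x ∧ y' = z ∧ z' = y) ∨ (x' = y ∧ y' = x ∧ z' = z) ∨
    (x' = y ∧ y' = z ∧ z' = x) ∨ (x' = z ∧ y' = x ∧ z' = y) ∨ (x' = z ∧ y' = y ∧ z' = x) := by
  have hs : x' + y' + z' = x + y + z := by
    have := congrArg Multiset.sum h
    simp only [Multiset.insert_eq_cons, Multiset.sum_cons, Multiset.sum_singleton] at this
    linarith
  have hq : x' ^ 2 + y' ^ 2 + z' ^ 2 = x ^ 2 + y ^ 2 + z ^ 2 := by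
    have := congrArg (fun s => (Multiset.map (fun t : ℝ => t ^ 2) s).sum) h
    simp only [Multiset.insert_eq_cons, Multiset.map_cons, Multiset.map_singleton,
      Multiset.sum_cons, Multiset.sum_singleton] at this
    linarith
  have hm : x' = x ∨ x' = y ∨ x' = z := by
    have : x' ∈ ({x', y', z'} : Multiset ℝ) := by simp
    rw [h] at this
    simpa using this
  have pr : ∀ {a b c d : ℝ}, a + b = c + d → a ^ 2 + b ^ 2 = c ^ 2 + d ^ 2 →
      (a = c ∧ b = d) ∨ (a = d ∧ b = c) := by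
    intro a b c d h1 h2
    have : (a - c) * (a - d) = 0 := by
      have hb : b = c + d - a := by linarith
      subst hb
      nlinarith
    rcases mul_eq_zero.1 this with h | h
    · left; constructor <;> linarith
    · right; constructor <;> linarith
  rcases hm with rfl | rfl | rfl
  · rcases pr (show y' + z' = y + z by linarith) (by linarith) with ⟨h1, h2⟩ | ⟨h1, h2⟩
    · exact Or.inl ⟨rfl, h1, h2⟩
    · exact Or.inr (Or.inl ⟨rfl, h1, h2⟩)
  · rcases pr (show y' + z' = x + z by linarith) (by linarith) with ⟨h1, h2⟩ | ⟨h1, h2⟩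
    · exact Or.inr (Or.inr (Or.inl ⟨rfl, h1, h2⟩))
    · exact Or.inr (Or.inr (Or.inr (Or.inl ⟨rfl, h1, h2⟩)))
  · rcases pr (show y' + z' = x + y by linarith) (by linarith) with ⟨h1, h2⟩ | ⟨h1, h2⟩
    · exact Or.inr (Or.inr (Or.inr (Or.inr (Or.inl ⟨rfl, h1, h2⟩))))
    · exact Or.inr (Or.inr (Or.inr (Or.inr (Or.inr ⟨rfl, h1, h2⟩))))

/-- Gram determinant in terms of the squares of the distances -/
lemma gram' {c q a b : EuclideanSpace ℝ (Fin 2)} {r : ℝ} (ha : dist a c = r)
    (hb : dist b c = r) {D X Y Z : ℝ} (hD : D = dist q c ^ 2) (hX : X = dist q a ^ 2)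
    (hY : Y = dist q b ^ 2) (hZ : Z = dist a b ^ 2) :
    r ^ 2 * r ^ 2 * D + 2 * ((D + r ^ 2 - X) / 2) * ((D + r ^ 2 - Y) / 2) * (r ^ 2 - Z / 2)
      - r ^ 2 * ((D + r ^ 2 - Y) / 2) ^ 2 - r ^ 2 * ((D + r ^ 2 - X) / 2) ^ 2
      - D * (r ^ 2 - Z / 2) ^ 2 = 0 := by
  have hg := gram c a b q
  have hA := ip_self ha
  have hB := ip_self hb
  have hQ : ip c q q = D := by rw [hD, ip_self rfl]
  have x2 := dist_ip c q a
  have y2 := dist_ip c q b
  have z2 := dist_ip c a b
  have hc1 : ip c q a = ip c a q := by unfold ip; ring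
  have hc2 : ip c q b = ip c b q := by unfold ip; ring
  rw [hA, hc1, hQ, ← hX] at x2
  rw [hB, hc2, hQ, ← hY] at y2
  rw [hA, hB, ← hZ] at z2
  rw [hA, hB, hQ] at hg
  have e1 : (D + r ^ 2 - X) / 2 = ip c a q := by linarith
  have e2 : (D + r ^ 2 - Y) / 2 = ip c b q := by linarith
  have e3 : r ^ 2 - Z / 2 = ip c a b := by linarith
  rw [e1, e2, e3]
  linarith

lemma no3 {R D X Y Z : ℝ} (hk : R ≠ D) (hXY : X ≠ Y) (hXZ : X ≠ Z) (hYZ : Y ≠ Z)
    (E1 : R * R * D + 2 * ((D + R - X) / 2) * ((D + R - Y) / 2) * (R - Z / 2)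
      - R * ((D + R - Y) / 2) ^ 2 - R * ((D + R - X) / 2) ^ 2 - D * (R - Z / 2) ^ 2 = 0)
    (E2 : R * R * D + 2 * ((D + R - X) / 2) * ((D + R - Z) / 2) * (R - Y / 2)
      - R * ((D + R - Z) / 2) ^ 2 - R * ((D + R - X) / 2) ^ 2 - D * (R - Y / 2) ^ 2 = 0)
    (E3 : R * R * D + 2 * ((D + R - Y) / 2) * ((D + R - Z) / 2) * (R - X / 2)
      - R * ((D + R - Z) / 2) ^ 2 - R * ((D + R - Y) / 2) ^ 2 - D * (R - X / 2) ^ 2 = 0) :
    False := by
  have f1 : (Y - Z) * ((R - D) * (Y + Z - X + D - R)) = 0 := by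
    linear_combination (-4) * E1 + 4 * E2
  have f2 : (X - Z) * ((R - D) * (X + Z - Y + D - R)) = 0 := by
    linear_combination (-4) * E1 + 4 * E3
  have g1 := (mul_eq_zero.1 ((mul_eq_zero.1 f1).resolve_left (sub_ne_zero.2 hYZ))).resolve_left
    (sub_ne_zero.2 hk)
  have g2 := (mul_eq_zero.1 ((mul_eq_zero.1 f2).resolve_left (sub_ne_zero.2 hXZ))).resolve_left
    (sub_ne_zero.2 hk)
  exact hXY (by linarith)

/-- at most two ordered pairs of points of the circle have given distances to `q` and to each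
other -/
lemma fib2 {c q : EuclideanSpace ℝ (Fin 2)} {r : ℝ} (hq : q ≠ c) {x y z : ℝ}
    (S : Finset (EuclideanSpace ℝ (Fin 2) × EuclideanSpace ℝ (Fin 2)))
    (h1 : ∀ p ∈ S, dist p.1 c = r ∧ dist p.2 c = r)
    (h2 : ∀ p ∈ S, dist q p.1 = x ∧ dist q p.2 = y ∧ dist p.1 p.2 = z) : S.card ≤ 2 := by
  have hD : ip c q q ≠ 0 := by
    rw [ip_self rfl]
    exact pow_ne_zero 2 (dist_ne_zero.2 hq)
  have hcr : ∀ a b, cr c a q * cr c b q = ip c q q * ip c a b - ip c a q * ip c b q := by
    intro a b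
    have := lagr c a b q
    linarith
  have key : ∀ p ∈ S, ∀ p' ∈ S, ip c p.1 q = ip c p'.1 q ∧ ip c p.2 q = ip c p'.2 q ∧
      ((cr c p.1 q = cr c p'.1 q ∧ cr c p.2 q = cr c p'.2 q) ∨
        (cr c p.1 q = - cr c p'.1 q ∧ cr c p.2 q = - cr c p'.2 q)) := by
    intro p hp p' hp'
    have a1 := ip_self (h1 p hp).1
    have a2 := ip_self (h1 p hp).2
    have a3 := ip_self (h1 p' hp').1
    have a4 := ip_self (h1 p' hp').2
    have hsym : ∀ u v, ip c u v = ip c v u := by intro u v; unfold ip; ring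
    have b1 := dist_ip c q p.1
    have b2 := dist_ip c q p.2
    have b3 := dist_ip c q p'.1
    have b4 := dist_ip c q p'.2
    have b5 := dist_ip c p.1 p.2
    have b6 := dist_ip c p'.1 p'.2
    rw [(h2 p hp).1, hsym q p.1] at b1
    rw [(h2 p hp).2.1, hsym q p.2] at b2
    rw [(h2 p' hp').1, hsym q p'.1] at b3
    rw [(h2 p' hp').2.1, hsym q p'.2] at b4
    rw [(h2 p hp).2.2] at b5
    rw [(h2 p' hp').2.2] at b6
    have c1 : ip c p.1 q = ip c p'.1 q := by linarith
    have c2 : ip c p.2 q = ip c p'.2 q := by linarith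
    have c3 : ip c p.1 p.2 = ip c p'.1 p'.2 := by linarith
    refine ⟨c1, c2, sgn ?_ ?_ ?_⟩
    · rw [sq, sq, hcr, hcr, c1, a1, a3]
    · rw [sq, sq, hcr, hcr, c2, a2, a4]
    · rw [hcr, hcr, c1, c2, c3]
  by_contra hcon
  push Not at hcon
  obtain ⟨u, v, w, hu, hv, hw, huv, huw, hvw⟩ := two_lt_card_iff.1 hcon
  have hrec : ∀ p ∈ S, ∀ p' ∈ S, (cr c p.1 q = cr c p'.1 q ∧ cr c p.2 q = cr c p'.2 q) →
      p = p' := by
    intro p hp p' hp' h
    obtain ⟨c1, c2, _⟩ := key p hp p' hp'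
    exact Prod.ext (recov hD c1 h.1) (recov hD c2 h.2)
  obtain ⟨_, _, h3⟩ := key v hv u hu
  obtain ⟨_, _, h4⟩ := key w hw u hu
  rcases h3 with h3 | h3
  · exact huv (hrec v hv u hu h3).symm
  · rcases h4 with h4 | h4
    · exact huw (hrec w hw u hu h4).symm
    · exact hvw (hrec v hv w hw ⟨by rw [h3.1, h4.1], by rw [h3.2, h4.2]⟩)

/-- at most eight ordered pairs of points of the circle form with `q` a triangle of a given
congruence class -/
lemma fib8 {c q : EuclideanSpace ℝ (Fin 2)} {r : ℝ} (hq : q ≠ c) (hqr : dist q c ≠ r) (hr : 0 < r)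
    (s : Multiset ℝ) (S : Finset (EuclideanSpace ℝ (Fin 2) × EuclideanSpace ℝ (Fin 2)))
    (h1 : ∀ p ∈ S, dist p.1 c = r ∧ dist p.2 c = r)
    (h2 : ∀ p ∈ S, sides q p.1 p.2 = s) : S.card ≤ 8 := by
  classical
  set g : EuclideanSpace ℝ (Fin 2) × EuclideanSpace ℝ (Fin 2) → ℝ × ℝ × ℝ :=
    fun p => (dist q p.1, dist q p.2, dist p.1 p.2) with hg
  have hcard : S.card ≤ 2 * (S.image g).card := by
    refine card_le_mul_card_image _ _ fun t ht => ?_
    refine fib2 (r := r) hq (x := t.1) (y := t.2.1) (z := t.2.2) _ ?_ ?_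
    · intro p hp
      exact h1 p (mem_filter.1 hp).1
    · intro p hp
      have := (mem_filter.1 hp).2
      rw [← this]
      exact ⟨rfl, rfl, rfl⟩
  have h4 : (S.image g).card ≤ 4 := by
    rcases (S.image g).eq_empty_or_nonempty with h0 | ⟨⟨x, y, z⟩, hne⟩
    · rw [h0]; simp
    have hs : ∀ t ∈ S.image g, ({t.1, t.2.1, t.2.2} : Multiset ℝ) = s := by
      intro t ht
      obtain ⟨p, hp, rfl⟩ := mem_image.1 ht
      rw [← h2 p hp]
      simp only [hg, sides, Multiset.insert_eq_cons]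
      rw [← Multiset.singleton_add, ← Multiset.singleton_add, ← Multiset.singleton_add,
        ← Multiset.singleton_add]
      abel
    have hperm : ∀ t ∈ S.image g, (t = (x, y, z)) ∨ (t = (x, z, y)) ∨ (t = (y, x, z)) ∨
        (t = (y, z, x)) ∨ (t = (z, x, y)) ∨ (t = (z, y, x)) := by
      intro t ht
      have := perm3 ((hs t ht).trans (hs _ hne).symm)
      simpa only [Prod.ext_iff] using this
    have hgr : ∀ t ∈ S.image g, r ^ 2 * r ^ 2 * dist q c ^ 2 + 2 *
        ((dist q c ^ 2 + r ^ 2 - t.1 ^ 2) / 2) * ((dist q c ^ 2 + r ^ 2 - t.2.1 ^ 2) / 2) *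
          (r ^ 2 - t.2.2 ^ 2 / 2)
        - r ^ 2 * ((dist q c ^ 2 + r ^ 2 - t.2.1 ^ 2) / 2) ^ 2
        - r ^ 2 * ((dist q c ^ 2 + r ^ 2 - t.1 ^ 2) / 2) ^ 2
        - dist q c ^ 2 * (r ^ 2 - t.2.2 ^ 2 / 2) ^ 2 = 0 ∧ 0 ≤ t.1 ∧ 0 ≤ t.2.1 ∧ 0 ≤ t.2.2 := by
      intro t ht
      obtain ⟨p, hp, rfl⟩ := mem_image.1 ht
      exact ⟨gram' (h1 p hp).1 (h1 p hp).2 rfl rfl rfl rfl, dist_nonneg, dist_nonneg, dist_nonneg⟩
    have hxyz := hgr _ hne
    simp only at hxyz
    obtain ⟨E1, hx, hy, hz⟩ := hxyz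
    have sub3 : ∀ a b d : ℝ × ℝ × ℝ, (∀ t ∈ S.image g, t = a ∨ t = b ∨ t = d) →
        (S.image g).card ≤ 4 := by
      intro a b d h
      have : S.image g ⊆ {a, b, d} := by
        intro t ht
        simpa using h t ht
      exact (card_le_card this).trans (card_le_three.trans (by norm_num))
    have sub4 : ∀ a b d e : ℝ × ℝ × ℝ, (∀ t ∈ S.image g, t = a ∨ t = b ∨ t = d ∨ t = e) →
        (S.image g).card ≤ 4 := by
      intro a b d e h
      have : S.image g ⊆ {a, b, d, e} := by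
        intro t ht
        simpa using h t ht
      exact (card_le_card this).trans card_le_four
    by_cases hxy : x = y
    · subst hxy
      refine sub3 (x, x, z) (x, z, x) (z, x, x) fun t ht => ?_
      rcases hperm t ht with h | h | h | h | h | h <;> simp [h]
    by_cases hxz : x = z
    · subst hxz
      refine sub3 (x, y, x) (y, x, x) (x, x, y) fun t ht => ?_
      rcases hperm t ht with h | h | h | h | h | h <;> simp [h]
    by_cases hyz : y = z
    · subst hyz
      refine sub3 (x, y, y) (y, x, y) (y, y, x) fun t ht => ?_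
      rcases hperm t ht with h | h | h | h | h | h <;> simp [h]
    by_cases hA : (x, z, y) ∈ S.image g ∨ (z, x, y) ∈ S.image g
    · by_cases hB : (y, z, x) ∈ S.image g ∨ (z, y, x) ∈ S.image g
      · exfalso
        refine no3 (R := r ^ 2) (D := dist q c ^ 2) (X := x ^ 2) (Y := y ^ 2) (Z := z ^ 2)
          (fun h => hqr ((pow_left_inj₀ dist_nonneg hr.le two_ne_zero).1 h.symm))
          (fun h => hxy ((pow_left_inj₀ hx hy two_ne_zero).1 h))
          (fun h => hxz ((pow_left_inj₀ hx hz two_ne_zero).1 h))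
          (fun h => hyz ((pow_left_inj₀ hy hz two_ne_zero).1 h)) (by linarith) ?_ ?_
        · rcases hA with h | h
          · have := (hgr _ h).1
            simp only at this
            linarith
          · have := (hgr _ h).1
            simp only at this
            linarith
        · rcases hB with h | h
          · have := (hgr _ h).1
            simp only at this
            linarith
          · have := (hgr _ h).1
            simp only at this
            linarith
      · push Not at hB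
        refine sub4 (x, y, z) (y, x, z) (x, z, y) (z, x, y) fun t ht => ?_
        rcases hperm t ht with h | h | h | h | h | h
        · simp [h]
        · simp [h]
        · simp [h]
        · exact absurd (h ▸ ht) hB.1
        · simp [h]
        · exact absurd (h ▸ ht) hB.2
    · push Not at hA
      refine sub4 (x, y, z) (y, x, z) (y, z, x) (z, y, x) fun t ht => ?_
      rcases hperm t ht with h | h | h | h | h | h
      · simp [h]
      · exact absurd (h ▸ ht) hA.1
      · simp [h]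
      · simp [h]
      · exact absurd (h ▸ ht) hA.2
      · simp [h]
  omega


lemma exc {c q a b : EuclideanSpace ℝ (Fin 2)} {r : ℝ} (ha : dist a c = r)
    (hb : dist b c = r) {D X Y Z : ℝ} (hD : D = dist q c ^ 2) (hX : X = dist q a ^ 2)
    (hY : Y = dist q b ^ 2) (hZ : Z = dist a b ^ 2) (hk : r ^ 2 ≠ D) (hYZ : Y ≠ Z)
    (hr : 0 < r)
    (E2 : r ^ 2 * r ^ 2 * D + 2 * ((D + r ^ 2 - X) / 2) * ((D + r ^ 2 - Z) / 2) * (r ^ 2 - Y / 2)
      - r ^ 2 * ((D + r ^ 2 - Z) / 2) ^ 2 - r ^ 2 * ((D + r ^ 2 - X) / 2) ^ 2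
      - D * (r ^ 2 - Y / 2) ^ 2 = 0) :
    dist b (q + a - c) = r := by
  have E1 := gram' ha hb hD hX hY hZ
  have f1 : (Y - Z) * ((r ^ 2 - D) * (Y + Z - X + D - r ^ 2)) = 0 := by
    linear_combination (-4) * E1 + 4 * E2
  have g1 := (mul_eq_zero.1 ((mul_eq_zero.1 f1).resolve_left (sub_ne_zero.2 hYZ))).resolve_left
    (sub_ne_zero.2 hk)
  have hA := ip_self ha
  have hB := ip_self hb
  have hQ : ip c q q = D := by rw [hD, ip_self rfl]
  have x2 := dist_ip c q a
  have y2 := dist_ip c q b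
  have z2 := dist_ip c a b
  have h1 : dist b (q + a - c) ^ 2 = ip c b b + ip c q q + ip c a a + 2 * ip c q a
      - 2 * ip c q b - 2 * ip c a b := by
    rw [dist_sq]
    simp only [PiLp.add_apply, PiLp.sub_apply]
    unfold ip
    ring
  have h2 : dist b (q + a - c) ^ 2 = r ^ 2 := by
    rw [h1]
    linarith
  exact (pow_left_inj₀ dist_nonneg hr.le two_ne_zero).1 h2

/-- at most four ordered pairs of points of the circle form with `q` a triangle of a given
congruence class, pairs with a certain algebraic relation being excluded -/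
lemma fib4 {c q : EuclideanSpace ℝ (Fin 2)} {r : ℝ} (hq : q ≠ c) (hqr : dist q c ≠ r) (hr : 0 < r)
    (s : Multiset ℝ) (S : Finset (EuclideanSpace ℝ (Fin 2) × EuclideanSpace ℝ (Fin 2)))
    (h1 : ∀ p ∈ S, dist p.1 c = r ∧ dist p.2 c = r)
    (h2 : ∀ p ∈ S, sides q p.1 p.2 = s)
    (h3 : ∀ p ∈ S, dist p.2 (q + p.1 - c) ≠ r ∧ dist p.1 (q + p.2 - c) ≠ r) : S.card ≤ 4 := by
  classical
  set g : EuclideanSpace ℝ (Fin 2) × EuclideanSpace ℝ (Fin 2) → ℝ × ℝ × ℝ :=
    fun p => (dist q p.1, dist q p.2, dist p.1 p.2) with hg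
  have hcard : S.card ≤ 2 * (S.image g).card := by
    refine card_le_mul_card_image _ _ fun t ht => ?_
    refine fib2 (r := r) hq (x := t.1) (y := t.2.1) (z := t.2.2) _ ?_ ?_
    · intro p hp
      exact h1 p (mem_filter.1 hp).1
    · intro p hp
      have := (mem_filter.1 hp).2
      rw [← this]
      exact ⟨rfl, rfl, rfl⟩
  have h4 : (S.image g).card ≤ 2 := by
    rcases (S.image g).eq_empty_or_nonempty with h0 | ⟨⟨x, y, z⟩, hne⟩
    · rw [h0]; simp
    have hs : ∀ t ∈ S.image g, ({t.1, t.2.1, t.2.2} : Multiset ℝ) = s := by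
      intro t ht
      obtain ⟨p, hp, rfl⟩ := mem_image.1 ht
      rw [← h2 p hp]
      simp only [hg, sides, Multiset.insert_eq_cons]
      rw [← Multiset.singleton_add, ← Multiset.singleton_add, ← Multiset.singleton_add,
        ← Multiset.singleton_add]
      abel
    have hperm : ∀ t ∈ S.image g, (t = (x, y, z)) ∨ (t = (x, z, y)) ∨ (t = (y, x, z)) ∨
        (t = (y, z, x)) ∨ (t = (z, x, y)) ∨ (t = (z, y, x)) := by
      intro t ht
      have := perm3 ((hs t ht).trans (hs _ hne).symm)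
      simpa only [Prod.ext_iff] using this
    have hgr : ∀ t ∈ S.image g, r ^ 2 * r ^ 2 * dist q c ^ 2 + 2 *
        ((dist q c ^ 2 + r ^ 2 - t.1 ^ 2) / 2) * ((dist q c ^ 2 + r ^ 2 - t.2.1 ^ 2) / 2) *
          (r ^ 2 - t.2.2 ^ 2 / 2)
        - r ^ 2 * ((dist q c ^ 2 + r ^ 2 - t.2.1 ^ 2) / 2) ^ 2
        - r ^ 2 * ((dist q c ^ 2 + r ^ 2 - t.1 ^ 2) / 2) ^ 2
        - dist q c ^ 2 * (r ^ 2 - t.2.2 ^ 2 / 2) ^ 2 = 0 := by
      intro t ht
      obtain ⟨p, hp, rfl⟩ := mem_image.1 ht
      exact gram' (h1 p hp).1 (h1 p hp).2 rfl rfl rfl rfl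
    obtain ⟨p, hp, hpt⟩ := mem_image.1 hne
    have hx : x = dist q p.1 := (congrArg Prod.fst hpt).symm
    have hy : y = dist q p.2 := (congrArg (fun t => t.2.1) hpt).symm
    have hz : z = dist p.1 p.2 := (congrArg (fun t => t.2.2) hpt).symm
    have hrD : r ^ 2 ≠ dist q c ^ 2 := fun h =>
      hqr ((pow_left_inj₀ dist_nonneg hr.le two_ne_zero).1 h.symm)
    have hyz : ((x, z, y) ∈ S.image g ∨ (z, x, y) ∈ S.image g) → y = z := by
      intro h
      by_contra hne'
      refine (h3 p hp).1 (exc (h1 p hp).1 (h1 p hp).2 (q := q) (D := dist q c ^ 2) (X := x ^ 2)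
        (Y := y ^ 2) (Z := z ^ 2) rfl (by rw [hx]) (by rw [hy]) (by rw [hz]) hrD ?_ hr ?_)
      · intro e
        exact hne' ((pow_left_inj₀ (hy ▸ dist_nonneg) (hz ▸ dist_nonneg) two_ne_zero).1 e)
      · rcases h with h | h
        · have := hgr _ h
          simp only at this
          linarith
        · have := hgr _ h
          simp only at this
          linarith
    have hxz : ((y, z, x) ∈ S.image g ∨ (z, y, x) ∈ S.image g) → x = z := by
      intro h
      by_contra hne'
      refine (h3 p hp).2 (exc (h1 p hp).2 (h1 p hp).1 (q := q) (D := dist q c ^ 2) (X := y ^ 2)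
        (Y := x ^ 2) (Z := z ^ 2) rfl (by rw [hy]) (by rw [hx]) (by rw [hz, dist_comm]) hrD ?_ hr ?_)
      · intro e
        exact hne' ((pow_left_inj₀ (hx ▸ dist_nonneg) (hz ▸ dist_nonneg) two_ne_zero).1 e)
      · rcases h with h | h
        · have := hgr _ h
          simp only at this
          linarith
        · have := hgr _ h
          simp only at this
          linarith
    have hsub : S.image g ⊆ {(x, y, z), (y, x, z)} := by
      intro t ht
      rw [mem_insert, mem_singleton]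
      rcases hperm t ht with h | h | h | h | h | h
      · exact Or.inl h
      · have e := hyz (Or.inl (h ▸ ht))
        left; rw [h, e]
      · exact Or.inr h
      · have e := hxz (Or.inl (h ▸ ht))
        right; rw [h, e]
      · have e := hyz (Or.inr (h ▸ ht))
        right; rw [h, e]
      · have e := hxz (Or.inr (h ▸ ht))
        left; rw [h, e]
    exact (card_le_card hsub).trans card_le_two
  omega

/-- the congruence classes of triangles of `P` as a finite set -/
noncomputable def tri (P : Finset (EuclideanSpace ℝ (Fin 2))) : Finset (Multiset ℝ) := by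
  classical
  exact ((P ×ˢ P ×ˢ P).filter
    (fun t => t.1 ≠ t.2.1 ∧ t.2.1 ≠ t.2.2 ∧ t.1 ≠ t.2.2)).image (fun t => sides t.1 t.2.1 t.2.2)

lemma mem_tri {P : Finset (EuclideanSpace ℝ (Fin 2))} {s : Multiset ℝ} : s ∈ tri P ↔
    ∃ a ∈ P, ∃ b ∈ P, ∃ c ∈ P, a ≠ b ∧ b ≠ c ∧ a ≠ c ∧ s = sides a b c := by
  classical
  simp only [tri, mem_image, mem_filter, mem_product, Prod.exists]
  constructor
  · rintro ⟨a, b, c, ⟨⟨ha, hb, hc⟩, h1, h2, h3⟩, rfl⟩
    exact ⟨a, ha, b, hb, c, hc, h1, h2, h3, rfl⟩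
  · rintro ⟨a, ha, b, hb, c, hc, h1, h2, h3, rfl⟩
    exact ⟨a, b, c, ⟨⟨ha, hb, hc⟩, h1, h2, h3⟩, rfl⟩

lemma T_eq (P : Finset (EuclideanSpace ℝ (Fin 2))) : T P = (tri P).card := by
  unfold T
  rw [← Set.ncard_coe_finset]
  congr 1
  ext s
  rw [mem_coe, mem_tri]
  rfl

lemma T_pos {P : Finset (EuclideanSpace ℝ (Fin 2))} (h : 3 ≤ P.card) : 1 ≤ T P := by
  obtain ⟨a, b, c, ha, hb, hc, hab, hac, hbc⟩ := two_lt_card_iff.1 (show 2 < P.card by omega)
  rw [T_eq]
  exact card_pos.2 ⟨_, mem_tri.2 ⟨a, ha, b, hb, c, hc, hab, hbc, hac, rfl⟩⟩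

lemma add_T {P Q : Finset (EuclideanSpace ℝ (Fin 2))} {q : EuclideanSpace ℝ (Fin 2)} (hQ : Q ⊆ P)
    (hqP : q ∈ P) (hqQ : q ∉ Q) (S : Finset (Multiset ℝ)) (hd : Disjoint (tri Q) S)
    (hS : ∀ s ∈ S, ∃ a ∈ Q, ∃ b ∈ Q, a ≠ b ∧ s = sides q a b) :
    (tri Q).card + S.card ≤ T P := by
  classical
  rw [T_eq, ← card_union_of_disjoint hd]
  refine card_le_card (union_subset ?_ ?_)
  · intro s hs
    obtain ⟨a, ha, b, hb, c, hc, h⟩ := mem_tri.1 hs
    exact mem_tri.2 ⟨a, hQ ha, b, hQ hb, c, hQ hc, h⟩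
  · intro s hs
    obtain ⟨a, ha, b, hb, hab, h⟩ := hS s hs
    exact mem_tri.2 ⟨q, hqP, a, hQ ha, b, hQ hb, fun e => hqQ (e ▸ ha), hab,
      fun e => hqQ (e ▸ hb), h⟩

lemma good {c q : EuclideanSpace ℝ (Fin 2)} {r : ℝ} (hr : 0 < r) (hqr : dist q c ≠ r)
    (Q : Finset (EuclideanSpace ℝ (Fin 2))) (hQ : ∀ x ∈ Q, dist x c = r)
    {a b : EuclideanSpace ℝ (Fin 2)} (ha : a ∈ Q) (hb : b ∈ Q) (hab : a ≠ b)
    (h : dist b (c + q - a) ≠ r) : sides q a b ∉ tri Q := by
  intro hs
  obtain ⟨x, hx, y, hy, z, hz, _, _, _, he⟩ := mem_tri.1 hs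
  have h1 := G_sides (q := q) (hQ a ha) (hQ b hb)
  have h2 := G_sides (q := x) (hQ y hy) (hQ z hz)
  rw [hQ x hx, sub_self, mul_zero, zero_mul, ← he, h1] at h2
  have ne : ∀ t : ℝ, 0 ≤ t → t ≠ r → t ^ 2 - r ^ 2 ≠ 0 := fun t ht h e =>
    h ((pow_left_inj₀ ht hr.le two_ne_zero).1 (by linarith))
  exact mul_ne_zero (mul_ne_zero (pow_ne_zero 2 (dist_ne_zero.2 hab))
    (ne _ dist_nonneg hqr)) (ne _ dist_nonneg h) h2

lemma bad {c q a : EuclideanSpace ℝ (Fin 2)} {r : ℝ} (hqa : q ≠ a)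
    (Q : Finset (EuclideanSpace ℝ (Fin 2))) (hQ : ∀ x ∈ Q, dist x c = r) :
    (Q.filter (fun b => dist b (c + q - a) = r)).card ≤ 2 := by
  refine two_pts (c := c) (c' := c + q - a) (r := r) (r' := r) ?_ _
    (fun x hx => hQ x (mem_filter.1 hx).1) (fun x hx => (mem_filter.1 hx).2)
  intro h
  apply hqa
  have : c + (q - a) = c + 0 := by rw [add_zero, ← add_sub_assoc]; exact h.symm
  exact sub_eq_zero.1 (add_left_cancel this)

lemma outer {c q : EuclideanSpace ℝ (Fin 2)} {r : ℝ} (hr : 0 < r) (hq : q ≠ c)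
    (hqr : dist q c ≠ r) (Q : Finset (EuclideanSpace ℝ (Fin 2))) (hQ : ∀ x ∈ Q, dist x c = r) :
    ∃ S : Finset (Multiset ℝ), Disjoint (tri Q) S ∧ Q.card ^ 2 ≤ 8 * S.card + 3 * Q.card ∧
      ∀ s ∈ S, ∃ a ∈ Q, ∃ b ∈ Q, a ≠ b ∧ s = sides q a b := by
  classical
  set Gd := Q.offDiag.filter (fun p => ¬ dist p.2 (c + q - p.1) = r) with hGd
  set Bd := Q.offDiag.filter (fun p => dist p.2 (c + q - p.1) = r) with hBd
  have hB : Bd.card ≤ 2 * Q.card := by
    have hsub : Bd ⊆ Q.biUnion (fun a => (Q.filter (fun b => dist b (c + q - a) = r)).image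
        (fun b => (a, b))) := by
      intro p hp
      rw [hBd, mem_filter, mem_offDiag] at hp
      rw [mem_biUnion]
      refine ⟨p.1, hp.1.1, ?_⟩
      rw [mem_image]
      exact ⟨p.2, mem_filter.2 ⟨hp.1.2.1, hp.2⟩, rfl⟩
    calc Bd.card ≤ _ := card_le_card hsub
      _ ≤ ∑ a ∈ Q, ((Q.filter (fun b => dist b (c + q - a) = r)).image
        (fun b => (a, b))).card := card_biUnion_le
      _ ≤ ∑ a ∈ Q, 2 := sum_le_sum fun a ha => card_image_le.trans
        (bad (show q ≠ a from fun e => hqr (by rw [e]; exact hQ a ha)) Q hQ)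
      _ = 2 * Q.card := by rw [sum_const, smul_eq_mul, mul_comm]
  have hsum : Bd.card + Gd.card = Q.card * Q.card - Q.card := by
    rw [hBd, hGd, ← offDiag_card]
    exact card_filter_add_card_filter_not _
  refine ⟨Gd.image (fun p => sides q p.1 p.2), ?_, ?_, ?_⟩
  · rw [disjoint_right]
    intro s hs
    obtain ⟨p, hp, rfl⟩ := mem_image.1 hs
    rw [hGd, mem_filter, mem_offDiag] at hp
    exact good hr hqr Q hQ hp.1.1 hp.1.2.1 hp.1.2.2 hp.2
  · have h8 : Gd.card ≤ 8 * (Gd.image (fun p => sides q p.1 p.2)).card := by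
      refine card_le_mul_card_image _ _ fun s hs => ?_
      refine fib8 hq hqr hr s _ ?_ ?_
      · intro p hp
        have := (mem_filter.1 hp).1
        rw [hGd, mem_filter, mem_offDiag] at this
        exact ⟨hQ _ this.1.1, hQ _ this.1.2.1⟩
      · intro p hp
        exact (mem_filter.1 hp).2
    have h9 : Q.card * Q.card ≤ (Q.card * Q.card - Q.card) + Q.card := by omega
    rw [sq]
    omega
  · intro s hs
    obtain ⟨p, hp, rfl⟩ := mem_image.1 hs
    rw [hGd, mem_filter, mem_offDiag] at hp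
    exact ⟨p.1, hp.1.1, p.2, hp.1.2.1, hp.1.2.2, rfl⟩

lemma outer' {c q : EuclideanSpace ℝ (Fin 2)} {r : ℝ} (hr : 0 < r) (hq : q ≠ c)
    (hqr : dist q c ≠ r) (Q : Finset (EuclideanSpace ℝ (Fin 2))) (hQ : ∀ x ∈ Q, dist x c = r) :
    ∃ S : Finset (Multiset ℝ), Disjoint (tri Q) S ∧ Q.card ^ 2 ≤ 4 * S.card + 7 * Q.card ∧
      ∀ s ∈ S, ∃ a ∈ Q, ∃ b ∈ Q, a ≠ b ∧ s = sides q a b := by
  classical
  set bd : EuclideanSpace ℝ (Fin 2) × EuclideanSpace ℝ (Fin 2) → Prop := fun p =>
    dist p.2 (c + q - p.1) = r ∨ dist p.2 (q + p.1 - c) = r ∨ dist p.1 (q + p.2 - c) = r with hbd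
  set Gd := Q.offDiag.filter (fun p => ¬ bd p) with hGd
  set Bd := Q.offDiag.filter (fun p => bd p) with hBd
  have b1 : ∀ a ∈ Q, (Q.filter (fun b => dist b (c + q - a) = r)).card ≤ 2 := fun a ha =>
    bad (show q ≠ a from fun e => hqr (by rw [e]; exact hQ a ha)) Q hQ
  have b2 : ∀ a ∈ Q, (Q.filter (fun b => dist b (q + a - c) = r)).card ≤ 2 := by
    intro a ha
    refine two_pts (c := c) (c' := q + a - c) (r := r) (r' := r) ?_ _
      (fun x hx => hQ x (mem_filter.1 hx).1) (fun x hx => (mem_filter.1 hx).2)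
    intro h
    apply hqr
    have h5 : q - c = c - a := by
      rw [sub_eq_sub_iff_add_eq_add]
      exact (sub_eq_iff_eq_add.1 h.symm)
    rw [dist_eq_norm, h5, ← dist_eq_norm, dist_comm]
    exact hQ a ha
  have b3 : ∀ a ∈ Q, (Q.filter (fun b => dist a (q + b - c) = r)).card ≤ 2 := by
    intro a ha
    refine two_pts (c := c) (c' := c + a - q) (r := r) (r' := r) ?_ _
      (fun x hx => hQ x (mem_filter.1 hx).1) (fun x hx => ?_)
    · intro h
      apply hqr
      have h5 : a - q = 0 := by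
        have h6 : c + (a - q) = c + 0 := by rw [add_zero, ← add_sub_assoc]; exact h.symm
        exact add_left_cancel h6
      rw [← sub_eq_zero.1 h5]
      exact hQ a ha
    · have := (mem_filter.1 hx).2
      rw [← this, dist_eq_norm, dist_eq_norm, ← norm_neg]
      congr 1
      abel
  have hB : Bd.card ≤ 6 * Q.card := by
    have hsub : Bd ⊆ Q.biUnion (fun a => ((Q.filter (fun b => dist b (c + q - a) = r)) ∪
        ((Q.filter (fun b => dist b (q + a - c) = r)) ∪
        (Q.filter (fun b => dist a (q + b - c) = r)))).image (fun b => (a, b))) := by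
      intro p hp
      rw [hBd, mem_filter, mem_offDiag] at hp
      rw [mem_biUnion]
      refine ⟨p.1, hp.1.1, ?_⟩
      rw [mem_image]
      refine ⟨p.2, ?_, rfl⟩
      rw [mem_union, mem_union, mem_filter, mem_filter, mem_filter]
      rcases hp.2 with h | h | h
      · exact Or.inl ⟨hp.1.2.1, h⟩
      · exact Or.inr (Or.inl ⟨hp.1.2.1, h⟩)
      · exact Or.inr (Or.inr ⟨hp.1.2.1, h⟩)
    calc Bd.card ≤ _ := card_le_card hsub
      _ ≤ ∑ a ∈ Q, _ := card_biUnion_le
      _ ≤ ∑ a ∈ Q, 6 := sum_le_sum fun a ha => card_image_le.trans (by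
        refine (card_union_le _ _).trans ?_
        have := card_union_le (Q.filter (fun b => dist b (q + a - c) = r))
          (Q.filter (fun b => dist a (q + b - c) = r))
        have h1 := b1 a ha
        have h2 := b2 a ha
        have h3 := b3 a ha
        omega)
      _ = 6 * Q.card := by rw [sum_const, smul_eq_mul, mul_comm]
  have hsum : Bd.card + Gd.card = Q.card * Q.card - Q.card := by
    rw [hBd, hGd, ← offDiag_card]
    exact card_filter_add_card_filter_not _
  refine ⟨Gd.image (fun p => sides q p.1 p.2), ?_, ?_, ?_⟩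
  · rw [disjoint_right]
    intro s hs
    obtain ⟨p, hp, rfl⟩ := mem_image.1 hs
    rw [hGd, mem_filter, mem_offDiag] at hp
    exact good hr hqr Q hQ hp.1.1 hp.1.2.1 hp.1.2.2 (fun e => hp.2 (Or.inl e))
  · have h8 : Gd.card ≤ 4 * (Gd.image (fun p => sides q p.1 p.2)).card := by
      refine card_le_mul_card_image _ _ fun s hs => ?_
      refine fib4 hq hqr hr s _ ?_ ?_ ?_
      · intro p hp
        have := (mem_filter.1 hp).1
        rw [hGd, mem_filter, mem_offDiag] at this
        exact ⟨hQ _ this.1.1, hQ _ this.1.2.1⟩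
      · intro p hp
        exact (mem_filter.1 hp).2
      · intro p hp
        have := (mem_filter.1 hp).1
        rw [hGd, mem_filter, mem_offDiag] at this
        exact ⟨fun e => this.2 (Or.inr (Or.inl e)), fun e => this.2 (Or.inr (Or.inr e))⟩
    have h9 : Q.card * Q.card ≤ (Q.card * Q.card - Q.card) + Q.card := by omega
    rw [sq]
    omega
  · intro s hs
    obtain ⟨p, hp, rfl⟩ := mem_image.1 hs
    rw [hGd, mem_filter, mem_offDiag] at hp
    exact ⟨p.1, hp.1.1, p.2, hp.1.2.1, hp.1.2.2, rfl⟩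

lemma center {c : EuclideanSpace ℝ (Fin 2)} {r : ℝ} (hr : 0 < r)
    (Q : Finset (EuclideanSpace ℝ (Fin 2))) (hQ : ∀ x ∈ Q, dist x c = r) :
    ∃ S : Finset (Multiset ℝ), Disjoint (tri Q) S ∧ Q.card ≤ 2 * S.card + 3 ∧
      ∀ s ∈ S, ∃ a ∈ Q, ∃ b ∈ Q, a ≠ b ∧ s = sides c a b := by
  classical
  rcases Q.eq_empty_or_nonempty with h0 | ⟨a, ha⟩
  · exact ⟨∅, disjoint_empty_right _, by rw [h0]; simp, by simp⟩
  have hcc : dist c c ≠ r := by rw [dist_self]; exact hr.ne
  have hca : c ≠ a := fun e => hcc (by rw [← hQ a ha, ← e])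
  set W := (Q.erase a).filter (fun b => ¬ dist b (c + c - a) = r) with hW
  have hsum : ((Q.erase a).filter (fun b => dist b (c + c - a) = r)).card + W.card =
      Q.card - 1 := by
    rw [hW, ← card_erase_of_mem ha]
    exact card_filter_add_card_filter_not _
  have hB : ((Q.erase a).filter (fun b => dist b (c + c - a) = r)).card ≤ 2 :=
    bad hca (Q.erase a) (fun x hx => hQ x (mem_of_mem_erase hx))
  refine ⟨W.image (fun b => sides c a b), ?_, ?_, ?_⟩
  · rw [disjoint_right]
    intro s hs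
    obtain ⟨b, hb, rfl⟩ := mem_image.1 hs
    rw [hW, mem_filter, mem_erase] at hb
    exact good hr hcc Q hQ ha hb.1.2 hb.1.1.symm hb.2
  · have h2 : W.card ≤ 2 * (W.image (fun b => sides c a b)).card := by
      refine card_le_mul_card_image _ _ fun s hs => ?_
      have hd : ∀ x ∈ W.filter (fun b => sides c a b = s), dist x a = s.sum - 2 * r := by
        intro x hx
        rw [mem_filter] at hx
        have hxQ : x ∈ Q := by
          have := hx.1
          rw [hW, mem_filter, mem_erase] at this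
          exact this.1.2
        rw [← hx.2]
        simp only [sides, Multiset.insert_eq_cons, Multiset.sum_cons, Multiset.sum_singleton]
        rw [dist_comm c a, hQ a ha, dist_comm c x, hQ x hxQ, dist_comm x a]
        ring
      refine two_pts (r := r) hca _ (fun x hx => ?_) hd
      rw [mem_filter] at hx
      have := hx.1
      rw [hW, mem_filter, mem_erase] at this
      exact hQ x this.1.2
    have hpos : 1 ≤ Q.card := card_pos.2 ⟨a, ha⟩
    omega
  · intro s hs
    obtain ⟨b, hb, rfl⟩ := mem_image.1 hs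
    rw [hW, mem_filter, mem_erase] at hb
    exact ⟨a, ha, b, hb.1.2, hb.1.1.symm, rfl⟩

lemma sq_mod (m : ℕ) : m ^ 2 % 12 = 0 ∨ m ^ 2 % 12 = 1 ∨ m ^ 2 % 12 = 4 ∨ m ^ 2 % 12 = 9 := by
  rw [Nat.pow_mod]
  have : m % 12 < 12 := Nat.mod_lt _ (by norm_num)
  interval_cases m % 12 <;> simp

lemma arith1 {m n S : ℕ} (h8 : m ^ 2 ≤ 8 * S + 3 * m) (h : 2 * n ^ 2 + 9 * m ≤ 5 * m ^ 2 + 9) :
    (n ^ 2 + 6) / 12 ≤ (m ^ 2 + 6) / 12 + S := by
  have h1 := sq_mod m
  have h2 := sq_mod n
  omega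

lemma arith1' {m n S : ℕ} (h8 : m ^ 2 ≤ 4 * S + 7 * m) (h : n ^ 2 + 21 * m ≤ 4 * m ^ 2 + 4) :
    (n ^ 2 + 6) / 12 ≤ (m ^ 2 + 6) / 12 + S := by
  have h1 := sq_mod m
  have h2 := sq_mod n
  omega

lemma arith2 {m S : ℕ} (hm : 3 ≤ m) (h8 : m ^ 2 ≤ 8 * S + 3 * m) :
    ((m + 1) ^ 2 + 6) / 12 ≤ (m ^ 2 + 6) / 12 + S := by
  rcases Nat.lt_or_ge m 4 with h | h
  · interval_cases m
    omega
  · exact arith1 h8 (by nlinarith)

lemma arith3 {m S : ℕ} (hm : 3 ≤ m) (h : m ≤ 2 * S + 3) :
    ((m + 1) ^ 2 + 6) / 12 ≤ (m ^ 2 + 6) / 12 + S := by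
  have h1 := sq_mod m
  have h2 := sq_mod (m + 1)
  have h3 : (m + 1) ^ 2 = m ^ 2 + 2 * m + 1 := by ring
  rcases Nat.lt_or_ge m 4 with h4 | h4
  · interval_cases m
    omega
  · rw [h3] at *
    omega

/-- If all points of a finite plane set `P` but at most one lie on a circle, or if a circle contains
`m` points of `P` with `|P| ^ 2 + 21 m ≤ 4 m ^ 2 + 4` (which holds if `m ≥ |P| / 2 + 21 / 8`) or
`2 |P| ^ 2 + 9 m ≤ 5 m ^ 2 + 9`, then `P` determines at least `[|P| ^ 2 / 12]` distinct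
triangles. -/
theorem result (P : Finset (EuclideanSpace ℝ (Fin 2))) (c : EuclideanSpace ℝ (Fin 2)) (r : ℝ)
    (m : ℕ) (hm : m = {x | x ∈ P ∧ dist x c = r}.ncard)
    (h : P.card ≤ m + 1 ∨ P.card ^ 2 + 21 * m ≤ 4 * m ^ 2 + 4 ∨
      2 * P.card ^ 2 + 9 * m ≤ 5 * m ^ 2 + 9) :
    (P.card ^ 2 + 6) / 12 ≤ T P := by
  classical
  set Q := P.filter (fun x => dist x c = r) with hQdef
  have hmQ : m = Q.card := by
    rw [hm, ← Set.ncard_coe_finset]
    congr 1
    ext x
    simp [hQdef]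
  have hQP : Q ⊆ P := filter_subset _ _
  have hQ : ∀ x ∈ Q, dist x c = r := fun x hx => (mem_filter.1 hx).2
  have hle : Q.card ≤ P.card := card_le_card hQP
  have small : P.card ≤ 2 → (P.card ^ 2 + 6) / 12 ≤ T P := by
    intro h2
    interval_cases P.card <;> simp
  rcases le_or_gt r 0 with hr | hr
  · have h1 : Q.card ≤ 1 := by
      refine card_le_one.2 fun x hx y hy => ?_
      have hx' : dist x c = 0 := le_antisymm ((hQ x hx).le.trans hr) dist_nonneg
      have hy' : dist y c = 0 := le_antisymm ((hQ y hy).le.trans hr) dist_nonneg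
      rw [dist_eq_zero.1 hx', dist_eq_zero.1 hy']
    apply small
    rw [← hmQ] at h1
    rcases h with h | h | h
    · omega
    · interval_cases m <;> nlinarith
    · interval_cases m <;> nlinarith
  have hcirc : (Q.card ^ 2 + 6) / 12 ≤ (tri Q).card :=
    circ Q c r hr hQ (tri Q) fun x hx y hy z hz h1 h2 h3 =>
      mem_tri.2 ⟨x, hx, y, hy, z, hz, h1, h2, h3, rfl⟩
  rcases Nat.eq_or_lt_of_le hle with he | hlt
  · rw [T_eq, ← eq_of_subset_of_card_le hQP he.ge]
    exact hcirc
  have hsd : (P \ Q).card = P.card - Q.card := card_sdiff_of_subset hQP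
  rcases Nat.lt_or_ge P.card 3 with h3 | h3
  · exact small (by omega)
  rcases Nat.eq_or_lt_of_le h3 with h3' | h3'
  · rw [← h3']
    exact (show (3 ^ 2 + 6) / 12 ≤ 1 by norm_num).trans (T_pos h3)
  have hout : ∀ q ∈ P \ Q, dist q c ≠ r := fun q hq e =>
    (mem_sdiff.1 hq).2 (mem_filter.2 ⟨(mem_sdiff.1 hq).1, e⟩)
  rw [hmQ] at h
  by_cases hex : ∃ q ∈ P \ Q, q ≠ c
  · obtain ⟨q, hq, hqc⟩ := hex
    obtain ⟨S, hd, h8, hS⟩ := outer hr hqc (hout q hq) Q hQ
    have hT := add_T hQP (mem_sdiff.1 hq).1 (mem_sdiff.1 hq).2 S hd hS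
    obtain ⟨S', hd', h8', hS'⟩ := outer' hr hqc (hout q hq) Q hQ
    have hT' := add_T hQP (mem_sdiff.1 hq).1 (mem_sdiff.1 hq).2 S' hd' hS'
    rcases h with h | h | h
    · have key : (P.card ^ 2 + 6) / 12 ≤ (Q.card ^ 2 + 6) / 12 + S.card := by
        rw [show P.card = Q.card + 1 by omega]
        exact arith2 (by omega) h8
      omega
    · have key := arith1' h8' h
      omega
    · have key := arith1 h8 h
      omega
  · push Not at hex
    have h1 : (P \ Q).card ≤ 1 := card_le_one.2 fun x hx y hy => by rw [hex x hx, hex y hy]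
    obtain ⟨q, hq⟩ : (P \ Q).Nonempty := card_pos.1 (by omega)
    have hqc := hex q hq
    subst hqc
    obtain ⟨S, hd, h8, hS⟩ := center hr Q hQ
    have hT := add_T hQP (mem_sdiff.1 hq).1 (mem_sdiff.1 hq).2 S hd hS
    have key : (P.card ^ 2 + 6) / 12 ≤ (Q.card ^ 2 + 6) / 12 + S.card := by
      rw [show P.card = Q.card + 1 by omega]
      exact arith3 (by omega) h8
    omega

end Pool.Agent.Results.MP_dc37f8_co.Concyclic
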