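import Mathlib

/-!
# Sets with many collinear points and the number of distinct triangles of regular polygons

A triangle is a triple of distinct points (possibly collinear); two triangles are congruent if and
only if they have the same multiset of pairwise distances.  Let `P` be a set of `n` points, `m` of
which lie on a line, and let there be `D` points of `P` with different positive distances from the
line.  If `n ^ 2 + (12 D ^ 2 - 9 D + 6) m ≤ 3 (D + 1) m ^ 2 + 8`, then `P` determines at least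
`[n ^ 2 / 12]` (nearest integer) pairwise non-congruent triangles, the number for the regular
`n`-gon.

Proof.  (1) The degenerate triangles with the first point of the line as a vertex: a class with given
longest side contains at most two of them.  This gives `(m - 1) ^ 2 / 4` classes (rounded down).
(2) The triangles `q a b` with `a`, `b` on the line and `q` at distance `h` from it: since
`16 area ^ 2 = 4 h ^ 2 |ab| ^ 2` is determined by the class, so is `|ab|`, and at most four ordered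
pairs `a`, `b` give congruent triangles.  If such a triangle is congruent to a triangle `q' a' b'`
with the point `q'` at another distance `h'`, then `h |ab| = h' |qa|` or `h |ab| = h' |qb|`, and this
holds for at most `4 m` pairs.  Together `D` points `q` give `D (m ^ 2 - (4 D - 3) m) / 4` classes.
-/

set_option autoImplicit false

namespace Pool.Agent.Results.MP_dc37f8_co.ManyCollinear

open Finset

/-- The multiset of the pairwise distances of three points. -/
noncomputable def sides (a b c : EuclideanSpace ℝ (Fin 2)) : Multiset ℝ :=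
  {dist a b, dist b c, dist a c}

/-- The number of congruence classes of triangles (triples of distinct points) of `P`. -/
noncomputable def T (P : Finset (EuclideanSpace ℝ (Fin 2))) : ℕ :=
  {s : Multiset ℝ | ∃ a ∈ P, ∃ b ∈ P, ∃ c ∈ P, a ≠ b ∧ b ≠ c ∧ a ≠ c ∧ s = sides a b c}.ncard

/-- square of the distance in coordinates -/
lemma dist_sq (x y : EuclideanSpace ℝ (Fin 2)) :
    dist x y ^ 2 = (x 0 - y 0) ^ 2 + (x 1 - y 1) ^ 2 := by
  rw [EuclideanSpace.dist_eq, Real.sq_sqrt (sum_nonneg fun _ _ => sq_nonneg _), Fin.sum_univ_two,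
    Real.dist_eq, Real.dist_eq, sq_abs, sq_abs]

lemma sgn {p p' t t' : ℝ} (hp : p ^ 2 = p' ^ 2) (ht : t ^ 2 = t' ^ 2) (h : p * t = p' * t') :
    (p = p' ∧ t = t') ∨ (p = -p' ∧ t = -t') := by
  rcases sq_eq_sq_iff_eq_or_eq_neg.1 hp with h1 | h1 <;>
    rcases sq_eq_sq_iff_eq_or_eq_neg.1 ht with h2 | h2
  · exact Or.inl ⟨h1, h2⟩
  · subst h1 h2
    have : p * t' = 0 := by linarith
    rcases mul_eq_zero.1 this with h3 | h3
    · right; exact ⟨by rw [h3]; simp, rfl⟩
    · left; exact ⟨rfl, by rw [h3]; simp⟩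
  · subst h1 h2
    have : p' * t = 0 := by linarith
    rcases mul_eq_zero.1 this with h3 | h3
    · left; exact ⟨by rw [h3]; simp, rfl⟩
    · right; exact ⟨rfl, by rw [h3]; simp⟩
  · exact Or.inr ⟨h1, h2⟩

/-- the congruence classes of triangles of `P` as a finite set -/
noncomputable def tri (P : Finset (EuclideanSpace ℝ (Fin 2))) : Finset (Multiset ℝ) := by
  classical
  exact ((P ×ˢ P ×ˢ P).filter
    (fun t => t.1 ≠ t.2.1 ∧ t.2.1 ≠ t.2.2 ∧ t.1 ≠ t.2.2)).image (fun t => sides t.1 t.2.1 t.2.2)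

lemma mem_tri {P : Finset (EuclideanSpace ℝ (Fin 2))} {s : Multiset ℝ} : s ∈ tri P ↔
    ∃ a ∈ P, ∃ b ∈ P, ∃ c ∈ P, a ≠ b ∧ b ≠ c ∧ a ≠ c ∧ s = sides a b c := by
  classical
  simp only [tri, mem_image, mem_filter, mem_product, Prod.exists]
  constructor
  · rintro ⟨a, b, c, ⟨⟨ha, hb, hc⟩, h1, h2, h3⟩, rfl⟩
    exact ⟨a, ha, b, hb, c, hc, h1, h2, h3, rfl⟩
  · rintro ⟨a, ha, b, hb, c, hc, h1, h2, h3, rfl⟩
    exact ⟨a, b, c, ⟨⟨ha, hb, hc⟩, h1, h2, h3⟩, rfl⟩

lemma T_eq (P : Finset (EuclideanSpace ℝ (Fin 2))) : T P = (tri P).card := by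
  unfold T
  rw [← Set.ncard_coe_finset]
  congr 1
  ext s
  rw [mem_coe, mem_tri]
  rfl

lemma sq_mod (m : ℕ) : m ^ 2 % 12 = 0 ∨ m ^ 2 % 12 = 1 ∨ m ^ 2 % 12 = 4 ∨ m ^ 2 % 12 = 9 := by
  rw [Nat.pow_mod]
  have : m % 12 < 12 := Nat.mod_lt _ (by norm_num)
  interval_cases m % 12 <;> simp

lemma sum_half (m : ℕ) : ∑ k ∈ Ico 2 m, k / 2 = (m - 1) ^ 2 / 4 := by
  induction m with
  | zero => simp
  | succ n ih =>
    rcases Nat.lt_or_ge n 2 with h | h
    · interval_cases n <;> simp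
    · rw [sum_Ico_succ_top h, ih, Nat.add_sub_cancel]
      obtain ⟨k, rfl | rfl⟩ : ∃ k, n = 2 * k ∨ n = 2 * k + 1 := ⟨n / 2, by omega⟩
      · have h1 : 1 ≤ k := by omega
        obtain ⟨j, rfl⟩ : ∃ j, k = j + 1 := ⟨k - 1, by omega⟩
        have e1 : (2 * (j + 1) - 1) ^ 2 = 4 * (j * j + j) + 1 := by
          rw [show 2 * (j + 1) - 1 = 2 * j + 1 by omega]; ring
        have e2 : (2 * (j + 1)) ^ 2 = 4 * (j * j + j) + 4 * (j + 1) := by ring
        rw [e1, e2]
        omega
      · have e1 : (2 * k + 1 - 1) ^ 2 = 4 * (k * k) := by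
          rw [Nat.add_sub_cancel]; ring
        have e2 : (2 * k + 1) ^ 2 = 4 * (k * k) + 4 * k + 1 := by ring
        rw [e1, e2]
        omega

lemma lin1 (M : Finset (EuclideanSpace ℝ (Fin 2))) (τ : EuclideanSpace ℝ (Fin 2) → ℝ)
    (hd : ∀ x ∈ M, ∀ y ∈ M, dist x y = |τ x - τ y|) :
    (M.card - 1) ^ 2 / 4 ≤ (tri M).card := by
  classical
  have hinj : Set.InjOn τ M := by
    intro x hx y hy hxy
    rw [← dist_eq_zero, hd x hx y hy, hxy, sub_self, abs_zero]
  set n := M.card with hndef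
  have hA : (M.image τ).card = n := card_image_of_injOn hinj
  set e := (M.image τ).orderEmbOfFin hA with he
  have hp : ∀ i : Fin n, ∃ x ∈ M, τ x = e i := by
    intro i
    have := (M.image τ).orderEmbOfFin_mem hA i
    rw [mem_image] at this
    exact this
  choose p hpP hpe using hp
  rw [← sum_half]
  rcases Nat.eq_zero_or_pos n with h0 | hn
  · rw [h0]; simp
  set t : ℕ → ℝ := fun k => if h : k < n then e ⟨k, h⟩ else 0 with ht
  have htlt : ∀ j k, j < k → k < n → t j < t k := by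
    intro j k hjk hk
    simp only [ht, hk, show j < n by omega, dif_pos]
    exact e.strictMono (by simpa [Fin.lt_def] using hjk)
  have hx : ∀ k, k < n → ∃ x ∈ M, τ x = t k := by
    intro k hk
    refine ⟨p ⟨k, hk⟩, hpP _, ?_⟩
    simp only [ht, hk, dif_pos]
    exact hpe _
  set F : ℕ → ℕ → Multiset ℝ := fun k j => {t j - t 0, t k - t j, t k - t 0} with hF
  have hF1 : ∀ k j, 0 < j → j < k → k < n → F k j ∈ tri M := by
    intro k j hj hjk hk
    obtain ⟨x, hxM, hx0⟩ := hx 0 hn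
    obtain ⟨y, hyM, hy⟩ := hx j (by omega)
    obtain ⟨z, hzM, hz⟩ := hx k hk
    have l1 := htlt 0 j hj (by omega)
    have l2 := htlt j k hjk hk
    rw [mem_tri]
    refine ⟨x, hxM, y, hyM, z, hzM, ?_, ?_, ?_, ?_⟩
    · intro h; rw [h] at hx0; linarith
    · intro h; rw [h] at hy; linarith
    · intro h; rw [h] at hx0; linarith
    · unfold sides
      rw [hd x hxM y hyM, hd y hyM z hzM, hd x hxM z hzM, hx0, hy, hz, abs_sub_comm (t 0) (t j),
        abs_sub_comm (t j) (t k), abs_sub_comm (t 0) (t k), abs_of_pos (by linarith),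
        abs_of_pos (by linarith), abs_of_pos (by linarith)]
  set I : ℕ → Finset (Multiset ℝ) := fun k => (Ico 1 k).image (F k) with hI
  have hcard : ∀ k ∈ Ico 2 n, k / 2 ≤ (I k).card := by
    intro k hk
    rw [mem_Ico] at hk
    have h2 : (Ico 1 k).card ≤ 2 * (I k).card := by
      refine card_le_mul_card_image _ _ fun s hs => ?_
      by_contra hcon
      push Not at hcon
      obtain ⟨x, y, z, hx, hy, hz, hxy, hxz, hyz⟩ := two_lt_card_iff.1 hcon
      simp only [mem_filter, mem_Ico] at hx hy hz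
      have key : ∀ i j, 1 ≤ i → i < k → 1 ≤ j → j < k → F k i = F k j →
          i = j ∨ t i + t j = t k + t 0 := by
        intro i j hi hik hj hjk he
        have h3 := congrArg (fun s => (Multiset.map (fun x : ℝ => x ^ 2) s).sum) he
        simp only [hF, Multiset.insert_eq_cons, Multiset.map_cons, Multiset.map_singleton,
          Multiset.sum_cons, Multiset.sum_singleton] at h3
        have h4 : (t i - t j) * (t i + t j - (t k + t 0)) = 0 := by linear_combination h3 / 2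
        rcases mul_eq_zero.1 h4 with h5 | h5
        · left
          rcases lt_trichotomy i j with h6 | h6 | h6
          · have := htlt i j h6 (by omega)
            linarith
          · exact h6
          · have := htlt j i h6 (by omega)
            linarith
        · right; linarith
      have inj : ∀ i j, i < k → j < k → t i = t j → i = j := by
        intro i j hi hj h
        rcases lt_trichotomy i j with h6 | h6 | h6
        · have := htlt i j h6 (by omega)
          linarith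
        · exact h6
        · have := htlt j i h6 (by omega)
          linarith
      rcases key x y (by omega) (by omega) (by omega) (by omega) (by rw [hx.2, hy.2]) with a1 | a1
      · exact hxy a1
      rcases key x z (by omega) (by omega) (by omega) (by omega) (by rw [hx.2, hz.2]) with a2 | a2
      · exact hxz a2
      exact hyz (inj y z (by omega) (by omega) (by linarith))
    rw [Nat.card_Ico] at h2
    omega
  have hdisj : ∀ k ∈ Ico 2 n, ∀ k' ∈ Ico 2 n, k ≠ k' → Disjoint (I k) (I k') := by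
    intro k hk k' hk' hne
    rw [mem_Ico] at hk hk'
    rw [disjoint_left]
    intro s hs hs'
    obtain ⟨j, hj, hjs⟩ := mem_image.1 hs
    obtain ⟨j', hj', hjs'⟩ := mem_image.1 hs'
    have h3 := congrArg Multiset.sum (hjs.trans hjs'.symm)
    simp only [hF, Multiset.insert_eq_cons, Multiset.sum_cons, Multiset.sum_singleton] at h3
    rcases lt_or_gt_of_ne hne with h | h
    · have := htlt k k' h hk'.2
      linarith
    · have := htlt k' k h hk.2
      linarith
  calc ∑ k ∈ Ico 2 n, k / 2 ≤ ∑ k ∈ Ico 2 n, (I k).card := sum_le_sum hcard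
    _ = ((Ico 2 n).biUnion I).card := (card_biUnion hdisj).symm
    _ ≤ (tri M).card := by
        refine card_le_card fun s hs => ?_
        obtain ⟨k, hk, hs⟩ := mem_biUnion.1 hs
        obtain ⟨j, hj, rfl⟩ := mem_image.1 hs
        rw [mem_Ico] at hk hj
        exact hF1 k j (by omega) (by omega) hk.2

/-- `16` times the square of the area of a triangle -/
noncomputable def Hn (s : Multiset ℝ) : ℝ := (s.map (· ^ 2)).sum ^ 2 - 2 * (s.map (· ^ 4)).sum

lemma Hn_sides (a b c : EuclideanSpace ℝ (Fin 2)) : Hn (sides a b c) =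
    (dist a b ^ 2 + dist b c ^ 2 + dist a c ^ 2) ^ 2 -
      2 * ((dist a b ^ 2) ^ 2 + (dist b c ^ 2) ^ 2 + (dist a c ^ 2) ^ 2) := by
  unfold Hn sides
  simp only [Multiset.insert_eq_cons, Multiset.map_cons, Multiset.map_singleton,
    Multiset.sum_cons, Multiset.sum_singleton]
  ring

/-- at most four ordered pairs of points of the line form with `q` a triangle of a given
congruence class -/
lemma fibl {q : EuclideanSpace ℝ (Fin 2)} {σ : EuclideanSpace ℝ (Fin 2) → ℝ} {H : ℝ} (hH : 0 < H)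
    (M : Finset (EuclideanSpace ℝ (Fin 2))) (h1 : ∀ x ∈ M, dist q x ^ 2 = σ x ^ 2 + H)
    (h2 : ∀ x ∈ M, ∀ y ∈ M, dist x y ^ 2 = (σ x - σ y) ^ 2) (s : Multiset ℝ)
    (S : Finset (EuclideanSpace ℝ (Fin 2) × EuclideanSpace ℝ (Fin 2)))
    (hS : ∀ p ∈ S, p.1 ∈ M ∧ p.2 ∈ M) (hs : ∀ p ∈ S, sides q p.1 p.2 = s) : S.card ≤ 4 := by
  classical
  rcases S.eq_empty_or_nonempty with h0 | ⟨p₀, hp₀⟩
  · rw [h0]; simp
  have hHn : ∀ p ∈ S, Hn s = 4 * H * dist p.1 p.2 ^ 2 := by
    intro p hp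
    obtain ⟨ha, hb⟩ := hS p hp
    rw [← hs p hp, Hn_sides, h1 _ ha, h1 _ hb, h2 _ ha _ hb]
    ring
  have hinj : Set.InjOn (fun p : EuclideanSpace ℝ (Fin 2) × EuclideanSpace ℝ (Fin 2) =>
      (σ p.1, σ p.2)) S := by
    intro x hx y hy hxy
    obtain ⟨hx1, hx2⟩ := hS x hx
    obtain ⟨hy1, hy2⟩ := hS y hy
    have e1 : σ x.1 = σ y.1 := congrArg Prod.fst hxy
    have e2 : σ x.2 = σ y.2 := congrArg Prod.snd hxy
    have f1 := h2 _ hx1 _ hy1
    have f2 := h2 _ hx2 _ hy2
    rw [e1, sub_self, zero_pow two_ne_zero] at f1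
    rw [e2, sub_self, zero_pow two_ne_zero] at f2
    exact Prod.ext (dist_eq_zero.1 (pow_eq_zero_iff two_ne_zero |>.1 f1))
      (dist_eq_zero.1 (pow_eq_zero_iff two_ne_zero |>.1 f2))
  have himg : S.image (fun p => (σ p.1, σ p.2)) ⊆ {(σ p₀.1, σ p₀.2), (-σ p₀.1, -σ p₀.2),
      (σ p₀.2, σ p₀.1), (-σ p₀.2, -σ p₀.1)} := by
    intro u hu
    obtain ⟨p, hp, rfl⟩ := mem_image.1 hu
    obtain ⟨ha, hb⟩ := hS p hp
    obtain ⟨ha₀, hb₀⟩ := hS p₀ hp₀
    have e0 : dist p.1 p.2 ^ 2 = dist p₀.1 p₀.2 ^ 2 := by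
      have := (hHn p hp).symm.trans (hHn p₀ hp₀)
      exact mul_left_cancel₀ (by positivity) this
    have e1 := e0
    rw [h2 _ ha _ hb, h2 _ ha₀ _ hb₀] at e1
    have e2 : dist p.1 p.2 = dist p₀.1 p₀.2 :=
      (pow_left_inj₀ dist_nonneg dist_nonneg two_ne_zero).1 e0
    have e3 : σ p.1 ^ 2 + σ p.2 ^ 2 = σ p₀.1 ^ 2 + σ p₀.2 ^ 2 := by
      have := congrArg (fun s => (Multiset.map (fun x : ℝ => x ^ 2) s).sum)
        ((hs p hp).trans (hs p₀ hp₀).symm)
      simp only [sides, Multiset.insert_eq_cons, Multiset.map_cons, Multiset.map_singleton,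
        Multiset.sum_cons, Multiset.sum_singleton, h1 _ ha, h1 _ hb, h1 _ ha₀, h1 _ hb₀] at this
      linarith
    have e4 : σ p.1 * σ p.2 = σ p₀.1 * σ p₀.2 := by linarith
    have e5 : (σ p.1 ^ 2 - σ p₀.1 ^ 2) * (σ p.1 ^ 2 - σ p₀.2 ^ 2) = 0 := by
      have : (σ p.1 * σ p.2) ^ 2 = (σ p₀.1 * σ p₀.2) ^ 2 := by rw [e4]
      linear_combination σ p.1 ^ 2 * e3 - this
    simp only [mem_insert, mem_singleton, Prod.mk.injEq]
    rcases mul_eq_zero.1 e5 with h5 | h5
    · rcases sgn (p := σ p.1) (p' := σ p₀.1) (t := σ p.2) (t' := σ p₀.2) (by linarith)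
        (by linarith) e4 with h6 | h6
      · exact Or.inl h6
      · exact Or.inr (Or.inl h6)
    · rcases sgn (p := σ p.1) (p' := σ p₀.2) (t := σ p.2) (t' := σ p₀.1) (by linarith)
        (by linarith) (by rw [e4, mul_comm]) with h6 | h6
      · exact Or.inr (Or.inr (Or.inl h6))
      · exact Or.inr (Or.inr (Or.inr h6))
  calc S.card = (S.image (fun p => (σ p.1, σ p.2))).card := (card_image_of_injOn hinj).symm
    _ ≤ _ := card_le_card himg
    _ ≤ 4 := card_le_four

/-- `off p v x = 0` if and only if `x` lies on the line through `p` with direction `v`; the absolute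
value is the distance of `x` from this line times `‖v‖` -/
def off (p v x : EuclideanSpace ℝ (Fin 2)) : ℝ := (x 0 - p 0) * v 1 - (x 1 - p 1) * v 0

lemma line_pts {p v : EuclideanSpace ℝ (Fin 2)} (hV : 0 < v 0 ^ 2 + v 1 ^ 2)
    (q : EuclideanSpace ℝ (Fin 2)) : ∃ σ : EuclideanSpace ℝ (Fin 2) → ℝ,
      (∀ x, off p v x = 0 → dist q x ^ 2 = σ x ^ 2 + off p v q ^ 2 / (v 0 ^ 2 + v 1 ^ 2)) ∧
      (∀ x y, off p v x = 0 → off p v y = 0 → dist x y ^ 2 = (σ x - σ y) ^ 2) := by
  set V := v 0 ^ 2 + v 1 ^ 2 with hVdef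
  have hs : Real.sqrt V ^ 2 = V := Real.sq_sqrt hV.le
  have hs0 : Real.sqrt V ≠ 0 := by
    intro h
    rw [h] at hs
    rw [← hs] at hV
    simp at hV
  refine ⟨fun x => ((x 0 - q 0) * v 0 + (x 1 - q 1) * v 1) / Real.sqrt V, ?_, ?_⟩
  · intro x hx
    have h1 : (dist q x ^ 2) * V = ((x 0 - q 0) * v 0 + (x 1 - q 1) * v 1) ^ 2 +
        off p v q ^ 2 := by
      have h2 : off p v q = - ((x 0 - q 0) * v 1 - (x 1 - q 1) * v 0) := by
        unfold off at *
        linarith
      rw [dist_sq, h2, hVdef]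
      ring
    rw [div_pow, hs]
    field_simp
    linarith
  · intro x y hx hy
    have h1 : (dist x y ^ 2) * V = (((x 0 - q 0) * v 0 + (x 1 - q 1) * v 1) -
        ((y 0 - q 0) * v 0 + (y 1 - q 1) * v 1)) ^ 2 := by
      have h2 : (x 0 - y 0) * v 1 - (x 1 - y 1) * v 0 = 0 := by
        unfold off at *
        linarith
      rw [dist_sq, hVdef]
      linear_combination ((x 0 - y 0) * v 1 - (x 1 - y 1) * v 0) * h2
    rw [← sub_div, div_pow, hs]
    field_simp
    linarith

lemma quad2 (S : Finset (EuclideanSpace ℝ (Fin 2))) (σ : EuclideanSpace ℝ (Fin 2) → ℝ)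
    (hσ : Set.InjOn σ S) {A B C : ℝ} (hA : A ≠ 0) (h : ∀ x ∈ S, A * σ x ^ 2 + B * σ x + C = 0) :
    S.card ≤ 2 := by
  by_contra hcon
  push Not at hcon
  obtain ⟨x, y, z, hx, hy, hz, hxy, hxz, hyz⟩ := two_lt_card_iff.1 hcon
  have key : ∀ u ∈ S, ∀ w ∈ S, u ≠ w → A * (σ u + σ w) + B = 0 := by
    intro u hu w hw hne
    have h1 : (σ u - σ w) * (A * (σ u + σ w) + B) = 0 := by
      linear_combination h u hu - h w hw
    exact (mul_eq_zero.1 h1).resolve_left (sub_ne_zero.2 fun e => hne (hσ hu hw e))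
  have h2 : A * (σ y - σ z) = 0 := by
    linear_combination key x hx y hy hxy - key x hx z hz hxz
  exact hyz (hσ hy hz (sub_eq_zero.1 ((mul_eq_zero.1 h2).resolve_left hA)))

lemma overl {q q' : EuclideanSpace ℝ (Fin 2)} {σ σ' : EuclideanSpace ℝ (Fin 2) → ℝ} {H H' : ℝ}
    (hne : H ≠ H') (M : Finset (EuclideanSpace ℝ (Fin 2)))
    (h1 : ∀ x ∈ M, dist q x ^ 2 = σ x ^ 2 + H)
    (h2 : ∀ x ∈ M, ∀ y ∈ M, dist x y ^ 2 = (σ x - σ y) ^ 2)
    (h1' : ∀ x ∈ M, dist q' x ^ 2 = σ' x ^ 2 + H')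
    (h2' : ∀ x ∈ M, ∀ y ∈ M, dist x y ^ 2 = (σ' x - σ' y) ^ 2)
    (B : Finset (EuclideanSpace ℝ (Fin 2) × EuclideanSpace ℝ (Fin 2)))
    (hB : ∀ p ∈ B, p.1 ∈ M ∧ p.2 ∈ M ∧ p.1 ≠ p.2 ∧ ∃ a' ∈ M, ∃ b' ∈ M,
      sides q p.1 p.2 = sides q' a' b') : B.card ≤ 4 * M.card := by
  classical
  have hinj : Set.InjOn σ M := by
    intro x hx y hy hxy
    have f1 := h2 _ hx _ hy
    rw [hxy, sub_self, zero_pow two_ne_zero] at f1
    exact dist_eq_zero.1 (pow_eq_zero_iff two_ne_zero |>.1 f1)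
  set U1 := M.biUnion (fun a => (M.filter (fun b => H * dist a b ^ 2 =
    H' * dist q b ^ 2)).image (fun b => (a, b))) with hU1
  set U2 := M.biUnion (fun b => (M.filter (fun a => H * dist b a ^ 2 =
    H' * dist q a ^ 2)).image (fun a => (a, b))) with hU2
  have cnt : ∀ a ∈ M, (M.filter (fun b => H * dist a b ^ 2 = H' * dist q b ^ 2)).card ≤ 2 := by
    intro a ha
    refine quad2 _ σ (hinj.mono fun x hx => (mem_filter.1 hx).1) (A := H - H')
      (B := -2 * H * σ a) (C := H * σ a ^ 2 - H' * H) (sub_ne_zero.2 hne) fun b hb => ?_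
    have h3 := (mem_filter.1 hb).2
    rw [h2 a ha b (mem_filter.1 hb).1, h1 b (mem_filter.1 hb).1] at h3
    linear_combination h3
  have c1 : U1.card ≤ 2 * M.card := by
    calc U1.card ≤ ∑ a ∈ M, _ := card_biUnion_le
      _ ≤ ∑ a ∈ M, 2 := sum_le_sum fun a ha => card_image_le.trans (cnt a ha)
      _ = 2 * M.card := by rw [sum_const, smul_eq_mul, mul_comm]
  have c2 : U2.card ≤ 2 * M.card := by
    calc U2.card ≤ ∑ a ∈ M, _ := card_biUnion_le
      _ ≤ ∑ a ∈ M, 2 := sum_le_sum fun a ha => card_image_le.trans (cnt a ha)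
      _ = 2 * M.card := by rw [sum_const, smul_eq_mul, mul_comm]
  have hsub : B ⊆ U1 ∪ U2 := by
    intro p hp
    obtain ⟨ha, hb, hab, a', ha', b', hb', he⟩ := hB p hp
    have e1 : Hn (sides q p.1 p.2) = 4 * H * dist p.1 p.2 ^ 2 := by
      rw [Hn_sides, h1 _ ha, h1 _ hb, h2 _ ha _ hb]
      ring
    have e2 : Hn (sides q' a' b') = 4 * H' * dist a' b' ^ 2 := by
      rw [Hn_sides, h1' _ ha', h1' _ hb', h2' _ ha' _ hb']
      ring
    have e3 : H * dist p.1 p.2 ^ 2 = H' * dist a' b' ^ 2 := by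
      rw [he, e2] at e1
      linarith
    have hm : dist a' b' ∈ sides q' a' b' := by
      unfold sides
      simp
    rw [← he] at hm
    unfold sides at hm
    simp only [Multiset.insert_eq_cons, Multiset.mem_cons, Multiset.mem_singleton] at hm
    rw [mem_union]
    rcases hm with hm | hm | hm
    · right
      rw [hm] at e3
      rw [hU2, mem_biUnion]
      exact ⟨p.2, hb, mem_image.2 ⟨p.1, mem_filter.2 ⟨ha, by rw [dist_comm p.2 p.1]; exact e3⟩,
        rfl⟩⟩
    · exfalso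
      rw [hm] at e3
      exact hne (mul_right_cancel₀ (pow_ne_zero 2 (dist_ne_zero.2 hab)) e3)
    · left
      rw [hm] at e3
      rw [hU1, mem_biUnion]
      exact ⟨p.1, ha, mem_image.2 ⟨p.2, mem_filter.2 ⟨hb, e3⟩, rfl⟩⟩
  have := card_le_card hsub
  have u1 := card_union_le U1 U2
  omega

lemma ltypes (P : Finset (EuclideanSpace ℝ (Fin 2))) {p v : EuclideanSpace ℝ (Fin 2)}
    (hV : 0 < v 0 ^ 2 + v 1 ^ 2) (J : Finset (EuclideanSpace ℝ (Fin 2)))
    (hJ : ∀ q ∈ J, q ∈ P ∧ off p v q ≠ 0)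
    (hJ' : ∀ q ∈ J, ∀ q' ∈ J, q ≠ q' → |off p v q| ≠ |off p v q'|) :
    J.card * (P.filter (fun x => off p v x = 0)).card ^ 2 +
      4 * (((P.filter (fun x => off p v x = 0)).card - 1) ^ 2 / 4) ≤
      4 * T P + J.card * ((1 + 4 * (J.card - 1)) * (P.filter (fun x => off p v x = 0)).card) := by
  classical
  set M := P.filter (fun x => off p v x = 0) with hM
  have hMo : ∀ x ∈ M, off p v x = 0 := fun x hx => (mem_filter.1 hx).2
  have hMP : ∀ x ∈ M, x ∈ P := fun x hx => (mem_filter.1 hx).1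
  choose σ hσ1 hσ2 using fun q => line_pts (p := p) hV q
  set H : EuclideanSpace ℝ (Fin 2) → ℝ := fun q => off p v q ^ 2 / (v 0 ^ 2 + v 1 ^ 2) with hH
  have hHpos : ∀ q ∈ J, 0 < H q := fun q hq =>
    div_pos (lt_of_le_of_ne (sq_nonneg _) (pow_ne_zero 2 (hJ q hq).2).symm) hV
  have hHne : ∀ q ∈ J, ∀ q' ∈ J, q ≠ q' → H q ≠ H q' := by
    intro q hq q' hq' hne he
    apply hJ' q hq q' hq' hne
    rw [← sq_eq_sq_iff_abs_eq_abs]
    exact (div_left_inj' hV.ne').1 he
  have a1 : ∀ q, ∀ x ∈ M, dist q x ^ 2 = σ q x ^ 2 + H q := fun q x hx => hσ1 q x (hMo x hx)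
  have a2 : ∀ q, ∀ x ∈ M, ∀ y ∈ M, dist x y ^ 2 = (σ q x - σ q y) ^ 2 := fun q x hx y hy =>
    hσ2 q x y (hMo x hx) (hMo y hy)
  have hbase : (M.card - 1) ^ 2 / 4 ≤ (tri M).card := by
    refine lin1 M (σ p) fun x hx y hy => ?_
    exact (pow_left_inj₀ dist_nonneg (abs_nonneg _) two_ne_zero).1
      (by rw [sq_abs]; exact a2 p x hx y hy)
  set co : EuclideanSpace ℝ (Fin 2) → EuclideanSpace ℝ (Fin 2) →
    EuclideanSpace ℝ (Fin 2) × EuclideanSpace ℝ (Fin 2) → Prop :=
    fun q q' z => ∃ a' ∈ M, ∃ b' ∈ M, sides q z.1 z.2 = sides q' a' b' with hco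
  set Gd : EuclideanSpace ℝ (Fin 2) → Finset (EuclideanSpace ℝ (Fin 2) ×
    EuclideanSpace ℝ (Fin 2)) := fun q =>
    M.offDiag.filter (fun z => ∀ q' ∈ J, q' ≠ q → ¬ co q q' z) with hGd
  set S : EuclideanSpace ℝ (Fin 2) → Finset (Multiset ℝ) := fun q =>
    (Gd q).image (fun z => sides q z.1 z.2) with hS
  have claim1 : ∀ q ∈ J, M.card ^ 2 ≤ 4 * (S q).card + (1 + 4 * (J.card - 1)) * M.card := by
    intro q hq
    set B3 := (J.erase q).biUnion (fun q' => M.offDiag.filter (fun z => co q q' z)) with hB3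
    have k3 : B3.card ≤ 4 * (J.card - 1) * M.card := by
      calc B3.card ≤ ∑ q' ∈ J.erase q, _ := card_biUnion_le
        _ ≤ ∑ q' ∈ J.erase q, 4 * M.card := by
            refine sum_le_sum fun q' hq' => ?_
            refine overl (hHne q hq q' (mem_of_mem_erase hq') (ne_of_mem_erase hq').symm) M (a1 q) (a2 q)
              (a1 q') (a2 q') _ ?_
            intro z hz
            rw [mem_filter, mem_offDiag] at hz
            exact ⟨hz.1.1, hz.1.2.1, hz.1.2.2, hz.2⟩
        _ = 4 * (J.card - 1) * M.card := by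
            rw [sum_const, smul_eq_mul, card_erase_of_mem hq]; ring
    have k4 : (Gd q).card ≤ 4 * (S q).card := by
      refine card_le_mul_card_image _ _ fun s hs => ?_
      refine fibl (hHpos q hq) M (a1 q) (a2 q) s _ ?_ ?_
      · intro z hz
        have := (mem_filter.1 hz).1
        rw [hGd, mem_filter, mem_offDiag] at this
        exact ⟨this.1.1, this.1.2.1⟩
      · intro z hz
        exact (mem_filter.1 hz).2
    have hsub : M.offDiag ⊆ Gd q ∪ B3 := by
      intro z hz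
      rw [mem_union]
      by_cases g3 : ∀ q' ∈ J, q' ≠ q → ¬ co q q' z
      · left
        rw [hGd, mem_filter]
        exact ⟨hz, g3⟩
      · right
        push Not at g3
        obtain ⟨q', hq', hne, hc⟩ := g3
        rw [hB3, mem_biUnion]
        exact ⟨q', mem_erase.2 ⟨hne, hq'⟩, mem_filter.2 ⟨hz, hc⟩⟩
    have k5 := card_le_card hsub
    rw [offDiag_card] at k5
    have u1 := card_union_le (Gd q) B3
    have k6 : M.card * M.card ≤ (M.card * M.card - M.card) + M.card := by omega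
    have k7 : (1 + 4 * (J.card - 1)) * M.card = M.card + 4 * (J.card - 1) * M.card := by ring
    rw [sq, k7]
    omega
  have hHn : ∀ q ∈ J, ∀ s ∈ S q, Hn s ≠ 0 := by
    intro q hq s hs
    obtain ⟨z, hz, rfl⟩ := mem_image.1 hs
    rw [hGd, mem_filter, mem_offDiag] at hz
    rw [Hn_sides, a1 q _ hz.1.1, a1 q _ hz.1.2.1]
    have h3 := a2 q _ hz.1.1 _ hz.1.2.1
    have h4 : (σ q z.1 ^ 2 + H q + dist z.1 z.2 ^ 2 + (σ q z.2 ^ 2 + H q)) ^ 2 -
        2 * ((σ q z.1 ^ 2 + H q) ^ 2 + (dist z.1 z.2 ^ 2) ^ 2 + (σ q z.2 ^ 2 + H q) ^ 2) =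
        4 * H q * dist z.1 z.2 ^ 2 := by
      rw [h3]; ring
    rw [h4]
    exact mul_ne_zero (mul_ne_zero (by norm_num) (hHpos q hq).ne')
      (pow_ne_zero 2 (dist_ne_zero.2 hz.1.2.2))
  have hHn0 : ∀ s ∈ tri M, Hn s = 0 := by
    intro s hs
    obtain ⟨a, ha, b, hb, d, hd, _, _, _, rfl⟩ := mem_tri.1 hs
    rw [Hn_sides, a2 p _ ha _ hb, a2 p _ hb _ hd, a2 p _ ha _ hd]
    ring
  have claim2 : ∀ q ∈ J, ∀ q' ∈ J, q ≠ q' → Disjoint (S q) (S q') := by
    intro q hq q' hq' hne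
    rw [disjoint_left]
    intro s hs hs'
    obtain ⟨z, hz, hzs⟩ := mem_image.1 hs
    obtain ⟨z', hz', hzs'⟩ := mem_image.1 hs'
    rw [hGd, mem_filter, mem_offDiag] at hz hz'
    exact hz.2 q' hq' hne.symm ⟨z'.1, hz'.1.1, z'.2, hz'.1.2.1, hzs.trans hzs'.symm⟩
  have hdis : Disjoint (tri M) (J.biUnion S) := by
    rw [disjoint_left]
    intro s hs hs'
    obtain ⟨q, hq, hsq⟩ := mem_biUnion.1 hs'
    exact hHn q hq s hsq (hHn0 s hs)
  have claim3 : (tri M).card + ∑ q ∈ J, (S q).card ≤ T P := by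
    rw [← card_biUnion claim2, T_eq, ← card_union_of_disjoint hdis]
    refine card_le_card (union_subset (fun s hs => ?_) fun s hs => ?_)
    · obtain ⟨a, ha, b, hb, d, hd, h⟩ := mem_tri.1 hs
      exact mem_tri.2 ⟨a, hMP a ha, b, hMP b hb, d, hMP d hd, h⟩
    · obtain ⟨q, hq, hs⟩ := mem_biUnion.1 hs
      obtain ⟨z, hz, rfl⟩ := mem_image.1 hs
      rw [hGd, mem_filter, mem_offDiag] at hz
      have hne : ∀ x ∈ M, q ≠ x := fun x hx e => (hJ q hq).2 (by rw [e]; exact hMo x hx)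
      exact mem_tri.2 ⟨q, (hJ q hq).1, z.1, hMP _ hz.1.1, z.2, hMP _ hz.1.2.1, hne _ hz.1.1,
        hz.1.2.2, hne _ hz.1.2.1, rfl⟩
  have hsum : J.card * M.card ^ 2 ≤ 4 * ∑ q ∈ J, (S q).card +
      J.card * ((1 + 4 * (J.card - 1)) * M.card) := by
    calc J.card * M.card ^ 2 = ∑ q ∈ J, M.card ^ 2 := by rw [sum_const, smul_eq_mul]
      _ ≤ ∑ q ∈ J, (4 * (S q).card + (1 + 4 * (J.card - 1)) * M.card) := sum_le_sum claim1
      _ = _ := by rw [sum_add_distrib, ← mul_sum, sum_const, smul_eq_mul]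
  omega

/-- **Theorem.** Let `P` be a set of `n` points of the plane, `m` of which lie on the line through
`p` with direction `v`, and let `J` be a set of `D` points of `P` which are not on this line and have
pairwise different distances from it.  If `n ^ 2 + (12 D ^ 2 - 9 D + 6) m ≤ 3 (D + 1) m ^ 2 + 8`, then
`P` determines at least `[n ^ 2 / 12]` distinct triangles. -/
theorem result (P : Finset (EuclideanSpace ℝ (Fin 2))) (p v : EuclideanSpace ℝ (Fin 2))
    (hv : v ≠ 0) (m : ℕ) (hm : m = {x | x ∈ P ∧ off p v x = 0}.ncard)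
    (J : Finset (EuclideanSpace ℝ (Fin 2))) (hJ : ∀ q ∈ J, q ∈ P ∧ off p v q ≠ 0)
    (hJ' : ∀ q ∈ J, ∀ q' ∈ J, q ≠ q' → |off p v q| ≠ |off p v q'|)
    (h : P.card ^ 2 + (12 * J.card ^ 2 + 6) * m ≤
      3 * (J.card + 1) * m ^ 2 + 9 * J.card * m + 8) :
    (P.card ^ 2 + 6) / 12 ≤ T P := by
  classical
  have hV : 0 < v 0 ^ 2 + v 1 ^ 2 := by
    by_contra hcon
    push Not at hcon
    apply hv
    have h0 : v 0 = 0 := by nlinarith [sq_nonneg (v 0), sq_nonneg (v 1)]
    have h1 : v 1 = 0 := by nlinarith [sq_nonneg (v 0), sq_nonneg (v 1)]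
    ext i
    fin_cases i
    · simpa using h0
    · simpa using h1
  have hmM : m = (P.filter (fun x => off p v x = 0)).card := by
    rw [hm, ← Set.ncard_coe_finset]
    congr 1
    ext x
    simp
  have ht := ltypes P hV J hJ hJ'
  rw [← hmM] at ht
  obtain ⟨D, hD⟩ : ∃ D, D = J.card := ⟨_, rfl⟩
  rw [← hD] at ht h
  have h2 := sq_mod P.card
  have e1 : D * ((1 + 4 * (D - 1)) * m) + 3 * (D * m) = 4 * (D ^ 2 * m) := by
    rcases Nat.eq_zero_or_pos D with h0 | h0
    · rw [h0]; simp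
    · obtain ⟨k, rfl⟩ : ∃ k, D = k + 1 := ⟨D - 1, by omega⟩
      rw [Nat.add_sub_cancel]
      ring
  have e2 : (12 * D ^ 2 + 6) * m = 12 * (D ^ 2 * m) + 6 * m := by ring
  have e3 : 3 * (D + 1) * m ^ 2 = 3 * (D * m ^ 2) + 3 * m ^ 2 := by ring
  have e4 : 9 * D * m = 9 * (D * m) := by ring
  rw [e2, e3, e4] at h
  rcases Nat.eq_zero_or_pos m with h0 | h0
  · subst h0
    simp at h
    have h5 : P.card ≤ 2 := by nlinarith
    interval_cases P.card <;> simp
  · obtain ⟨k, rfl⟩ : ∃ k, m = k + 1 := ⟨m - 1, by omega⟩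
    rw [Nat.add_sub_cancel] at ht
    have e5 : (k + 1) ^ 2 = k ^ 2 + 2 * k + 1 := by ring
    have e6 : k ^ 2 % 4 = 0 ∨ k ^ 2 % 4 = 1 := by
      rw [Nat.pow_mod]
      have : k % 4 < 4 := Nat.mod_lt _ (by norm_num)
      interval_cases k % 4 <;> simp
    omega

end Pool.Agent.Results.MP_dc37f8_co.ManyCollinear
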